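import Pool.Agent.H55.Cell.Exist

/-!
# Deforming into the totally positive part
-/

namespace Pool.Agent.H55.Cell

open Finset Polynomial

variable {n : ℕ}

/-- add `t` times row `i'` to row `i` -/
noncomputable def rop (G : Fin n → ℕ → ℝ) (t : ℝ) (i i' : Fin n) : Fin n → ℕ → ℝ := fun r j =>
  if r = i then G r j + t * G i' j else G r j

theorem mt_rop_of_notMem (G : Fin n → ℕ → ℝ) (t : ℝ) {i i' : Fin n} {k : ℕ} (τ : Fin k → Fin n)
    (h : ∀ a, τ a ≠ i) : mt (rop G t i i') τ = mt G τ := by
  unfold mt
  congr 1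
  ext a j
  simp only [Matrix.of_apply, rop, if_neg (h a)]

theorem mt_rop (G : Fin n → ℕ → ℝ) (t : ℝ) {i i' : Fin n} {k : ℕ} (τ : Fin k → Fin n)
    (hτ : Function.Injective τ) {a : Fin k} (ha : τ a = i) :
    mt (rop G t i i') τ = mt G τ + t * mt G (Function.update τ a i') := by
  have h1 : (Matrix.of fun b j : Fin k => rop G t i i' (τ b) (j : ℕ)) =
      Matrix.updateRow (Matrix.of fun b j : Fin k => G (τ b) (j : ℕ)) a
        ((Matrix.of fun b j : Fin k => G (τ b) (j : ℕ)) a + t • fun j : Fin k => G i' (j : ℕ)) := by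
    ext b j
    by_cases hb : b = a
    · subst hb
      rw [Matrix.updateRow_self]
      simp only [Matrix.of_apply, rop, ha, if_true, Pi.add_apply, Pi.smul_apply, smul_eq_mul]
    · rw [Matrix.updateRow_ne hb]
      simp only [Matrix.of_apply, rop]
      rw [if_neg]
      intro h; exact hb (hτ (h.trans ha.symm))
  have h2 : Matrix.updateRow (Matrix.of fun b j : Fin k => G (τ b) (j : ℕ)) a
      (fun j : Fin k => G i' (j : ℕ)) =
      Matrix.of fun b j : Fin k => G (Function.update τ a i' b) (j : ℕ) := by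
    ext b j
    by_cases hb : b = a
    · subst hb
      rw [Matrix.updateRow_self, Matrix.of_apply, Function.update_self]
    · rw [Matrix.updateRow_ne hb, Matrix.of_apply, Matrix.of_apply, Function.update_of_ne hb]
  unfold mt
  rw [h1, Matrix.det_updateRow_add, Matrix.det_updateRow_smul, Matrix.updateRow_eq_self, h2]

theorem pl_rop (G : Fin n → ℕ → ℝ) (t : ℝ) {i i' : Fin n}
    (hadj : (i' : ℕ) = i + 1 ∨ (i : ℕ) = i' + 1) (J : Finset (Fin n)) :
    pl (rop G t i i') J = pl G J +
      if i ∈ J ∧ i' ∉ J then t * pl G (insert i' (J.erase i)) else 0 := by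
  set τ := J.orderEmbOfFin rfl with hτ
  by_cases hi : i ∈ J
  swap
  · rw [if_neg (fun h => hi h.1), add_zero]
    apply mt_rop_of_notMem
    intro a ha
    exact hi (by rw [← ha]; exact J.orderEmbOfFin_mem rfl a)
  obtain ⟨a, ha⟩ : ∃ a, τ a = i := by
    have : i ∈ Set.range τ := by rw [hτ, Finset.range_orderEmbOfFin]; exact hi
    exact this
  have h1 : pl (rop G t i i') J = pl G J + t * mt G (Function.update τ a i') :=
    mt_rop G t _ τ.injective ha
  rw [h1]
  congr 1
  by_cases hi' : i' ∈ J
  · rw [if_neg (fun h => h.2 hi')]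
    obtain ⟨b, hb⟩ : ∃ b, τ b = i' := by
      have : i' ∈ Set.range τ := by rw [hτ, Finset.range_orderEmbOfFin]; exact hi'
      exact this
    have hab : a ≠ b := by
      rintro rfl
      rw [ha] at hb
      rcases hadj with h | h <;> · rw [hb] at h; omega
    have h0 : mt G (Function.update τ a i') = 0 := by
      unfold mt
      apply Matrix.det_zero_of_row_eq hab
      ext j
      simp only [Matrix.of_apply, Function.update_self, Function.update_of_ne hab.symm, hb]
    rw [h0, mul_zero]
  · rw [if_pos ⟨hi, hi'⟩]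
    congr 1
    have hmemJ : ∀ b, τ b ∈ J := fun b => J.orderEmbOfFin_mem rfl b
    have hne : ∀ b, (τ b : ℕ) ≠ i' := by
      intro b hb; exact hi' (by rw [← Fin.ext hb]; exact hmemJ b)
    have hmono : StrictMono (Function.update τ a i') := by
      intro b c hbc
      by_cases hba : b = a
      · subst hba
        rw [Function.update_self, Function.update_of_ne hbc.ne']
        have h3 : (τ b : ℕ) < τ c := τ.strictMono hbc
        have h4 := hne c
        rw [ha] at h3
        show (i' : ℕ) < τ c
        omega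
      · by_cases hca : c = a
        · subst hca
          rw [Function.update_self, Function.update_of_ne hbc.ne]
          have h3 : (τ b : ℕ) < τ c := τ.strictMono hbc
          have h4 := hne b
          rw [ha] at h3
          show (τ b : ℕ) < i'
          omega
        · rw [Function.update_of_ne hba, Function.update_of_ne hca]
          exact τ.strictMono hbc
    have hnot : i' ∉ J.erase i := fun h => hi' (mem_of_mem_erase h)
    have h5 := mt_perm G (Function.update τ a i') hmono.injective (J := insert i' (J.erase i))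
      (fun b => by
        by_cases hba : b = a
        · subst hba; rw [Function.update_self]; exact mem_insert_self _ _
        · rw [Function.update_of_ne hba]
          refine mem_insert_of_mem (mem_erase.mpr ⟨?_, hmemJ b⟩)
          intro h; exact hba (τ.injective (h.trans ha.symm)))
      (by
        rw [card_insert_of_notMem hnot, card_erase_of_mem hi]
        have : 0 < J.card := card_pos.mpr ⟨i, hi⟩
        omega)
    rw [h5, sg_of_strictMono hmono, one_mul]

/-- a polynomial family of arrays -/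
def Fam (G : Fin n → ℕ → ℝ) (A : ℝ → Fin n → ℕ → ℝ) (P : Finset (Fin n) → ℝ[X]) : Prop :=
  (∀ t J, pl (A t) J = (P J).eval t) ∧ (∀ J l, 0 ≤ (P J).coeff l) ∧
    (∀ J, (P J).coeff 0 = pl G J)

theorem fam_const {G : Fin n → ℕ → ℝ} (hG : ∀ J, 0 ≤ pl G J) :
    Fam G (fun _ => G) (fun J => C (pl G J)) := by
  refine ⟨fun t J => by simp, fun J l => ?_, fun J => by simp⟩
  rw [coeff_C]; split_ifs
  · exact hG J
  · exact le_rfl

theorem Fam.op {G : Fin n → ℕ → ℝ} {A : ℝ → Fin n → ℕ → ℝ} {P : Finset (Fin n) → ℝ[X]}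
    (h : Fam G A P) {i i' : Fin n} (hadj : (i' : ℕ) = i + 1 ∨ (i : ℕ) = i' + 1) :
    Fam G (fun t => rop (A t) t i i')
      (fun J => P J + if i ∈ J ∧ i' ∉ J then X * P (insert i' (J.erase i)) else 0) := by
  refine ⟨fun t J => ?_, fun J l => ?_, fun J => ?_⟩
  · rw [pl_rop _ _ hadj, h.1]
    by_cases hc : i ∈ J ∧ i' ∉ J
    · rw [if_pos hc, h.1]; beta_reduce; rw [if_pos hc]; simp
    · rw [if_neg hc]; beta_reduce; rw [if_neg hc]; simp
  · beta_reduce
    split_ifs
    · rw [coeff_add]
      refine add_nonneg (h.2.1 _ _) ?_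
      cases l with
      | zero => simp
      | succ l => rw [coeff_X_mul]; exact h.2.1 _ _
    · rw [add_zero]; exact h.2.1 _ _
  · beta_reduce
    split_ifs
    · rw [coeff_add]; simp [h.2.2]
    · rw [add_zero]; exact h.2.2 _

theorem exists_gap {J : Finset (Fin n)} (hJ : J ≠ pre 1 J.card) :
    ∃ i ∈ J, ∃ i' ∉ J, (i : ℕ) = i' + 1 := by
  by_contra hcon
  push Not at hcon
  apply hJ
  have hJn : J.card ≤ n := by simpa using J.card_le_univ
  apply Finset.eq_of_subset_of_card_le
  · intro i hi
    have key : ∀ d : ℕ, ∀ hd : (i : ℕ) - d < n, (⟨(i : ℕ) - d, hd⟩ : Fin n) ∈ J := by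
      intro d
      induction d with
      | zero => intro _; exact hi
      | succ d ih =>
        intro hd
        by_cases h0 : (i : ℕ) ≤ d
        · have h1 := ih (by omega)
          have : (⟨(i : ℕ) - (d + 1), hd⟩ : Fin n) = ⟨(i : ℕ) - d, by omega⟩ := by
            apply Fin.ext; simp; omega
          rw [this]; exact h1
        · by_contra hnot
          exact hcon _ (ih (by omega)) _ hnot (by simp; omega)
    have hsub : (univ.filter fun j : Fin n => (j : ℕ) < (i : ℕ) + 1) ⊆ J := by
      intro j hj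
      have hj' : (j : ℕ) < (i : ℕ) + 1 := by simpa using hj
      have := key ((i : ℕ) - j) (by omega)
      have h2 : (⟨(i : ℕ) - ((i : ℕ) - j), by omega⟩ : Fin n) = j := by
        apply Fin.ext; simp; omega
      rwa [h2] at this
    have hc := Finset.card_le_card hsub
    have h3 : (univ.filter fun j : Fin n => (j : ℕ) < (i : ℕ) + 1).card = (i : ℕ) + 1 := by
      exact card_pre (1 : Equiv.Perm (Fin n)) (k := (i : ℕ) + 1) (by omega)
    rw [mem_pre]
    show (i : ℕ) < J.card
    omega
  · rw [card_pre 1 hJn]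

theorem swap_back {J : Finset (Fin n)} {i i' : Fin n} (hi : i ∈ J) (hi' : i' ∉ J) :
    i' ∈ insert i' (J.erase i) ∧ i ∉ insert i' (J.erase i) ∧
    insert i ((insert i' (J.erase i)).erase i') = J ∧
    (insert i' (J.erase i)).card = J.card := by
  have hne : i ≠ i' := by rintro rfl; exact hi' hi
  have hnot : i' ∉ J.erase i := fun h => hi' (mem_of_mem_erase h)
  refine ⟨mem_insert_self _ _, ?_, ?_, ?_⟩
  · rw [mem_insert, mem_erase]; push Not; exact ⟨hne, fun h => absurd rfl h⟩
  · rw [erase_insert hnot, insert_erase hi]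
  · rw [card_insert_of_notMem hnot, card_erase_of_mem hi]
    have : 0 < J.card := card_pos.mpr ⟨i, hi⟩
    omega

theorem sum_swap {J : Finset (Fin n)} {i i' : Fin n} (hi : i ∈ J) (hi' : i' ∉ J)
    (h : (i : ℕ) = i' + 1) : ∑ a ∈ insert i' (J.erase i), (a : ℕ) < ∑ a ∈ J, (a : ℕ) := by
  have hnot : i' ∉ J.erase i := fun h => hi' (mem_of_mem_erase h)
  rw [Finset.sum_insert hnot, ← Finset.add_sum_erase J _ hi]
  omega

/-- a property of sets stable under adjacent moves -/
theorem connect {R : Finset (Fin n) → Prop}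
    (hR : ∀ (J : Finset (Fin n)) (i i' : Fin n), ((i' : ℕ) = i + 1 ∨ (i : ℕ) = i' + 1) → i ∈ J →
      i' ∉ J → R (insert i' (J.erase i)) → R J) {J J' : Finset (Fin n)} (hc : J.card = J'.card)
    (hJ' : R J') : R J := by
  have down : ∀ (N : ℕ) (J' : Finset (Fin n)), ∑ a ∈ J', (a : ℕ) = N → R J' →
      R (pre 1 J'.card) := by
    intro N
    induction N using Nat.strong_induction_on with
    | _ N ih =>
      intro J' hN hJ'
      by_cases h : J' = pre 1 J'.card
      · rw [← h]; exact hJ'
      · obtain ⟨i, hi, i', hi', hii⟩ := exists_gap h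
        obtain ⟨h1, h2, h3, h4⟩ := swap_back hi hi'
        have h5 : R (insert i' (J'.erase i)) := by
          apply hR _ i' i (Or.inl hii) h1 h2
          rw [h3]; exact hJ'
        have h6 := ih _ (by rw [← hN]; exact sum_swap hi hi' hii) _ rfl h5
        rwa [h4] at h6
  have up : ∀ (N : ℕ) (J : Finset (Fin n)), ∑ a ∈ J, (a : ℕ) = N → R (pre 1 J.card) → R J := by
    intro N
    induction N using Nat.strong_induction_on with
    | _ N ih =>
      intro J hN hJ
      by_cases h : J = pre 1 J.card
      · rw [h]; exact hJ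
      · obtain ⟨i, hi, i', hi', hii⟩ := exists_gap h
        obtain ⟨h1, h2, h3, h4⟩ := swap_back hi hi'
        have h6 := ih _ (by rw [← hN]; exact sum_swap hi hi' hii) (insert i' (J.erase i)) rfl
          (by rw [h4]; exact hJ)
        exact hR J i i' (Or.inr hii) hi hi' h6
  exact up _ J rfl (by rw [hc]; exact down _ J' rfl hJ')

theorem exists_fam {G : Fin n → ℕ → ℝ} (hG : TNN G) : ∃ A P, Fam G A P ∧ ∀ J, P J ≠ 0 := by
  classical
  have main : ∀ (N : ℕ) A P, Fam G A P → (univ.filter fun J => P J = 0).card = N →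
      ∃ A P, Fam G A P ∧ ∀ J, P J ≠ 0 := by
    intro N
    induction N using Nat.strong_induction_on with
    | _ N ih =>
      intro A P hF hN
      by_cases hall : ∀ J, P J ≠ 0
      · exact ⟨A, P, hF, hall⟩
      push Not at hall
      obtain ⟨J0, hJ0⟩ := hall
      have hJn : J0.card ≤ n := by simpa using J0.card_le_univ
      obtain ⟨z, hz⟩ := supp_nonempty hG
      have hne : P (pre z J0.card) ≠ 0 := by
        intro h
        apply hz J0.card hJn
        rw [← hF.2.2, h, coeff_zero]
      have hstep : ∃ (J : Finset (Fin n)) (i i' : Fin n), ((i' : ℕ) = i + 1 ∨ (i : ℕ) = i' + 1) ∧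
          i ∈ J ∧ i' ∉ J ∧ P (insert i' (J.erase i)) ≠ 0 ∧ P J = 0 := by
        by_contra hcon
        push Not at hcon
        exact connect (R := fun J => P J ≠ 0) (fun J i i' h1 h2 h3 h4 => hcon J i i' h1 h2 h3 h4)
          (card_pre z hJn).symm hne hJ0
      obtain ⟨J, i, i', hadj, hi, hi', hne', hJ⟩ := hstep
      refine ih _ ?_ _ _ (hF.op hadj) rfl
      rw [← hN]
      apply Finset.card_lt_card
      rw [Finset.ssubset_iff_of_subset]
      · refine ⟨J, by simp [hJ], ?_⟩
        simp only [mem_filter, mem_univ, true_and]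
        rw [if_pos ⟨hi, hi'⟩, hJ, zero_add]
        exact mul_ne_zero X_ne_zero hne'
      · intro J' hJ'
        simp only [mem_filter, mem_univ, true_and] at hJ' ⊢
        ext l
        have h1 := congrArg (fun q => q.coeff l) hJ'
        simp only [coeff_add, coeff_zero] at h1 ⊢
        have h2 := hF.2.1 J' l
        have h3 : 0 ≤ (if i ∈ J' ∧ i' ∉ J' then X * P (insert i' (J'.erase i)) else 0).coeff l := by
          split_ifs
          · cases l with
            | zero => simp
            | succ l => rw [coeff_X_mul]; exact hF.2.1 _ _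
          · simp
        linarith
  exact main _ _ _ (fam_const hG.1) rfl

theorem exists_asym {G : Fin n → ℕ → ℝ} (hG : TNN G) :
    ∃ (A : ℝ → Fin n → ℕ → ℝ) (w : Finset (Fin n) → ℕ) (Q : Finset (Fin n) → ℝ[X]),
      (∀ t J, pl (A t) J = t ^ (w J) * (Q J).eval t) ∧ (∀ J, 0 < (Q J).eval 0) ∧
      (∀ J, w J = 0 ↔ pl G J ≠ 0) := by
  obtain ⟨A, P, hF, hne⟩ := exists_fam hG
  have h1 : ∀ J, ∃ (m : ℕ) (q : ℝ[X]), P J = X ^ m * q ∧ q.eval 0 ≠ 0 := by
    intro J
    obtain ⟨q, hq1, hq2⟩ := exists_eq_pow_rootMultiplicity_mul_and_not_dvd (P J) (hne J) 0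
    rw [C_0, sub_zero] at hq1 hq2
    refine ⟨_, q, hq1, ?_⟩
    intro h0
    apply hq2
    rw [X_dvd_iff, coeff_zero_eq_eval_zero]
    exact h0
  choose w Q hQ1 hQ2 using h1
  have hpos : ∀ J, 0 < (Q J).eval 0 := by
    intro J
    refine lt_of_le_of_ne ?_ (hQ2 J).symm
    rw [← coeff_zero_eq_eval_zero]
    have h2 := hF.2.1 J (w J)
    rw [hQ1 J] at h2
    have h3 : (X ^ (w J) * Q J).coeff (w J) = (Q J).coeff 0 := by
      have := coeff_X_pow_mul (Q J) (w J) 0
      rwa [zero_add] at this
    rwa [h3] at h2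
  refine ⟨A, w, Q, fun t J => ?_, hpos, fun J => ?_⟩
  · rw [hF.1 t J, hQ1 J, eval_mul, eval_pow, eval_X]
  · rw [← hF.2.2 J, hQ1 J, coeff_zero_eq_eval_zero, eval_mul, eval_pow, eval_X]
    constructor
    · intro h; rw [h, pow_zero, one_mul]; exact (hpos J).ne'
    · intro h
      by_contra h4
      rw [zero_pow h4, zero_mul] at h
      exact h rfl

end Pool.Agent.H55.Cell
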