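import Pool.Agent.H55.Cell.Statement

/-!
# Lattice path flag matroid polytopes as cells: basic definitions

Combinatorial side (permutations, tableau order, Bruhat order) and flag minors of a real matrix.
-/

namespace Pool.Agent.H55.Cell

open Finset

variable {n : ℕ}

/-- `#{a < k : m ≤ z a}` -/
def cnt (z : Equiv.Perm (Fin n)) (k m : ℕ) : ℕ :=
  (univ.filter fun a : Fin n => (a : ℕ) < k ∧ m ≤ (z a : ℕ)).card

/-- the tableau criterion -/
def TabLE (u w : Equiv.Perm (Fin n)) : Prop := ∀ k m : ℕ, cnt u k m ≤ cnt w k m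

/-- the set `z[k]` of the first `k` values of `z` -/
def pre (z : Equiv.Perm (Fin n)) (k : ℕ) : Finset (Fin n) :=
  univ.filter fun i => (z.symm i : ℕ) < k

/-- `#{i ∈ J : m ≤ i}` -/
def hi (J : Finset (Fin n)) (m : ℕ) : ℕ := (J.filter fun i : Fin n => m ≤ (i : ℕ)).card

/-- minor of the array `G` with rows `τ 0, τ 1, ...` and the first `k` columns -/
noncomputable def mt (G : Fin n → ℕ → ℝ) {k : ℕ} (τ : Fin k → Fin n) : ℝ :=
  (Matrix.of fun i j : Fin k => G (τ i) (j : ℕ)).det

/-- flag minor: rows `J` (in increasing order), first `|J|` columns -/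
noncomputable def pl (G : Fin n → ℕ → ℝ) (J : Finset (Fin n)) : ℝ :=
  mt G (J.orderEmbOfFin rfl)

/-- all flag minors are nonnegative and the first `n` columns are independent -/
def TNN (G : Fin n → ℕ → ℝ) : Prop := (∀ J, 0 ≤ pl G J) ∧ pl G univ ≠ 0

/-- the permutations whose flags of coordinates are bases -/
def Supp (G : Fin n → ℕ → ℝ) : Set (Equiv.Perm (Fin n)) :=
  {z | ∀ k ≤ n, pl G (pre z k) ≠ 0}

end Pool.Agent.H55.Cell
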