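import Pool.Agent.H55.Cell.Mirror

/-!
# Every Bruhat interval is the support of an array with nonnegative flag minors
-/

namespace Pool.Agent.H55.Cell

open Finset

variable {n : ℕ}

theorem eq_one_or_descent (w : Equiv.Perm (Fin n)) :
    w = 1 ∨ ∃ (p : ℕ) (hp : p + 1 < n), w (q1 hp) < w (q0 hp) := by
  by_cases h : StrictMono (w : Fin n → Fin n)
  · left
    have h2 : (w : Fin n → Fin n) = id := (StrictMono.range_inj h strictMono_id).mp (by
      rw [w.surjective.range_eq, Set.range_id])
    ext a
    rw [h2]; rfl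
  · right
    unfold StrictMono at h
    push Not at h
    obtain ⟨a, b, hab, h1⟩ := h
    have h2 : w b < w a := lt_of_le_of_ne h1 (fun h3 => hab.ne (w.injective h3).symm)
    exact exists_descent hab h2

/-- the identity array -/
noncomputable def idA : Fin n → ℕ → ℝ := fun i j => if (i : ℕ) = j then 1 else 0

theorem ech_idA : Ech (idA (n := n)) 1 := by
  intro κ
  refine ⟨by simp [idA], fun i hi => ?_⟩
  have : (κ : ℕ) < i := hi
  simp [idA]; omega

theorem pl_idA_pre {k : ℕ} (hk : k ≤ n) : pl (idA (n := n)) (pre 1 k) = 1 := by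
  have h := mt_perm (idA (n := n)) (Fin.castLE hk) (Fin.castLE_injective hk) (J := pre 1 k)
    (fun i => by rw [mem_pre]; exact i.isLt) (card_pre 1 hk)
  rw [sg_of_strictMono (Fin.strictMono_castLE hk), one_mul] at h
  rw [← h]
  unfold mt
  have : (Matrix.of fun i j : Fin k => idA (Fin.castLE hk i) (j : ℕ)) = 1 := by
    ext i j
    simp only [Matrix.of_apply, idA, Fin.val_castLE, Matrix.one_apply]
    by_cases hij : i = j
    · subst hij; simp
    · rw [if_neg hij, if_neg]; intro h2; exact hij (Fin.ext h2)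
  rw [this, Matrix.det_one]

theorem tnn_idA : TNN (idA (n := n)) := by
  refine ⟨fun J => ?_, ?_⟩
  · by_cases h : pl (idA (n := n)) J = 0
    · rw [h]
    have h1 := ech_idA.hi_le h
    have hJn : J.card ≤ n := by simpa using J.card_le_univ
    have h2 : J = pre 1 J.card := by
      apply Finset.eq_of_subset_of_card_le
      · intro i hiJ
        have h3 := h1 (i : ℕ)
        have h4 : 0 < hi J (i : ℕ) := by
          unfold hi
          apply Finset.card_pos.mpr
          exact ⟨i, by simp [hiJ]⟩
        have h5 : 0 < hi (pre 1 J.card) (i : ℕ) := lt_of_lt_of_le h4 h3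
        unfold hi at h5
        obtain ⟨j, hj⟩ := Finset.card_pos.mp h5
        rw [mem_filter, mem_pre] at hj
        rw [mem_pre]
        have : (j : ℕ) < J.card := hj.1
        have h6 := hj.2
        show (i : ℕ) < J.card
        omega
      · rw [card_pre 1 hJn]
    rw [h2, pl_idA_pre hJn]; exact zero_le_one
  · have h : (univ : Finset (Fin n)) = pre 1 n := by ext i; rw [mem_pre]; simp
    rw [h, pl_idA_pre le_rfl]; exact one_ne_zero

theorem supp_idA {z : Equiv.Perm (Fin n)} : z ∈ Supp (idA (n := n)) ↔ z = 1 := by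
  constructor
  · intro h
    have h1 := ech_idA.tabLE h
    by_contra hne
    obtain ⟨a, b, hab, h2, -⟩ := exists_step h1 hne
    exact absurd hab (not_lt.mpr h2.le)
  · rintro rfl; exact ech_idA.mem_supp

/-- adding the swapped minors to the minors of size `p + 1` -/
noncomputable def addc (G : Fin n → ℕ → ℝ) (p : ℕ) : Fin n → ℕ → ℝ := fun r j =>
  if j = p then G r p - G r (p + 1) else G r j

theorem mt_addc_of_ne (G : Fin n → ℕ → ℝ) {p k : ℕ} (τ : Fin k → Fin n) (hk : k ≠ p + 1) :
    mt (addc G p) τ = mt G τ := by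
  rcases Nat.lt_or_ge k (p + 1) with h | h
  · apply mt_congr
    intro r j hj
    simp only [addc]; rw [if_neg]; omega
  · have h2 : p + 2 ≤ k := by omega
    unfold mt
    set i0 : Fin k := ⟨p, by omega⟩
    set i1 : Fin k := ⟨p + 1, by omega⟩
    have hne : i0 ≠ i1 := by intro h; simp [i0, i1] at h
    have h3 := Matrix.det_updateCol_add_smul_self (Matrix.of fun i j : Fin k => G (τ i) (j : ℕ))
      hne (-1)
    rw [← h3]
    congr 1
    ext i j
    by_cases hj : j = i0
    · subst hj
      simp only [Matrix.of_apply, addc, Matrix.updateCol_self, Pi.add_apply, Pi.smul_apply,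
        Matrix.col_apply, smul_eq_mul]
      simp [i0, i1]
      ring
    · rw [Matrix.updateCol_ne hj]
      simp only [Matrix.of_apply, addc]
      rw [if_neg]
      intro h4; exact hj (Fin.ext h4)

theorem mt_addc (G : Fin n → ℕ → ℝ) {p : ℕ} (τ : Fin (p + 1) → Fin n) :
    mt (addc G p) τ = mt G τ + mt (sw G p) τ := by
  rw [mt_succ, mt_succ, mt_succ, ← Finset.sum_add_distrib]
  refine Finset.sum_congr rfl fun i _ => ?_
  have h1 : mt (addc G p) (τ ∘ i.succAbove) = mt G (τ ∘ i.succAbove) := mt_addc_of_ne G _ (by omega)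
  have h2 : mt (sw G p) (τ ∘ i.succAbove) = mt G (τ ∘ i.succAbove) := mt_sw G p _ (by omega)
  rw [h1, h2]
  have h3 : addc G p (τ i) p = G (τ i) p + sw G p (τ i) p := by simp [addc, sw]; ring
  rw [h3]; ring

theorem pl_addc_of_ne (G : Fin n → ℕ → ℝ) {p : ℕ} {J : Finset (Fin n)} (hJ : J.card ≠ p + 1) :
    pl (addc G p) J = pl G J := mt_addc_of_ne G _ hJ

theorem pl_addc (G : Fin n → ℕ → ℝ) {p : ℕ} {J : Finset (Fin n)} (hJ : J.card = p + 1) :
    pl (addc G p) J = pl G J + pl (sw G p) J := by
  rw [pl_eq _ hJ, pl_eq _ hJ, pl_eq _ hJ]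
  exact mt_addc G _

theorem supp_addc {G : Fin n → ℕ → ℝ} (hG : TNN G) {p : ℕ} (hp : p + 1 < n) (hQ : TNN (sw G p))
    (z : Equiv.Perm (Fin n)) : z ∈ Supp (addc G p) ↔ z ∈ Supp G ∨ z ∈ Supp (sw G p) := by
  constructor
  · intro h
    have h1 := h (p + 1) (by omega)
    have h2 : ∀ k ≤ n, k ≠ p + 1 → pl G (pre z k) ≠ 0 := by
      intro k hk hk1
      have := h k hk
      rwa [pl_addc_of_ne G (by rw [card_pre z hk]; exact hk1)] at this
    rw [pl_addc G (card_pre z (by omega))] at h1
    by_cases h3 : pl G (pre z (p + 1)) = 0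
    · right
      rw [h3, zero_add] at h1
      intro k hk
      by_cases hk1 : k = p + 1
      · rw [hk1]; exact h1
      · rw [pl_sw G p (by rw [card_pre z hk]; exact hk1)]; exact h2 k hk hk1
    · left
      intro k hk
      by_cases hk1 : k = p + 1
      · rw [hk1]; exact h3
      · exact h2 k hk hk1
  · intro h k hk
    by_cases hk1 : k = p + 1
    · subst hk1
      rw [pl_addc G (card_pre z hk)]
      rcases h with h | h
      · have := lt_of_le_of_ne (hG.1 (pre z (p + 1))) (h (p + 1) hk).symm
        have h2 := hQ.1 (pre z (p + 1))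
        exact (by linarith : 0 < pl G (pre z (p + 1)) + pl (sw G p) (pre z (p + 1))).ne'
      · have := lt_of_le_of_ne (hQ.1 (pre z (p + 1))) (h (p + 1) hk).symm
        have h2 := hG.1 (pre z (p + 1))
        exact (by linarith : 0 < pl G (pre z (p + 1)) + pl (sw G p) (pre z (p + 1))).ne'
    · rw [pl_addc_of_ne G (by rw [card_pre z hk]; exact hk1)]
      rcases h with h | h
      · exact h k hk
      · have := h k hk
        rwa [pl_sw G p (by rw [card_pre z hk]; exact hk1)] at this

theorem tnn_addc {G : Fin n → ℕ → ℝ} (hG : TNN G) {p : ℕ} (hp : p + 1 < n) (hQ : TNN (sw G p)) :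
    TNN (addc G p) := by
  refine ⟨fun J => ?_, ?_⟩
  · by_cases hJ : J.card = p + 1
    · rw [pl_addc G hJ]; exact add_nonneg (hG.1 J) (hQ.1 J)
    · rw [pl_addc_of_ne G hJ]; exact hG.1 J
  · rw [pl_addc_of_ne G (by simp; omega)]; exact hG.2

/-- `G` has nonnegative flag minors and its support has minimum `u` and maximum `v` -/
def Rlz (G : Fin n → ℕ → ℝ) (u v : Equiv.Perm (Fin n)) : Prop :=
  TNN G ∧ u ∈ Supp G ∧ v ∈ Supp G ∧ ∀ z ∈ Supp G, TabLE u z ∧ TabLE z v

theorem exists_rlz (N : ℕ) : ∀ (u v : Equiv.Perm (Fin n)), wt (rw0 u) = N → TabLE u v →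
    ∃ G, Rlz G u v := by
  induction N using Nat.strong_induction_on with
  | _ N ih =>
    intro u v hN huv
    rcases eq_one_or_descent (rw0 u) with h0 | ⟨p, hp, h0⟩
    · -- the longest element
      have hu : u = rw0 1 := by rw [← h0, rw0_rw0]
      have hv : rw0 v = 1 := by
        have h1 := rev_tabLE huv
        rw [h0] at h1
        by_contra hne
        obtain ⟨a, b, hab, h2, -⟩ := exists_step h1 (Ne.symm (Ne.symm hne))
        exact absurd hab (not_lt.mpr h2.le)
      have huv' : v = u := by rw [hu, ← hv, rw0_rw0]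
      subst huv'
      refine ⟨mir idA, tnn_idA.mir, ?_, ?_, ?_⟩
      · rw [mem_supp_mir, supp_idA]; exact h0
      · rw [mem_supp_mir, supp_idA]; exact h0
      · intro z hz
        rw [mem_supp_mir, supp_idA] at hz
        have : z = v := by rw [hu, ← hz, rw0_rw0]
        subst this
        exact ⟨TabLE.refl _, TabLE.refl _⟩
    · -- an ascent of `u`
      have hup : u (q0 hp) < u (q1 hp) := by
        rw [rw0_apply, rw0_apply] at h0
        exact Fin.rev_lt_rev.mp h0
      set v' : Equiv.Perm (Fin n) := if v (q1 hp) < v (q0 hp) then v else ws hp v with hv'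
      have hv'cnt : ∀ k ≠ p + 1, ∀ m, cnt v' k m = cnt v k m := by
        intro k hk m
        rw [hv']; split_ifs
        · rfl
        · exact cnt_ws hp v hk m
      have hv'd : v' (q1 hp) < v' (q0 hp) := by
        rw [hv']; split_ifs with h
        · exact h
        · rw [ws_q0, ws_q1]
          exact (lt_or_gt' hp v).resolve_right h
      have hu'v' : TabLE (ws hp u) v' := by
        apply tabLE_of_desc hp hv'd
        intro k hk m
        rw [cnt_ws hp u hk, hv'cnt k hk]
        exact huv k m
      have hlt : wt (rw0 (ws hp u)) < N := by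
        rw [← hN]
        have hst : BruhatStep u (ws hp u) := ⟨q0 hp, q1 hp, by simp [q0, q1], hup, rfl⟩
        have := rev_step hst
        exact wt_lt_of (step_tabLE this) (step_strict this)
      obtain ⟨G', hG', hu', hvs', hall'⟩ := ih _ hlt (ws hp u) v' rfl hu'v'
      obtain ⟨E, hE1, hE2⟩ := exists_ech_max hG' hvs' (fun z hz => (hall' z hz).2)
      have hE : TNN E := hG'.congr hE1
      have hsE : Supp E = Supp G' := Supp_congr hE1
      have hQ : TNN (sw E p) := hE.sw hE2 hp hv'd
      have hEQ : Ech (sw E p) (ws hp v') := hE2.sw hp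
      have hsame : ∀ (w : Equiv.Perm (Fin n)) {k : ℕ}, k ≤ n → k ≠ p + 1 →
          pl (sw E p) (pre w k) = pl E (pre w k) := by
        intro w k hk hk1
        exact pl_sw E p (by rw [card_pre w hk]; exact hk1)
      have huQ : u ∈ Supp (sw E p) := by
        rw [← hsE] at hu'
        intro k hk
        by_cases hk1 : k = p + 1
        · subst hk1
          refine (flag_pos hp hE.1 hQ.1 hup ?_ ?_).1
          · rw [← pre_ws hp u (by omega)]; exact hu' p (by omega)
          · rw [← pre_ws hp u (by omega)]; exact hu' (p + 2) (by omega)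
        · rw [hsame _ hk hk1, ← pre_ws hp u hk1]; exact hu' k hk
      have hQmin : ∀ z ∈ Supp (sw E p), TabLE u z := by
        intro z hz
        have hz1 : ws hp (srt hp z) ∈ Supp E := by
          have h3 : ∀ k ≤ n, k ≠ p + 1 → pl E (pre (srt hp z) k) ≠ 0 := by
            intro k hk hk1
            rw [pre_srt hp z hk1, ← hsame z hk hk1]; exact hz k hk
          intro k hk
          by_cases hk1 : k = p + 1
          · subst hk1
            exact (flag_pos hp hE.1 hQ.1 (srt_asc hp z) (h3 p (by omega) (by omega))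
              (h3 (p + 2) (by omega) (by omega))).2
          · rw [pre_ws hp _ hk1]; exact h3 k hk hk1
        rw [hsE] at hz1
        have h4 := (hall' _ hz1).1
        apply tabLE_of_asc hp hup
        intro k hk m
        rw [← cnt_ws hp u hk, ← cnt_srt hp z hk, ← cnt_ws hp (srt hp z) hk]
        exact h4 k m
      have hQmax : ∀ z ∈ Supp (sw E p), TabLE z (ws hp v') := fun z hz => hEQ.tabLE hz
      by_cases hvd : v (q1 hp) < v (q0 hp)
      · -- `v' = v`
        have hvv : v' = v := by rw [hv', if_pos hvd]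
        rw [hvv] at hvs' hall' hQmax hEQ
        refine ⟨addc E p, tnn_addc hE hp hQ, ?_, ?_, ?_⟩
        · rw [supp_addc hE hp hQ]; exact Or.inr huQ
        · rw [supp_addc hE hp hQ, hsE]; exact Or.inl hvs'
        · intro z hz
          rw [supp_addc hE hp hQ] at hz
          rcases hz with hz | hz
          · rw [hsE] at hz
            refine ⟨?_, (hall' z hz).2⟩
            refine TabLE.trans ?_ (hall' z hz).1
            exact step_tabLE ⟨q0 hp, q1 hp, by simp [q0, q1], hup, rfl⟩
          · exact ⟨hQmin z hz, (hQmax z hz).trans (ws_tabLE hp hvd)⟩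
      · have hvv : ws hp v' = v := by rw [hv', if_neg hvd, ws_ws]
        rw [hvv] at hQmax hEQ
        exact ⟨sw E p, hQ, huQ, hEQ.mem_supp, fun z hz => ⟨hQmin z hz, hQmax z hz⟩⟩

/-- every Bruhat interval is the support of an array with nonnegative flag minors -/
theorem exists_tnn {u v : Equiv.Perm (Fin n)} (h : TabLE u v) :
    ∃ G, TNN G ∧ ∀ z, z ∈ Supp G ↔ TabLE u z ∧ TabLE z v := by
  obtain ⟨G, hG, hu, hv, hall⟩ := exists_rlz _ u v rfl h
  exact ⟨G, hG, supp_eq hG hu hv (fun z hz => (hall z hz).1) (fun z hz => (hall z hz).2)⟩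

end Pool.Agent.H55.Cell
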