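import Pool.Agent.H55.Cell.Limit

/-!
# The height function of a Bruhat interval
-/

namespace Pool.Agent.H55.Cell

open Finset

variable {n : ℕ}

/-- the point of the complete flag `z[1] ⊂ z[2] ⊂ ...` -/
noncomputable def fpt (z : Equiv.Perm (Fin n)) : Fin n → ℝ := fun i => (n : ℝ) - ((z.symm i : ℕ) : ℝ)

theorem sum_fpt (z : Equiv.Perm (Fin n)) (y : Fin n → ℝ) :
    ∑ k ∈ range (n + 1), ∑ i ∈ pre z k, y i = ∑ i, y i * fpt z i := by
  have h1 : ∀ k ∈ range (n + 1), ∑ i ∈ pre z k, y i =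
      ∑ i : Fin n, if (z.symm i : ℕ) < k then y i else 0 := by
    intro k _
    unfold pre
    rw [Finset.sum_filter]
  rw [Finset.sum_congr rfl h1, Finset.sum_comm]
  refine Finset.sum_congr rfl fun i _ => ?_
  rw [← Finset.sum_filter, Finset.sum_const, nsmul_eq_mul, mul_comm]
  congr 1
  have h2 : (range (n + 1)).filter (fun k => (z.symm i : ℕ) < k) =
      Finset.Ico ((z.symm i : ℕ) + 1) (n + 1) := by
    ext k
    simp only [mem_filter, mem_range, mem_Ico]
    omega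
  rw [h2, Nat.card_Ico, fpt]
  have : (z.symm i : ℕ) < n := (z.symm i).isLt
  rw [show n + 1 - ((z.symm i : ℕ) + 1) = n - (z.symm i : ℕ) by omega, Nat.cast_sub this.le]

theorem exists_height {u v : Equiv.Perm (Fin n)} (h : TabLE u v) :
    ∃ f : Equiv.Perm (Fin n) → ℝ, (∀ z, 0 ≤ f z) ∧ (∀ z, f z = 0 ↔ TabLE u z ∧ TabLE z v) ∧
      ∀ y : Fin n → ℝ, ∃ a b, ∀ z, (∀ z', f z - ∑ i, y i * fpt z i ≤ f z' - ∑ i, y i * fpt z' i) ↔
        TabLE a z ∧ TabLE z b := by
  obtain ⟨G, hG, hsupp⟩ := exists_tnn h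
  obtain ⟨A, w, Q, hA, hQ, hw⟩ := exists_asym hG
  refine ⟨fun z => ∑ k ∈ range (n + 1), (w (pre z k) : ℝ), fun z => ?_, fun z => ?_, fun y => ?_⟩
  · exact Finset.sum_nonneg fun k _ => Nat.cast_nonneg _
  · rw [← hsupp, Finset.sum_eq_zero_iff_of_nonneg (fun k _ => Nat.cast_nonneg _)]
    constructor
    · intro h1 k hk
      rw [← hw]
      exact_mod_cast h1 k (by simp; omega)
    · intro h1 k hk
      have := (hw _).mpr (h1 k (by simpa [Nat.lt_succ_iff] using hk))
      rw [this]; simp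
  · obtain ⟨Gy, hGy, hmin⟩ := exists_limit hA hQ y
    obtain ⟨a, b, hab⟩ := supp_interval hGy
    refine ⟨a, b, fun z => ?_⟩
    rw [← hab]
    set φ : Finset (Fin n) → ℝ := fun J => (w J : ℝ) - ∑ i ∈ J, y i with hφ
    have hval : ∀ z : Equiv.Perm (Fin n), ∑ k ∈ range (n + 1), (w (pre z k) : ℝ) -
        ∑ i, y i * fpt z i = ∑ k ∈ range (n + 1), φ (pre z k) := by
      intro z
      rw [← sum_fpt, ← Finset.sum_sub_distrib]
    have hle : ∀ z0 ∈ Supp Gy, ∀ z : Equiv.Perm (Fin n), ∀ k ∈ range (n + 1),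
        φ (pre z0 k) ≤ φ (pre z k) := by
      intro z0 hz0 z k hk
      have hkn : k ≤ n := by simpa [Nat.lt_succ_iff] using hk
      exact (hmin (pre z0 k)).mp (hz0 k hkn) (pre z k) (by rw [card_pre z hkn, card_pre z0 hkn])
    constructor
    · intro h1
      obtain ⟨z0, hz0⟩ := supp_nonempty hGy
      have h2 := h1 z0
      rw [hval, hval] at h2
      have h3 : ∀ k ∈ range (n + 1), φ (pre z0 k) = φ (pre z k) := by
        rw [← Finset.sum_eq_sum_iff_of_le (hle z0 hz0 z)]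
        exact le_antisymm (Finset.sum_le_sum (hle z0 hz0 z)) h2
      intro k hk
      rw [hmin]
      intro J' hJ'
      have h4 := h3 k (by simp; omega)
      have h5 := (hmin (pre z0 k)).mp (hz0 k hk) J' (by
        rw [hJ', card_pre z hk, card_pre z0 hk])
      calc φ (pre z k) = φ (pre z0 k) := h4.symm
        _ ≤ φ J' := h5
    · intro h1 z'
      show ∑ k ∈ range (n + 1), (w (pre z k) : ℝ) - ∑ i, y i * fpt z i ≤
        ∑ k ∈ range (n + 1), (w (pre z' k) : ℝ) - ∑ i, y i * fpt z' i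
      rw [hval, hval]
      exact Finset.sum_le_sum (hle z h1 z')

/-- the flag of a permutation -/
def flg (w : Equiv.Perm (Fin n)) : Equiv.Perm (Fin n) := (rw0 w)⁻¹

/-- the permutation of a flag -/
def unf (z : Equiv.Perm (Fin n)) : Equiv.Perm (Fin n) := rw0 z⁻¹

theorem unf_flg (w : Equiv.Perm (Fin n)) : unf (flg w) = w := by
  unfold unf flg
  rw [inv_inv, rw0_rw0]

theorem flg_unf (z : Equiv.Perm (Fin n)) : flg (unf z) = z := by
  unfold unf flg
  rw [rw0_rw0, inv_inv]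

theorem fpt_flg (w : Equiv.Perm (Fin n)) : fpt (flg w) = pt w := by
  funext i
  unfold fpt pt
  have h : (flg w).symm i = Fin.rev (w i) := by
    unfold flg
    show ((rw0 w)⁻¹)⁻¹ i = _
    rw [inv_inv]; rfl
  rw [h, Fin.val_rev]
  have : (w i : ℕ) < n := (w i).isLt
  rw [Nat.cast_sub (by omega)]
  push_cast; ring

theorem inv_step {u w : Equiv.Perm (Fin n)} (h : BruhatStep u w) : BruhatStep u⁻¹ w⁻¹ := by
  obtain ⟨a, b, hab, hu, rfl⟩ := h
  refine ⟨u a, u b, hu, by simpa using hab, ?_⟩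
  rw [mul_inv_rev, Equiv.swap_inv, Equiv.swap_mul_eq_mul_swap, inv_inv]

theorem inv_tabLE {u w : Equiv.Perm (Fin n)} (h : TabLE u w) : TabLE u⁻¹ w⁻¹ := by
  rw [tabLE_iff] at h
  induction h with
  | refl => exact TabLE.refl _
  | tail _ h2 ih => exact ih.trans (step_tabLE (inv_step h2))

theorem flg_tabLE {u w : Equiv.Perm (Fin n)} (h : TabLE u w) : TabLE (flg w) (flg u) :=
  inv_tabLE (rev_tabLE h)

theorem unf_tabLE {u w : Equiv.Perm (Fin n)} (h : TabLE u w) : TabLE (unf w) (unf u) :=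
  rev_tabLE (inv_tabLE h)

theorem flg_tabLE_iff {u w : Equiv.Perm (Fin n)} : TabLE (flg w) (flg u) ↔ TabLE u w := by
  constructor
  · intro h
    have := unf_tabLE h
    rwa [unf_flg, unf_flg] at this
  · exact flg_tabLE

theorem exists_height_pt {u v : Equiv.Perm (Fin n)} (h : TabLE u v) :
    ∃ f : Equiv.Perm (Fin n) → ℝ, (∀ w, 0 ≤ f w) ∧ (∀ w, f w = 0 ↔ TabLE u w ∧ TabLE w v) ∧
      ∀ y : Fin n → ℝ, ∃ a b, ∀ w, (∀ w', f w - ∑ i, y i * pt w i ≤ f w' - ∑ i, y i * pt w' i) ↔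
        TabLE a w ∧ TabLE w b := by
  obtain ⟨f, hf1, hf2, hf3⟩ := exists_height (flg_tabLE h)
  refine ⟨fun w => f (flg w), fun w => hf1 _, fun w => ?_, fun y => ?_⟩
  · rw [hf2, flg_tabLE_iff, flg_tabLE_iff, and_comm]
  · obtain ⟨a, b, hab⟩ := hf3 y
    refine ⟨unf b, unf a, fun w => ?_⟩
    have h1 := hab (flg w)
    rw [fpt_flg] at h1
    rw [← flg_tabLE_iff (u := unf b), ← flg_tabLE_iff (w := unf a), flg_unf, flg_unf, and_comm,
      ← h1]
    constructor
    · intro h2 z'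
      have := h2 (unf z')
      beta_reduce at this
      rwa [flg_unf, ← fpt_flg (unf z'), flg_unf] at this
    · intro h2 w'
      have := h2 (flg w')
      rwa [fpt_flg] at this

end Pool.Agent.H55.Cell
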