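import Mathlib

/-!
# Regular subdivisions of a finite point configuration
-/

namespace Pool.Agent.H55.Cell

open Finset Filter Topology

variable {n : ℕ} {ι : Type*}

/-- the linear functional `p ↦ ∑ i, y i * p i` -/
noncomputable def dl (y : Fin n → ℝ) : (Fin n → ℝ) →L[ℝ] ℝ :=
  ∑ i, y i • ContinuousLinearMap.proj i

theorem dl_apply (y p : Fin n → ℝ) : dl y p = ∑ i, y i * p i := by
  unfold dl
  rw [ContinuousLinearMap.sum_apply]
  rfl

theorem dl_add (y y' p : Fin n → ℝ) : dl (y + y') p = dl y p + dl y' p := by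
  rw [dl_apply, dl_apply, dl_apply, ← Finset.sum_add_distrib]
  exact Finset.sum_congr rfl fun i _ => by rw [Pi.add_apply, add_mul]

theorem dl_smul (c : ℝ) (y p : Fin n → ℝ) : dl (c • y) p = c * dl y p := by
  rw [dl_apply, dl_apply, Finset.mul_sum]
  exact Finset.sum_congr rfl fun i _ => by rw [Pi.smul_apply, smul_eq_mul, mul_assoc]

theorem dl_sub (y y' p : Fin n → ℝ) : dl (y - y') p = dl y p - dl y' p := by
  rw [dl_apply, dl_apply, dl_apply, ← Finset.sum_sub_distrib]
  exact Finset.sum_congr rfl fun i _ => by rw [Pi.sub_apply, sub_mul]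

theorem dl_zero (p : Fin n → ℝ) : dl 0 p = 0 := by rw [dl_apply]; simp

theorem exists_dl (l : (Fin n → ℝ) →ₗ[ℝ] ℝ) : ∃ y, ∀ p, dl y p = l p := by
  refine ⟨fun i => l (fun j => if i = j then 1 else 0), fun p => ?_⟩
  rw [dl_apply, LinearMap.pi_apply_eq_sum_univ l p]
  exact Finset.sum_congr rfl fun i _ => by rw [smul_eq_mul, mul_comm]

/-- the points of minimal tilted height -/
def act (f : ι → ℝ) (x : ι → Fin n → ℝ) (y : Fin n → ℝ) : Set ι :=
  {z | ∀ z', f z - dl y (x z) ≤ f z' - dl y (x z')}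

/-- the cell of a tilt -/
def cell (f : ι → ℝ) (x : ι → Fin n → ℝ) (y : Fin n → ℝ) : Set (Fin n → ℝ) :=
  convexHull ℝ (x '' act f x y)

/-- a face of a finite convex hull -/
theorem face_hull {T : Set (Fin n → ℝ)} (hT : T.Finite) {l : (Fin n → ℝ) →L[ℝ] ℝ} {c : ℝ}
    (hle : ∀ q ∈ T, l q ≤ c) {p : Fin n → ℝ} (hp : p ∈ convexHull ℝ T) (hpc : l p = c) :
    p ∈ convexHull ℝ {q ∈ T | l q = c} := by
  classical
  obtain ⟨T', rfl⟩ := hT.exists_finset_coe
  rw [Finset.mem_convexHull'] at hp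
  obtain ⟨w, hw0, hw1, hwp⟩ := hp
  have hsum : ∑ q ∈ T', w q * (c - l q) = 0 := by
    have h1 : l p = ∑ q ∈ T', w q * l q := by
      rw [← hwp, map_sum]
      exact Finset.sum_congr rfl fun q _ => by rw [map_smul, smul_eq_mul]
    have h2 : ∑ q ∈ T', w q * (c - l q) = (∑ q ∈ T', w q) * c - ∑ q ∈ T', w q * l q := by
      rw [Finset.sum_mul, ← Finset.sum_sub_distrib]
      exact Finset.sum_congr rfl fun q _ => by ring
    rw [h2, hw1, one_mul, ← h1, hpc, sub_self]
  have hz : ∀ q ∈ T', w q * (c - l q) = 0 := by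
    rw [← Finset.sum_eq_zero_iff_of_nonneg]
    · exact hsum
    · intro q hq
      exact mul_nonneg (hw0 q hq) (sub_nonneg.mpr (hle q (by simpa using hq)))
  have h0 : ∀ q ∈ T', ¬ l q = c → w q = 0 := by
    intro q hq hne
    have h1 := hz q hq
    rcases mul_eq_zero.mp h1 with h2 | h2
    · exact h2
    · exact absurd (by linarith) hne
  have hset : ({q ∈ (T' : Set (Fin n → ℝ)) | l q = c} : Set (Fin n → ℝ)) =
      ((T'.filter fun q => l q = c : Finset (Fin n → ℝ)) : Set (Fin n → ℝ)) := by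
    ext q; simp
  rw [hset, Finset.mem_convexHull']
  refine ⟨w, fun q hq => hw0 q (Finset.mem_of_mem_filter q hq), ?_, ?_⟩
  · rw [← hw1, Finset.sum_filter]
    refine Finset.sum_congr rfl fun q hq => ?_
    split_ifs with h
    · rfl
    · rw [h0 q hq h]
  · rw [← hwp, Finset.sum_filter]
    refine Finset.sum_congr rfl fun q hq => ?_
    split_ifs with h
    · rfl
    · rw [h0 q hq h, zero_smul]

theorem le_of_mem_hull {T : Set (Fin n → ℝ)} {l : (Fin n → ℝ) →L[ℝ] ℝ} {c : ℝ}
    (hle : ∀ q ∈ T, l q ≤ c) {p : Fin n → ℝ} (hp : p ∈ convexHull ℝ T) : l p ≤ c := by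
  have h := convexHull_min (t := {q | l q ≤ c}) hle (convex_halfSpace_le l.isLinear c)
  exact h hp

variable [Finite ι] [Nonempty ι]

theorem exists_mem_act (f : ι → ℝ) (x : ι → Fin n → ℝ) (y : Fin n → ℝ) : ∃ z, z ∈ act f x y := by
  obtain ⟨z, hz⟩ := Finite.exists_min (fun z => f z - dl y (x z))
  exact ⟨z, hz⟩

theorem cell_face_aux (f : ι → ℝ) (x : ι → Fin n → ℝ) (y y' : Fin n → ℝ) :
    ∃ c : ℝ, (∀ p ∈ cell f x y, dl (y' - y) p ≤ c) ∧ (∀ p ∈ cell f x y', c ≤ dl (y' - y) p) ∧
      (∀ p ∈ cell f x y, dl (y' - y) p = c → p ∈ cell f x y') := by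
  obtain ⟨z0, hz0⟩ := exists_mem_act f x y
  obtain ⟨z1, hz1⟩ := exists_mem_act f x y'
  have e0 : ∀ z, f z0 - dl y (x z0) ≤ f z - dl y (x z) := hz0
  have e1 : ∀ z, f z1 - dl y' (x z1) ≤ f z - dl y' (x z) := hz1
  set c := (f z0 - dl y (x z0)) - (f z1 - dl y' (x z1)) with hc
  have a0 : ∀ z ∈ act f x y, f z - dl y (x z) = f z0 - dl y (x z0) :=
    fun z hz => le_antisymm (hz z0) (e0 z)
  have a1 : ∀ z ∈ act f x y', f z - dl y' (x z) = f z1 - dl y' (x z1) :=
    fun z hz => le_antisymm (hz z1) (e1 z)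
  have hle : ∀ q ∈ x '' act f x y, dl (y' - y) q ≤ c := by
    rintro _ ⟨z, hz, rfl⟩
    rw [dl_sub]
    have := a0 z hz
    have := e1 z
    linarith
  refine ⟨c, fun p hp => le_of_mem_hull hle hp, fun p hp => ?_, fun p hp hpc => ?_⟩
  · have h1 : ∀ q ∈ x '' act f x y', (-dl (y' - y)) q ≤ -c := by
      rintro _ ⟨z, hz, rfl⟩
      rw [ContinuousLinearMap.neg_apply, dl_sub]
      have := a1 z hz
      have := e0 z
      linarith
    have h2 := le_of_mem_hull h1 hp
    rw [ContinuousLinearMap.neg_apply] at h2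
    linarith
  · have h1 := face_hull ((Set.toFinite _).image x) hle hp hpc
    refine convexHull_mono ?_ h1
    rintro q ⟨⟨z, hz, rfl⟩, hq⟩
    refine ⟨z, ?_, rfl⟩
    intro z'
    rw [dl_sub] at hq
    have := a0 z hz
    have := e1 z'
    linarith

/-- two cells meet in a common face -/
theorem cell_inter_exposed (f : ι → ℝ) (x : ι → Fin n → ℝ) (y y' : Fin n → ℝ) :
    IsExposed ℝ (cell f x y) (cell f x y ∩ cell f x y') := by
  obtain ⟨c, h1, h2, h3⟩ := cell_face_aux f x y y'
  rintro ⟨p0, hp0, hp0'⟩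
  refine ⟨dl (y' - y), ?_⟩
  have e0 : dl (y' - y) p0 = c := le_antisymm (h1 p0 hp0) (h2 p0 hp0')
  ext p
  constructor
  · rintro ⟨hp, hp'⟩
    refine ⟨hp, fun q hq => ?_⟩
    exact (h1 q hq).trans (h2 p hp')
  · rintro ⟨hp, hmax⟩
    refine ⟨hp, h3 p hp ?_⟩
    have := hmax p0 hp0
    exact le_antisymm (h1 p hp) (by linarith)

/-- `S` affinely spans the configuration -/
def Full (x : ι → Fin n → ℝ) (S : Set ι) : Prop :=
  ∀ (c : ℝ) (η : Fin n → ℝ), (∀ z ∈ S, dl η (x z) = c) → ∀ z, dl η (x z) = c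

/-- affine minorants of the heights -/
def Feas (f : ι → ℝ) (x : ι → Fin n → ℝ) (μ : ℝ) (η : Fin n → ℝ) : Prop :=
  ∀ z, μ + dl η (x z) ≤ f z

/-- contact set -/
def tgt (f : ι → ℝ) (x : ι → Fin n → ℝ) (μ : ℝ) (η : Fin n → ℝ) : Set ι :=
  {z | μ + dl η (x z) = f z}

theorem improve (f : ι → ℝ) (x : ι → Fin n → ℝ) {p : Fin n → ℝ}
    (hp : p ∈ convexHull ℝ (Set.range x)) (N : ℕ) : ∀ (μ : ℝ) (η : Fin n → ℝ), Feas f x μ η →
    Nat.card ι - (tgt f x μ η).ncard = N →
    ∃ μ' η', Feas f x μ' η' ∧ Full x (tgt f x μ' η') ∧ μ + dl η p ≤ μ' + dl η' p := by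
  induction N using Nat.strong_induction_on with
  | _ N ih =>
    intro μ η hF hN
    by_cases hfull : Full x (tgt f x μ η)
    · exact ⟨μ, η, hF, hfull, le_rfl⟩
    -- a direction
    obtain ⟨c, ν, hν, hpν, zz, hzz⟩ : ∃ (c : ℝ) (ν : Fin n → ℝ),
        (∀ z ∈ tgt f x μ η, dl ν (x z) = c) ∧ c ≤ dl ν p ∧ ∃ z, c < dl ν (x z) := by
      unfold Full at hfull
      push Not at hfull
      obtain ⟨c, ν, h1, z', h2⟩ := hfull
      have hneg : ∀ q, dl (-ν) q = - dl ν q := by
        intro q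
        have := dl_smul (-1) ν q
        rw [neg_one_smul, neg_one_mul] at this
        exact this
      have key : ∀ (c : ℝ) (ν : Fin n → ℝ), c < dl ν p → ∃ z, c < dl ν (x z) := by
        intro c ν h
        by_contra hcon
        push Not at hcon
        have h3 := le_of_mem_hull (l := dl ν) (c := c) (T := Set.range x)
          (by rintro _ ⟨z, rfl⟩; exact hcon z) hp
        exact absurd h (not_lt.mpr h3)
      rcases lt_trichotomy c (dl ν p) with h | h | h
      · exact ⟨c, ν, h1, h.le, key c ν h⟩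
      · rcases lt_or_gt_of_ne h2 with h4 | h4
        · refine ⟨-c, -ν, fun z hz => by rw [hneg, h1 z hz], by rw [hneg, h], z', ?_⟩
          rw [hneg]; linarith
        · exact ⟨c, ν, h1, h.le, z', h4⟩
      · refine ⟨-c, -ν, fun z hz => by rw [hneg, h1 z hz], by rw [hneg]; linarith, key _ _ ?_⟩
        rw [hneg]; linarith
    -- the step length
    have : Nonempty {z : ι // c < dl ν (x z)} := ⟨⟨zz, hzz⟩⟩
    obtain ⟨⟨z1, hz1⟩, hmin⟩ := Finite.exists_min
      (fun z : {z : ι // c < dl ν (x z)} => (f z - μ - dl η (x z)) / (dl ν (x z) - c))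
    set τ := (f z1 - μ - dl η (x z1)) / (dl ν (x z1) - c) with hτ
    have hτ0 : 0 ≤ τ := by
      apply div_nonneg
      · have := hF z1; linarith
      · linarith
    have hz1' : z1 ∉ tgt f x μ η := by
      intro h
      rw [hν z1 h] at hz1
      exact lt_irrefl _ hz1
    have hval : ∀ q, (μ - τ * c) + dl (η + τ • ν) q = μ + dl η q + τ * (dl ν q - c) := by
      intro q
      rw [dl_add, dl_smul]; ring
    have hF' : Feas f x (μ - τ * c) (η + τ • ν) := by
      intro z
      rw [hval]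
      rcases le_or_gt (dl ν (x z)) c with h | h
      · have h1 := hF z
        have h2 : τ * (dl ν (x z) - c) ≤ 0 :=
          mul_nonpos_of_nonneg_of_nonpos hτ0 (by linarith)
        linarith
      · have h1 : τ ≤ (f z - μ - dl η (x z)) / (dl ν (x z) - c) := hmin ⟨z, h⟩
        rw [le_div_iff₀ (by linarith)] at h1
        linarith
    have hsub : tgt f x μ η ⊂ tgt f x (μ - τ * c) (η + τ • ν) := by
      rw [Set.ssubset_iff_of_subset]
      · refine ⟨z1, ?_, hz1'⟩
        show (μ - τ * c) + dl (η + τ • ν) (x z1) = f z1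
        have hne0 : dl ν (x z1) - c ≠ 0 := by intro h0; linarith
        rw [hval, hτ, div_mul_cancel₀ _ hne0]
        ring
      · intro z hz
        show (μ - τ * c) + dl (η + τ • ν) (x z) = f z
        rw [hval, hν z hz, sub_self, mul_zero, add_zero]
        exact hz
    have hcard := Set.ncard_lt_ncard hsub (Set.toFinite _)
    have hcard2 : (tgt f x (μ - τ * c) (η + τ • ν)).ncard ≤ Nat.card ι := by
      rw [← Set.ncard_univ]
      exact Set.ncard_le_ncard (Set.subset_univ _) (Set.toFinite _)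
    obtain ⟨μ', η', h1, h2, h3⟩ := ih _ (by rw [← hN]; omega) (μ - τ * c) (η + τ • ν) hF' rfl
    refine ⟨μ', η', h1, h2, le_trans ?_ h3⟩
    rw [hval]
    have : 0 ≤ τ * (dl ν p - c) := mul_nonneg hτ0 (by linarith)
    linarith

theorem cover (f : ι → ℝ) (x : ι → Fin n → ℝ) {p : Fin n → ℝ}
    (hp : p ∈ convexHull ℝ (Set.range x)) : ∃ y, Full x (act f x y) ∧ p ∈ cell f x y := by
  classical
  -- representatives of the full contact sets
  obtain ⟨zm, hzm⟩ := Finite.exists_min f
  have hF0 : Feas f x (f zm) 0 := by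
    intro z; rw [dl_zero, add_zero]; exact hzm z
  set 𝒯 := {S : Set ι // ∃ μ η, Feas f x μ η ∧ tgt f x μ η = S ∧ Full x S} with h𝒯
  choose μr ηr h1 h2 h3 using fun S : 𝒯 => S.2
  obtain ⟨μ0, η0, hf0, hfull0, -⟩ := improve f x hp _ (f zm) 0 hF0 rfl
  have : Nonempty 𝒯 := ⟨⟨_, μ0, η0, hf0, rfl, hfull0⟩⟩
  obtain ⟨S, hS⟩ := Finite.exists_max (fun S : 𝒯 => μr S + dl (ηr S) p)
  have hopt : ∀ μ η, Feas f x μ η → μ + dl η p ≤ μr S + dl (ηr S) p := by
    intro μ η hF
    obtain ⟨μ1, η1, hf1, hfull1, hle⟩ := improve f x hp _ μ η hF rfl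
    refine hle.trans ?_
    set S1 : 𝒯 := ⟨_, μ1, η1, hf1, rfl, hfull1⟩ with hS1
    refine le_trans (le_of_eq ?_) (hS S1)
    have e1 : tgt f x (μr S1) (ηr S1) = tgt f x μ1 η1 := h2 S1
    have e2 : ∀ z, dl (η1 - ηr S1) (x z) = μr S1 - μ1 := by
      apply hfull1
      intro z hz
      have a1 : μ1 + dl η1 (x z) = f z := hz
      rw [← e1] at hz
      have a2 : μr S1 + dl (ηr S1) (x z) = f z := hz
      rw [dl_sub]; linarith
    have e3 : dl (η1 - ηr S1) p = μr S1 - μ1 := by
      apply le_antisymm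
      · exact le_of_mem_hull (by rintro _ ⟨z, rfl⟩; exact (e2 z).le) hp
      · have e4 := le_of_mem_hull (l := -dl (η1 - ηr S1)) (c := -(μr S1 - μ1))
          (T := Set.range x) (by
            rintro _ ⟨z, rfl⟩
            rw [ContinuousLinearMap.neg_apply, e2 z]) hp
        rw [ContinuousLinearMap.neg_apply] at e4
        linarith
    rw [dl_sub] at e3
    linarith
  set μ := μr S with hμ
  set η := ηr S with hη
  have hF : Feas f x μ η := h1 S
  have hfull : Full x (tgt f x μ η) := by rw [h2 S]; exact h3 S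
  -- `p` is in the hull of the contact set
  have hmem : p ∈ convexHull ℝ (x '' tgt f x μ η) := by
    by_contra hcon
    have hclosed : IsClosed (convexHull ℝ (x '' tgt f x μ η)) :=
      ((Set.toFinite (tgt f x μ η)).image x).isClosed_convexHull ℝ
    obtain ⟨l, u, hl1, hl2⟩ := geometric_hahn_banach_closed_point (convex_convexHull ℝ _)
      hclosed hcon
    obtain ⟨ν, hν⟩ := exists_dl (l : (Fin n → ℝ) →ₗ[ℝ] ℝ)
    have hν' : ∀ q, dl ν q = l q := hν
    have hev : ∀ᶠ τ : ℝ in 𝓝[>] 0, ∀ z, μ + dl η (x z) + τ * (dl ν (x z) - u) ≤ f z := by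
      rw [eventually_all]
      intro z
      by_cases hz : z ∈ tgt f x μ η
      · filter_upwards [self_mem_nhdsWithin] with τ hτ
        have a1 : μ + dl η (x z) = f z := hz
        have a2 : l (x z) < u := hl1 _ (subset_convexHull ℝ _ ⟨z, hz, rfl⟩)
        rw [a1, hν']
        have hτ' : (0 : ℝ) < τ := hτ
        have := mul_pos hτ' (sub_pos.mpr a2)
        have e : τ * (l (x z) - u) = -(τ * (u - l (x z))) := by ring
        rw [e]; linarith
      · have hlt : μ + dl η (x z) < f z := lt_of_le_of_ne (hF z) hz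
        have hc : Continuous fun τ : ℝ => μ + dl η (x z) + τ * (dl ν (x z) - u) := by fun_prop
        have h4 := hc.tendsto 0
        simp only [zero_mul, add_zero] at h4
        have h5 := h4.eventually (gt_mem_nhds hlt)
        filter_upwards [nhdsWithin_le_nhds h5] with τ hτ
        exact le_of_lt hτ
    obtain ⟨τ, hτ1, hτ2⟩ := (hev.and self_mem_nhdsWithin).exists
    have hτ0 : (0 : ℝ) < τ := hτ2
    have h6 := hopt (μ - τ * u) (η + τ • ν) (by
      intro z
      rw [dl_add, dl_smul]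
      have := hτ1 z
      linarith)
    rw [dl_add, dl_smul, hν'] at h6
    have h7 := mul_pos hτ0 (sub_pos.mpr hl2)
    have e : τ * (l p - u) = τ * l p - τ * u := by ring
    rw [e] at h7
    linarith
  -- the contact set is the active set
  have hne : (tgt f x μ η).Nonempty := by
    rw [Set.nonempty_iff_ne_empty]
    intro h0
    rw [h0] at hmem
    simp at hmem
  obtain ⟨zt, hzt⟩ := hne
  have hact : act f x η = tgt f x μ η := by
    ext z
    have hzt' : μ + dl η (x zt) = f zt := hzt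
    constructor
    · intro hz
      have a1 := hz zt
      have a2 := hF z
      show μ + dl η (x z) = f z
      linarith
    · intro hz z'
      have a1 : μ + dl η (x z) = f z := hz
      have a2 := hF z'
      linarith
  exact ⟨η, by rw [hact]; exact hfull, by unfold cell; rw [hact]; exact hmem⟩

theorem vectorSpan_hull (T : Set (Fin n → ℝ)) :
    vectorSpan ℝ (convexHull ℝ T) = vectorSpan ℝ T := by
  rw [← direction_affineSpan, affineSpan_convexHull, direction_affineSpan]

theorem Full.vectorSpan_eq {x : ι → Fin n → ℝ} {S : Set ι} (h : Full x S) :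
    vectorSpan ℝ (convexHull ℝ (x '' S)) = vectorSpan ℝ (convexHull ℝ (Set.range x)) := by
  rw [vectorSpan_hull, vectorSpan_hull]
  have hne : S.Nonempty := by
    rw [Set.nonempty_iff_ne_empty]
    rintro rfl
    obtain ⟨z⟩ := ‹Nonempty ι›
    have := h 1 0 (by simp) z
    rw [dl_zero] at this
    exact zero_ne_one this
  obtain ⟨z0, hz0⟩ := hne
  apply le_antisymm
  · exact vectorSpan_mono ℝ (Set.image_subset_range x S)
  · rw [vectorSpan_eq_span_vsub_set_right ℝ (Set.mem_range_self z0), Submodule.span_le]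
    rintro _ ⟨_, ⟨z, rfl⟩, rfl⟩
    by_contra hcon
    obtain ⟨g, hg1, hg2⟩ := Submodule.exists_le_ker_of_notMem hcon
    obtain ⟨η, hη⟩ := exists_dl g
    have h1 := h (g (x z0)) η (fun z' hz' => by
      rw [hη]
      have h2 : x z' -ᵥ x z0 ∈ vectorSpan ℝ (x '' S) :=
        vsub_mem_vectorSpan ℝ ⟨z', hz', rfl⟩ ⟨z0, hz0, rfl⟩
      have h3 := hg2 h2
      rw [LinearMap.mem_ker, vsub_eq_sub, map_sub] at h3
      linarith) z
    apply hg1
    rw [hη] at h1
    show g (x z -ᵥ x z0) = 0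
    rw [vsub_eq_sub, map_sub, h1, sub_self]

end Pool.Agent.H55.Cell
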