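import Pool.Agent.H55.Cell.Greedy
import Pool.Agent.H55.Cell.Height
import Pool.Agent.H55.Cell.Reg

/-!
# The polytope of a lattice path flag matroid is a Bruhat interval polytope
-/

namespace Pool.Agent.H55.Cell

open Finset

variable {n : ℕ}

theorem hi_add_pathHeight (J : Finset (Fin n)) (m : ℕ) : hi J m + pathHeight J m = J.card := by
  unfold hi pathHeight
  have h := Finset.card_filter_add_card_filter_not (s := J) (fun i : Fin n => m ≤ (i : ℕ))
  rw [← h]
  congr 2
  ext i
  simp

theorem card_inter_one (J : Finset (Fin n)) (j : ℕ) : (J ∩ pre 1 j).card = pathHeight J j := by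
  unfold pathHeight
  congr 1
  ext i
  rw [mem_inter, mem_filter, mem_pre]
  rfl

theorem card_inter_rev (J : Finset (Fin n)) {j : ℕ} (hj : j ≤ n) :
    (J ∩ pre Fin.revPerm (n - j)).card = hi J j := by
  unfold hi
  congr 1
  ext i
  rw [mem_inter, mem_filter, mem_pre]
  have h1 : (Fin.revPerm.symm i : Fin n) = Fin.rev i := rfl
  rw [h1, Fin.val_rev]
  have : (i : ℕ) < n := i.isLt
  constructor
  · rintro ⟨h2, h3⟩; exact ⟨h2, by omega⟩
  · rintro ⟨h2, h3⟩; exact ⟨h2, by omega⟩

theorem pathHeight_ge (J : Finset (Fin n)) {j : ℕ} (hj : n ≤ j) : pathHeight J j = J.card := by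
  unfold pathHeight
  congr 1
  apply Finset.filter_true_of_mem
  intro i _
  omega

/-- the flag of greedy bases -/
theorem exists_greedy_flag {M : Fin n → Matroid (Fin n)} (hM : IsLPFM M)
    (π : Equiv.Perm (Fin n)) :
    ∃ z : Equiv.Perm (Fin n), ∀ i : Fin n, pre z ((i : ℕ) + 1) = grd (M i) π := by
  have hE : ∀ i, (M i).E = Set.univ := fun i => by
    obtain ⟨U, L, -, -, -, h, -⟩ := hM.1 i
    exact h
  set B : ℕ → Finset (Fin n) := fun k => if h : 0 < k ∧ k ≤ n then grd (M ⟨k - 1, by omega⟩) π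
    else ∅ with hB
  obtain ⟨z, hz⟩ := exists_perm_of_chain B (by
    intro k hk
    simp only [hB]
    by_cases h0 : 0 < k
    · rw [dif_pos ⟨h0, hk.le⟩, dif_pos ⟨by omega, by omega⟩]
      apply grd_mono (hE _)
      apply hM.2
      simp; omega
    · rw [dif_neg (fun h => h0 h.1)]
      exact Finset.empty_subset _) (by
    intro k hk
    simp only [hB]
    by_cases h0 : 0 < k
    · rw [dif_pos ⟨h0, hk⟩]
      obtain ⟨U, L, -, -, -, h, hb⟩ := hM.1 ⟨k - 1, by omega⟩
      have := ((hb _).mp (grd_isBase h π)).1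
      rw [this]; simp; omega
    · rw [dif_neg (fun h => h0 h.1)]
      simp; omega)
  refine ⟨z, fun i => ?_⟩
  rw [hz _ i.isLt]
  simp only [hB]
  rw [dif_pos ⟨by omega, i.isLt⟩]
  congr

/-- `z` is a flag of bases -/
def IsBaseFlag (M : Fin n → Matroid (Fin n)) (z : Equiv.Perm (Fin n)) : Prop :=
  ∀ i : Fin n, (M i).IsBase (pre z ((i : ℕ) + 1) : Set (Fin n))

theorem baseFlag_interval {M : Fin n → Matroid (Fin n)} (hM : IsLPFM M) :
    ∃ u v : Equiv.Perm (Fin n), TabLE u v ∧ ∀ z, IsBaseFlag M z ↔ TabLE u z ∧ TabLE z v := by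
  obtain ⟨u, hu⟩ := exists_greedy_flag hM 1
  obtain ⟨v, hv⟩ := exists_greedy_flag hM Fin.revPerm
  have hE : ∀ i, (M i).E = Set.univ := fun i => by
    obtain ⟨U, L, -, -, -, h, -⟩ := hM.1 i
    exact h
  have hcard : ∀ (z : Equiv.Perm (Fin n)) (i : Fin n), (pre z ((i : ℕ) + 1)).card = (i : ℕ) + 1 :=
    fun z i => card_pre z i.isLt
  -- bases are above `v` and below `u`
  have hbu : ∀ (i : Fin n) (B : Finset (Fin n)), (M i).IsBase (B : Set (Fin n)) → ∀ j,
      pathHeight B j ≤ pathHeight (pre u ((i : ℕ) + 1)) j := by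
    intro i B hB j
    rw [hu]
    rcases le_or_gt j n with hj | hj
    · rw [← card_inter_one, ← card_inter_one]
      exact card_inter_le (hE i) 1 hB hj
    · have h1 := card_inter_le (hE i) 1 hB le_rfl
      rw [pathHeight_ge _ hj.le, pathHeight_ge _ hj.le]
      rwa [pre_n, Finset.inter_univ, Finset.inter_univ] at h1
  have hcb : ∀ (i : Fin n) (B : Finset (Fin n)), (M i).IsBase (B : Set (Fin n)) →
      B.card = (i : ℕ) + 1 := by
    intro i B hB
    obtain ⟨U, L, -, -, -, -, hb⟩ := hM.1 i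
    exact ((hb B).mp hB).1
  have hbv : ∀ (i : Fin n) (B : Finset (Fin n)), (M i).IsBase (B : Set (Fin n)) → ∀ j,
      pathHeight (pre v ((i : ℕ) + 1)) j ≤ pathHeight B j := by
    intro i B hB j
    have hB1 := hcb i B hB
    have hB2 := hcb i _ (grd_isBase (hE i) Fin.revPerm)
    rw [hv]
    rcases le_or_gt j n with hj | hj
    · have h1 := card_inter_le (hE i) Fin.revPerm hB (show n - j ≤ n by omega)
      rw [card_inter_rev _ hj, card_inter_rev _ hj] at h1
      have h2 := hi_add_pathHeight B j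
      have h3 := hi_add_pathHeight (grd (M i) Fin.revPerm) j
      omega
    · rw [pathHeight_ge _ hj.le, pathHeight_ge _ hj.le, hB1, hB2]
  have hubase : ∀ i : Fin n, (M i).IsBase (pre u ((i : ℕ) + 1) : Set (Fin n)) := fun i => by
    rw [hu]; exact grd_isBase (hE i) 1
  have hvbase : ∀ i : Fin n, (M i).IsBase (pre v ((i : ℕ) + 1) : Set (Fin n)) := fun i => by
    rw [hv]; exact grd_isBase (hE i) Fin.revPerm
  have hflag : ∀ z, IsBaseFlag M z ↔ TabLE u z ∧ TabLE z v := by
    intro z
    constructor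
    · intro h
      constructor
      · apply tabLE_of
        intro k hk m
        rcases Nat.eq_zero_or_pos k with h0 | h0
        · subst h0; rw [cnt_zero, cnt_zero]
        · obtain ⟨i, rfl⟩ : ∃ i, k = i + 1 := ⟨k - 1, by omega⟩
          have h1 := hbu ⟨i, by omega⟩ _ (h ⟨i, by omega⟩) m
          have h2 := hi_add_pathHeight (pre z (i + 1)) m
          have h3 := hi_add_pathHeight (pre u (i + 1)) m
          rw [card_pre z hk.le] at h2
          rw [card_pre u hk.le] at h3
          rw [← hi_pre, ← hi_pre]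
          simp only at h1
          omega
      · apply tabLE_of
        intro k hk m
        rcases Nat.eq_zero_or_pos k with h0 | h0
        · subst h0; rw [cnt_zero, cnt_zero]
        · obtain ⟨i, rfl⟩ : ∃ i, k = i + 1 := ⟨k - 1, by omega⟩
          have h1 := hbv ⟨i, by omega⟩ _ (h ⟨i, by omega⟩) m
          have h2 := hi_add_pathHeight (pre z (i + 1)) m
          have h3 := hi_add_pathHeight (pre v (i + 1)) m
          rw [card_pre z hk.le] at h2
          rw [card_pre v hk.le] at h3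
          rw [← hi_pre, ← hi_pre]
          simp only at h1
          omega
    · rintro ⟨h1, h2⟩ i
      obtain ⟨U, L, hU, hL, hUL, -, hb⟩ := hM.1 i
      rw [hb]
      refine ⟨hcard z i, fun j => ?_⟩
      have a1 := h1 ((i : ℕ) + 1) j
      have a2 := h2 ((i : ℕ) + 1) j
      rw [← hi_pre, ← hi_pre] at a1 a2
      have b1 := hi_add_pathHeight (pre u ((i : ℕ) + 1)) j
      have b2 := hi_add_pathHeight (pre v ((i : ℕ) + 1)) j
      have b3 := hi_add_pathHeight (pre z ((i : ℕ) + 1)) j
      rw [hcard] at b1 b2 b3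
      have c1 := (((hb _).mp (hubase i)).2 j).2
      have c2 := (((hb _).mp (hvbase i)).2 j).1
      omega
  refine ⟨u, v, ?_, hflag⟩
  exact ((hflag v).mp hvbase).1

/-- indicator vector -/
noncomputable def indv (B : Finset (Fin n)) : Fin n → ℝ := fun i => if i ∈ B then (1 : ℝ) else 0

theorem dl_indv (c : Fin n → ℝ) (B : Finset (Fin n)) : dl c (indv B) = ∑ e ∈ B, c e := by
  rw [dl_apply]
  unfold indv
  rw [← Finset.sum_filter_add_sum_filter_not univ (fun e => e ∈ B)]
  have h1 : ∑ x ∈ univ.filter (fun e => ¬ e ∈ B), c x * (if x ∈ B then (1 : ℝ) else 0) = 0 := by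
    apply Finset.sum_eq_zero
    intro x hx
    rw [if_neg (by simpa using hx), mul_zero]
  rw [h1, add_zero]
  have h2 : univ.filter (fun e => e ∈ B) = B := by ext e; simp
  rw [h2]
  exact Finset.sum_congr rfl fun e he => by rw [if_pos he, mul_one]

theorem fpt_eq_sum (z : Equiv.Perm (Fin n)) : fpt z = ∑ i : Fin n, indv (pre z ((i : ℕ) + 1)) := by
  funext e
  have h := sum_fpt z (fun i => if i = e then 1 else 0)
  have h1 : ∑ i, (if i = e then (1 : ℝ) else 0) * fpt z i = fpt z e := by simp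
  rw [h1, Finset.sum_range_succ', pre_zero, Finset.sum_empty, add_zero, Finset.sum_range] at h
  rw [← h, Finset.sum_apply]
  refine Finset.sum_congr rfl fun i _ => ?_
  rw [indv]
  simp

theorem flagPolytope_convex (M : Fin n → Matroid (Fin n)) : Convex ℝ (flagPolytope M) := by
  rintro _ ⟨q, hq, rfl⟩ _ ⟨q', hq', rfl⟩ a b ha hb hab
  refine ⟨fun i => a • q i + b • q' i, fun i => ?_, ?_⟩
  · exact (convex_convexHull ℝ _) (hq i) (hq' i) ha hb hab
  · rw [Finset.sum_add_distrib, Finset.smul_sum, Finset.smul_sum]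

theorem flagPolytope_eq {M : Fin n → Matroid (Fin n)} (hM : IsLPFM M) :
    flagPolytope M = convexHull ℝ (fpt '' {z | IsBaseFlag M z}) := by
  have hE : ∀ i, (M i).E = Set.univ := fun i => by
    obtain ⟨U, L, -, -, -, h, -⟩ := hM.1 i
    exact h
  apply Set.Subset.antisymm
  · rintro p ⟨q, hq, rfl⟩
    by_contra hcon
    have hclosed : IsClosed (convexHull ℝ (fpt '' {z | IsBaseFlag M z})) :=
      ((Set.toFinite _).image fpt).isClosed_convexHull ℝ
    obtain ⟨l, b, hl1, hl2⟩ := geometric_hahn_banach_closed_point (convex_convexHull ℝ _)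
      hclosed hcon
    obtain ⟨c, hc⟩ := exists_dl (l : (Fin n → ℝ) →ₗ[ℝ] ℝ)
    have hc' : ∀ q, dl c q = l q := hc
    set π : Equiv.Perm (Fin n) := Tuple.sort (fun i => - c i) with hπ
    have hmono : ∀ a b : Fin n, a ≤ b → c (π b) ≤ c (π a) := by
      intro a b hab
      have := Tuple.monotone_sort (fun i => - c i) hab
      simp only [Function.comp] at this
      rw [← hπ] at this
      linarith
    obtain ⟨z, hz⟩ := exists_greedy_flag hM π
    have hzb : IsBaseFlag M z := by
      intro i; rw [hz]; exact grd_isBase (hE i) π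
    have h1 := hl1 _ (subset_convexHull ℝ _ ⟨z, hzb, rfl⟩)
    have h2 : l (∑ i, q i) ≤ l (fpt z) := by
      rw [fpt_eq_sum, map_sum, map_sum]
      refine Finset.sum_le_sum fun i _ => ?_
      rw [← hc', ← hc', hz, dl_indv]
      refine le_of_mem_hull (l := dl c) ?_ (hq i)
      rintro _ ⟨B, hB, rfl⟩
      show dl c (indv B) ≤ _
      rw [dl_indv]
      exact grd_max (hE i) π hmono hB
    linarith
  · apply convexHull_min _ (flagPolytope_convex M)
    rintro _ ⟨z, hz, rfl⟩
    refine ⟨fun i => indv (pre z ((i : ℕ) + 1)), fun i => ?_, fpt_eq_sum z⟩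
    exact subset_convexHull ℝ _ ⟨_, hz i, rfl⟩

theorem image_interval (u v : Equiv.Perm (Fin n)) :
    fpt '' {z | TabLE u z ∧ TabLE z v} =
      pt '' {w | BruhatLE (unf v) w ∧ BruhatLE w (unf u)} := by
  ext p
  constructor
  · rintro ⟨z, ⟨h1, h2⟩, rfl⟩
    refine ⟨unf z, ⟨tabLE_iff.mp (unf_tabLE h2), tabLE_iff.mp (unf_tabLE h1)⟩, ?_⟩
    rw [← fpt_flg, flg_unf]
  · rintro ⟨w, ⟨h1, h2⟩, rfl⟩
    refine ⟨flg w, ⟨?_, ?_⟩, fpt_flg w⟩
    · have := flg_tabLE (tabLE_iff.mpr h2)
      rwa [flg_unf] at this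
    · have := flg_tabLE (tabLE_iff.mpr h1)
      rwa [flg_unf] at this

/-- the polytope of a lattice path flag matroid is a Bruhat interval polytope -/
theorem flagPolytope_bip {M : Fin n → Matroid (Fin n)} (hM : IsLPFM M) :
    ∃ u v : Equiv.Perm (Fin n), BruhatLE u v ∧ flagPolytope M = bip u v := by
  obtain ⟨u, v, huv, h⟩ := baseFlag_interval hM
  refine ⟨unf v, unf u, tabLE_iff.mp (unf_tabLE huv), ?_⟩
  rw [flagPolytope_eq hM]
  have : {z | IsBaseFlag M z} = {z | TabLE u z ∧ TabLE z v} := by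
    ext z; exact h z
  rw [this, image_interval]
  rfl

end Pool.Agent.H55.Cell
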