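import Pool.Agent.H55.Cell.Tab

/-!
# Greedy bases, flags
-/

namespace Pool.Agent.H55.Cell

open Finset

variable {n : ℕ}

open Classical in
/-- the greedy basis for the order `π 0, π 1, ...` -/
noncomputable def grd (M : Matroid (Fin n)) (π : Equiv.Perm (Fin n)) : Finset (Fin n) :=
  univ.filter fun e => e ∉ M.closure (pre π (π.symm e : ℕ) : Set (Fin n))

theorem mem_grd {M : Matroid (Fin n)} {π : Equiv.Perm (Fin n)} {e : Fin n} :
    e ∈ grd M π ↔ e ∉ M.closure (pre π (π.symm e : ℕ) : Set (Fin n)) := by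
  simp [grd]

theorem pre_zero (π : Equiv.Perm (Fin n)) : pre π 0 = ∅ := by
  ext i; simp [mem_pre]

theorem pre_n (π : Equiv.Perm (Fin n)) : pre π n = univ := by
  ext i; simp [mem_pre]

theorem grd_isBasis {M : Matroid (Fin n)} (hE : M.E = Set.univ) (π : Equiv.Perm (Fin n)) {j : ℕ}
    (hj : j ≤ n) :
    M.IsBasis ((grd M π ∩ pre π j : Finset (Fin n)) : Set (Fin n)) (pre π j : Set (Fin n)) := by
  classical
  induction j with
  | zero =>
    rw [pre_zero]
    simp
  | succ j ih =>
    have ih' := ih (by omega)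
    set a : Fin n := ⟨j, by omega⟩ with ha
    have h1 : pre π (j + 1) = insert (π a) (pre π j) := pre_succ π a
    have h2 : π.symm (π a) = a := by simp
    have h3 : π a ∉ pre π j := by rw [apply_mem_pre]; simp [ha]
    have h4 : π a ∈ grd M π ↔ π a ∉ M.closure (pre π j : Set (Fin n)) := by
      rw [mem_grd, h2]
    by_cases hc : π a ∈ M.closure (pre π j : Set (Fin n))
    · have h5 : grd M π ∩ pre π (j + 1) = grd M π ∩ pre π j := by
        rw [h1, Finset.inter_insert_of_notMem]
        rw [h4]; exact fun h => h hc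
      rw [h5, h1]
      apply ih'.isBasis_of_closure_eq_closure
      · intro x hx
        have hx' : x ∈ grd M π ∩ pre π j := by exact_mod_cast hx
        have : x ∈ insert (π a) (pre π j) := mem_insert_of_mem (mem_inter.mp hx').2
        exact_mod_cast this
      · rw [Finset.coe_insert]
        exact (Matroid.closure_insert_eq_of_mem_closure hc).symm
    · have h5 : grd M π ∩ pre π (j + 1) = insert (π a) (grd M π ∩ pre π j) := by
        rw [h1, Finset.inter_insert_of_mem]
        rw [h4]; exact hc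
      rw [h5, h1, Finset.coe_insert, Finset.coe_insert]
      apply ih'.insert_isBasis_insert
      rw [ih'.indep.insert_indep_iff_of_notMem]
      · refine ⟨by rw [hE]; trivial, ?_⟩
        rw [ih'.closure_eq_closure]; exact hc
      · intro h
        have : π a ∈ grd M π ∩ pre π j := by exact_mod_cast h
        exact h3 (mem_inter.mp this).2

theorem grd_isBase {M : Matroid (Fin n)} (hE : M.E = Set.univ) (π : Equiv.Perm (Fin n)) :
    M.IsBase (grd M π : Set (Fin n)) := by
  have h := grd_isBasis hE π (le_refl n)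
  rw [pre_n, Finset.inter_univ, Finset.coe_univ, ← hE, Matroid.isBasis_ground_iff] at h
  exact h

theorem card_inter_le {M : Matroid (Fin n)} (hE : M.E = Set.univ) (π : Equiv.Perm (Fin n))
    {B : Finset (Fin n)} (hB : M.IsBase (B : Set (Fin n))) {j : ℕ} (hj : j ≤ n) :
    (B ∩ pre π j).card ≤ (grd M π ∩ pre π j).card := by
  have h1 := grd_isBasis hE π hj
  have h2 : M.Indep ((B ∩ pre π j : Finset (Fin n)) : Set (Fin n)) := by
    apply hB.indep.subset
    rw [Finset.coe_inter]; exact Set.inter_subset_left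
  have h3 : ((B ∩ pre π j : Finset (Fin n)) : Set (Fin n)).encard ≤
      ((grd M π ∩ pre π j : Finset (Fin n)) : Set (Fin n)).encard := by
    rw [← h2.eRk_eq_encard, h1.encard_eq_eRk]
    apply M.eRk_mono
    rw [Finset.coe_inter]; exact Set.inter_subset_right
  rw [Set.encard_coe_eq_coe_finsetCard, Set.encard_coe_eq_coe_finsetCard] at h3
  exact_mod_cast h3

theorem closure_le_of_quotient {M N : Matroid (Fin n)} (hM : M.E = Set.univ)
    (h : IsQuotient M N) (X : Set (Fin n)) : N.closure X ⊆ M.closure X := by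
  intro e he
  by_cases heX : e ∈ X
  · exact M.mem_closure_of_mem heX (by rw [hM]; exact Set.subset_univ _)
  rw [Matroid.mem_closure_iff_exists_isCircuit heX] at he
  obtain ⟨C, hCX, hC, heC⟩ := he
  obtain ⟨𝒟, h𝒟, hU⟩ := h C hC
  rw [hU] at heC
  obtain ⟨D, hD, heD⟩ := heC
  rw [Matroid.mem_closure_iff_exists_isCircuit heX]
  refine ⟨D, ?_, h𝒟 D hD, heD⟩
  refine Set.Subset.trans ?_ hCX
  rw [hU]; exact Set.subset_sUnion_of_mem hD

theorem grd_mono {M N : Matroid (Fin n)} (hM : M.E = Set.univ) (h : IsQuotient M N)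
    (π : Equiv.Perm (Fin n)) : grd M π ⊆ grd N π := by
  intro e he
  rw [mem_grd] at he ⊢
  exact fun h' => he (closure_le_of_quotient hM h _ h')

/-- a complete chain of sets is the chain of prefixes of a permutation -/
theorem exists_perm_of_chain (B : ℕ → Finset (Fin n)) (hmono : ∀ k < n, B k ⊆ B (k + 1))
    (hcard : ∀ k ≤ n, (B k).card = k) : ∃ z : Equiv.Perm (Fin n), ∀ k ≤ n, pre z k = B k := by
  classical
  have hmono' : ∀ d k, k + d ≤ n → B k ⊆ B (k + d) := by
    intro d
    induction d with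
    | zero => intro k _; exact Finset.Subset.refl _
    | succ d ih => intro k hk; exact (ih k (by omega)).trans (hmono (k + d) (by omega))
  have hex : ∀ a : Fin n, ∃ x, x ∈ B ((a : ℕ) + 1) ∧ x ∉ B (a : ℕ) := by
    intro a
    by_contra hcon
    push Not at hcon
    have h1 := Finset.card_le_card (show B ((a : ℕ) + 1) ⊆ B a from hcon)
    rw [hcard _ a.isLt, hcard _ a.isLt.le] at h1
    omega
  choose z hz1 hz2 using hex
  have hinj : Function.Injective z := by
    have key : ∀ a b : Fin n, a < b → z a ≠ z b := by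
      intro a b hab h
      apply hz2 b
      rw [← h]
      have hab' : (a : ℕ) < b := hab
      have := hmono' ((b : ℕ) - (a + 1)) ((a : ℕ) + 1) (by omega) (hz1 a)
      rwa [show (a : ℕ) + 1 + ((b : ℕ) - (a + 1)) = b by omega] at this
    intro a b h
    rcases lt_trichotomy a b with h1 | h1 | h1
    · exact absurd h (key a b h1)
    · exact h1
    · exact absurd h.symm (key b a h1)
  set ζ : Equiv.Perm (Fin n) := Equiv.ofBijective z (Finite.injective_iff_bijective.mp hinj) with hζ
  refine ⟨ζ, fun k hk => ?_⟩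
  induction k with
  | zero =>
    rw [pre_zero]
    exact (Finset.card_eq_zero.mp (hcard 0 (by omega))).symm
  | succ k ih =>
    have h1 : pre ζ (k + 1) = insert (ζ ⟨k, by omega⟩) (pre ζ k) := pre_succ ζ ⟨k, by omega⟩
    rw [h1, ih (by omega)]
    apply Finset.eq_of_subset_of_card_le
    · rw [Finset.insert_subset_iff]
      exact ⟨hz1 ⟨k, by omega⟩, hmono k (by omega)⟩
    · have h2 : ζ ⟨k, by omega⟩ ∉ B k := hz2 ⟨k, by omega⟩
      rw [hcard (k + 1) hk, Finset.card_insert_of_notMem h2, hcard k (by omega)]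

/-- Abel summation -/
theorem abel_le {N : ℕ} {c a a' : ℕ → ℝ} (hc : ∀ j, j + 1 < N → c (j + 1) ≤ c j)
    (hA : ∀ j ≤ N, ∑ i ∈ range j, a' i ≤ ∑ i ∈ range j, a i)
    (htot : ∑ i ∈ range N, a' i = ∑ i ∈ range N, a i) :
    ∑ i ∈ range N, c i * a' i ≤ ∑ i ∈ range N, c i * a i := by
  have key : ∀ j, j + 1 ≤ N → c j * (∑ i ∈ range (j + 1), a i - ∑ i ∈ range (j + 1), a' i) ≤
      ∑ i ∈ range (j + 1), c i * a i - ∑ i ∈ range (j + 1), c i * a' i := by
    intro j
    induction j with
    | zero => intro _; simp; linarith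
    | succ j ih =>
      intro hj
      have h1 := ih (by omega)
      have h2 := hA (j + 1) (by omega)
      have h3 := hc j (by omega)
      have h4 : c (j + 1) * (∑ i ∈ range (j + 1), a i - ∑ i ∈ range (j + 1), a' i) ≤
          c j * (∑ i ∈ range (j + 1), a i - ∑ i ∈ range (j + 1), a' i) :=
        mul_le_mul_of_nonneg_right h3 (by linarith)
      rw [Finset.sum_range_succ _ (j + 1), Finset.sum_range_succ _ (j + 1),
        Finset.sum_range_succ _ (j + 1), Finset.sum_range_succ _ (j + 1)]
      nlinarith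
  rcases Nat.eq_zero_or_pos N with h0 | h0
  · subst h0; simp
  · have h1 := key (N - 1) (by omega)
    rw [show N - 1 + 1 = N by omega, htot, sub_self, mul_zero] at h1
    linarith

/-- the weight of a set, summed along an order -/
theorem sum_along (π : Equiv.Perm (Fin n)) (c : Fin n → ℝ) (B : Finset (Fin n)) {j : ℕ}
    (hj : j ≤ n) : ∑ e ∈ B ∩ pre π j, c e = ∑ i ∈ range j, (if h : i < n then c (π ⟨i, h⟩) *
      (if π ⟨i, h⟩ ∈ B then 1 else 0) else 0) := by
  classical
  induction j with
  | zero => rw [pre_zero]; simp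
  | succ j ih =>
    have hjn : j < n := by omega
    have h1 : pre π (j + 1) = insert (π ⟨j, hjn⟩) (pre π j) := pre_succ π ⟨j, hjn⟩
    have h3 : π ⟨j, hjn⟩ ∉ pre π j := by rw [apply_mem_pre]; simp
    rw [Finset.sum_range_succ, ← ih (by omega), dif_pos hjn, h1]
    by_cases h4 : π ⟨j, hjn⟩ ∈ B
    · rw [Finset.inter_insert_of_mem h4, Finset.sum_insert (fun h => h3 (mem_inter.mp h).2),
        if_pos h4]
      ring
    · rw [Finset.inter_insert_of_notMem h4, if_neg h4]
      ring

/-- the greedy basis has maximal weight -/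
theorem grd_max {M : Matroid (Fin n)} (hE : M.E = Set.univ) (π : Equiv.Perm (Fin n))
    {c : Fin n → ℝ} (hc : ∀ a b : Fin n, a ≤ b → c (π b) ≤ c (π a)) {B : Finset (Fin n)}
    (hB : M.IsBase (B : Set (Fin n))) : ∑ e ∈ B, c e ≤ ∑ e ∈ grd M π, c e := by
  have hall : ∀ (B : Finset (Fin n)) (c : Fin n → ℝ), ∑ e ∈ B, c e = ∑ i ∈ range n,
      (if h : i < n then c (π ⟨i, h⟩) else 0) * (if h : i < n then
        (if π ⟨i, h⟩ ∈ B then 1 else 0) else 0) := by
    intro B c
    have h := sum_along π c B (le_refl n)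
    rw [pre_n, Finset.inter_univ] at h
    rw [h]
    refine Finset.sum_congr rfl fun i hi => ?_
    have hi' := mem_range.mp hi
    rw [dif_pos hi', dif_pos hi', dif_pos hi']
  have hpart : ∀ (B : Finset (Fin n)) (j : ℕ), j ≤ n → ((B ∩ pre π j).card : ℝ) =
      ∑ i ∈ range j, (if h : i < n then (if π ⟨i, h⟩ ∈ B then (1 : ℝ) else 0) else 0) := by
    intro B j hj
    have h := sum_along π (fun _ => (1 : ℝ)) B hj
    rw [Finset.sum_const, nsmul_eq_mul, mul_one] at h
    rw [h]
    refine Finset.sum_congr rfl fun i hi => ?_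
    have hi' : i < n := lt_of_lt_of_le (mem_range.mp hi) hj
    rw [dif_pos hi', dif_pos hi', one_mul]
  rw [hall B c, hall (grd M π) c]
  apply abel_le
  · intro j hj
    rw [dif_pos hj, dif_pos (by omega)]
    exact hc _ _ (by simp)
  · intro j hj
    rw [← hpart B j hj, ← hpart (grd M π) j hj]
    exact_mod_cast card_inter_le hE π hB hj
  · rw [← hpart B n le_rfl, ← hpart (grd M π) n le_rfl, pre_n, Finset.inter_univ,
      Finset.inter_univ]
    have h := hB.encard_eq_encard_of_isBase (grd_isBase hE π)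
    rw [Set.encard_coe_eq_coe_finsetCard, Set.encard_coe_eq_coe_finsetCard] at h
    exact_mod_cast h

end Pool.Agent.H55.Cell
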