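import Pool.Agent.H55.Cell.Move

/-!
# The support of an array with nonnegative flag minors is a Bruhat interval
-/

namespace Pool.Agent.H55.Cell

open Finset

variable {n : ℕ}

theorem pre_swap_of_out (z : Equiv.Perm (Fin n)) {a b : Fin n} {k : ℕ}
    (h : ((a : ℕ) < k ↔ (b : ℕ) < k)) : pre (z * Equiv.swap a b) k = pre z k := by
  ext i
  rw [mem_pre, mem_pre]
  show ((Equiv.swap a b).symm (z.symm i) : ℕ) < k ↔ _
  rw [Equiv.symm_swap]
  by_cases h1 : z.symm i = a
  · rw [h1, Equiv.swap_apply_left]; exact h.symm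
  · by_cases h2 : z.symm i = b
    · rw [h2, Equiv.swap_apply_right]; exact h
    · rw [Equiv.swap_apply_of_ne_of_ne h1 h2]

theorem pre_swap_of_in (z : Equiv.Perm (Fin n)) {a b : Fin n} {k : ℕ}
    (ha : (a : ℕ) < k) (hb : ¬ (b : ℕ) < k) :
    pre (z * Equiv.swap a b) k = insert (z b) ((pre z k).erase (z a)) := by
  ext i
  rw [mem_pre, mem_insert, mem_erase, mem_pre]
  show ((Equiv.swap a b).symm (z.symm i) : ℕ) < k ↔ _
  rw [Equiv.symm_swap]
  obtain ⟨j, rfl⟩ : ∃ j, z j = i := ⟨z.symm i, by simp⟩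
  simp only [Equiv.symm_apply_apply, EmbeddingLike.apply_eq_iff_eq, ne_eq]
  have hab : a ≠ b := by rintro rfl; exact hb ha
  by_cases h1 : j = a
  · subst h1
    rw [Equiv.swap_apply_left]
    simp [hab, hb]
  · by_cases h2 : j = b
    · subst h2
      rw [Equiv.swap_apply_right]
      simp [ha]
    · rw [Equiv.swap_apply_of_ne_of_ne h1 h2]
      simp [h1, h2]

section
variable {p : ℕ} (hp : p + 1 < n)

/-- position `p` -/
abbrev q0 : Fin n := ⟨p, by omega⟩
/-- position `p + 1` -/
abbrev q1 : Fin n := ⟨p + 1, hp⟩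

theorem q_ne : q0 hp ≠ q1 hp := by intro h; simp at h

/-- right multiplication by the simple transposition -/
abbrev ws (z : Equiv.Perm (Fin n)) : Equiv.Perm (Fin n) := z * Equiv.swap (q0 hp) (q1 hp)

theorem ws_q0 (z : Equiv.Perm (Fin n)) : ws hp z (q0 hp) = z (q1 hp) := by
  simp [ws]

theorem ws_q1 (z : Equiv.Perm (Fin n)) : ws hp z (q1 hp) = z (q0 hp) := by
  simp [ws]

theorem ws_ws (z : Equiv.Perm (Fin n)) : ws hp (ws hp z) = z := by
  simp only [ws]
  rw [mul_assoc, Equiv.swap_mul_self, mul_one]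

theorem pre_ws (z : Equiv.Perm (Fin n)) {k : ℕ} (hk : k ≠ p + 1) : pre (ws hp z) k = pre z k := by
  apply pre_swap_of_out
  simp only [q0, q1]; omega

theorem cnt_ws (z : Equiv.Perm (Fin n)) {k : ℕ} (hk : k ≠ p + 1) (m : ℕ) :
    cnt (ws hp z) k m = cnt z k m := by
  rw [← hi_pre, ← hi_pre, pre_ws hp z hk]

theorem pre_erase_q1 (z : Equiv.Perm (Fin n)) : (pre z (p + 2)).erase (z (q1 hp)) = pre z (p + 1) := by
  have h := pre_succ z (q1 hp)
  have h1 : ((q1 hp : Fin n) : ℕ) = p + 1 := rfl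
  rw [h1] at h
  rw [show p + 2 = p + 1 + 1 from rfl, h, erase_insert]
  rw [apply_mem_pre]; simp

theorem pre_erase_q0' (z : Equiv.Perm (Fin n)) : (pre z (p + 1)).erase (z (q0 hp)) = pre z p := by
  have h := pre_succ z (q0 hp)
  have h1 : ((q0 hp : Fin n) : ℕ) = p := rfl
  rw [h1] at h
  rw [h, erase_insert]
  rw [apply_mem_pre]; simp

theorem pre_erase_q0 (z : Equiv.Perm (Fin n)) :
    (pre z (p + 2)).erase (z (q0 hp)) = pre (ws hp z) (p + 1) := by
  rw [← pre_erase_q1 hp (ws hp z), ws_q1, pre_ws hp z (by omega)]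

theorem flag_rel (G : Fin n → ℕ → ℝ) {z : Equiv.Perm (Fin n)} (hz : z (q0 hp) < z (q1 hp)) :
    pl (sw G p) (pre z (p + 1)) * pl G (pre (ws hp z) (p + 1)) -
      pl G (pre z (p + 1)) * pl (sw G p) (pre (ws hp z) (p + 1)) =
      pl G (pre z p) * pl G (pre z (p + 2)) := by
  have h0 : z (q0 hp) ∈ pre z (p + 2) := by rw [apply_mem_pre]; simp
  have h1 : z (q1 hp) ∈ pre z (p + 2) := by rw [apply_mem_pre]; simp
  have h := rel G (card_pre z (by omega)) h0 h1 hz
  rw [Finset.erase_right_comm, pre_erase_q1, pre_erase_q0, pre_erase_q0'] at h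
  exact h

theorem flag_pos {G : Fin n → ℕ → ℝ} (hG : ∀ J, 0 ≤ pl G J) (hQ : ∀ J, 0 ≤ pl (sw G p) J)
    {z : Equiv.Perm (Fin n)} (hz : z (q0 hp) < z (q1 hp)) (hK : pl G (pre z p) ≠ 0)
    (hL : pl G (pre z (p + 2)) ≠ 0) :
    pl (sw G p) (pre z (p + 1)) ≠ 0 ∧ pl G (pre (ws hp z) (p + 1)) ≠ 0 := by
  have h := flag_rel hp G hz
  have h1 : 0 < pl G (pre z p) * pl G (pre z (p + 2)) :=
    mul_pos (lt_of_le_of_ne (hG _) hK.symm) (lt_of_le_of_ne (hG _) hL.symm)
  have h2 : 0 ≤ pl G (pre z (p + 1)) * pl (sw G p) (pre (ws hp z) (p + 1)) :=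
    mul_nonneg (hG _) (hQ _)
  have h3 : 0 < pl (sw G p) (pre z (p + 1)) * pl G (pre (ws hp z) (p + 1)) := by linarith
  constructor
  · intro h4; rw [h4, zero_mul] at h3; exact lt_irrefl _ h3
  · intro h4; rw [h4, mul_zero] at h3; exact lt_irrefl _ h3

theorem cnt_p1 (z : Equiv.Perm (Fin n)) (m : ℕ) :
    cnt z (p + 1) m = cnt z p m + if m ≤ (z (q0 hp) : ℕ) then 1 else 0 := cnt_succ z (q0 hp) m

theorem cnt_p2 (z : Equiv.Perm (Fin n)) (m : ℕ) :
    cnt z (p + 2) m = cnt z p m + (if m ≤ (z (q0 hp) : ℕ) then 1 else 0) +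
      if m ≤ (z (q1 hp) : ℕ) then 1 else 0 := by
  rw [← cnt_p1 hp]; exact cnt_succ z (q1 hp) m

theorem tabLE_of_asc {z v : Equiv.Perm (Fin n)} (hz : z (q0 hp) < z (q1 hp))
    (h : ∀ k ≠ p + 1, ∀ m, cnt z k m ≤ cnt v k m) : TabLE z v := by
  intro k m
  by_cases hk : k = p + 1
  · subst hk
    have h0 := h p (by omega) m
    have h2 := h (p + 2) (by omega) m
    have h3 : (z (q0 hp) : ℕ) < z (q1 hp) := hz
    rw [cnt_p2 hp, cnt_p2 hp] at h2
    rw [cnt_p1 hp, cnt_p1 hp]
    split_ifs at h2 ⊢ <;> omega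
  · exact h k hk m

theorem tabLE_of_desc {z v : Equiv.Perm (Fin n)} (hv : v (q1 hp) < v (q0 hp))
    (h : ∀ k ≠ p + 1, ∀ m, cnt z k m ≤ cnt v k m) : TabLE z v := by
  intro k m
  by_cases hk : k = p + 1
  · subst hk
    have h0 := h p (by omega) m
    have h2 := h (p + 2) (by omega) m
    have h3 : (v (q1 hp) : ℕ) < v (q0 hp) := hv
    rw [cnt_p2 hp, cnt_p2 hp] at h2
    rw [cnt_p1 hp, cnt_p1 hp]
    split_ifs at h2 ⊢ <;> omega
  · exact h k hk m

theorem lt_or_gt' (z : Equiv.Perm (Fin n)) : z (q0 hp) < z (q1 hp) ∨ z (q1 hp) < z (q0 hp) := by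
  rcases lt_trichotomy (z (q0 hp)) (z (q1 hp)) with h | h | h
  · exact Or.inl h
  · exact absurd (z.injective h) (q_ne hp)
  · exact Or.inr h

/-- sort increasingly at `p, p + 1` -/
def srt (z : Equiv.Perm (Fin n)) : Equiv.Perm (Fin n) :=
  if z (q0 hp) < z (q1 hp) then z else ws hp z

theorem srt_of_asc {z : Equiv.Perm (Fin n)} (h : z (q0 hp) < z (q1 hp)) : srt hp z = z := if_pos h

theorem srt_of_desc {z : Equiv.Perm (Fin n)} (h : z (q1 hp) < z (q0 hp)) : srt hp z = ws hp z :=
  if_neg (not_lt.mpr h.le)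

theorem srt_asc (z : Equiv.Perm (Fin n)) : srt hp z (q0 hp) < srt hp z (q1 hp) := by
  rcases lt_or_gt' hp z with h | h
  · rw [srt_of_asc hp h]; exact h
  · rw [srt_of_desc hp h, ws_q0, ws_q1]; exact h

theorem pre_srt (z : Equiv.Perm (Fin n)) {k : ℕ} (hk : k ≠ p + 1) : pre (srt hp z) k = pre z k := by
  rcases lt_or_gt' hp z with h | h
  · rw [srt_of_asc hp h]
  · rw [srt_of_desc hp h, pre_ws hp z hk]

theorem cnt_srt (z : Equiv.Perm (Fin n)) {k : ℕ} (hk : k ≠ p + 1) (m : ℕ) :
    cnt (srt hp z) k m = cnt z k m := by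
  rw [← hi_pre, ← hi_pre, pre_srt hp z hk]

theorem srt_tabLE {z v : Equiv.Perm (Fin n)} (h : TabLE z v) : TabLE (srt hp z) (srt hp v) := by
  apply tabLE_of_asc hp (srt_asc hp z)
  intro k hk m
  rw [cnt_srt hp z hk, cnt_srt hp v hk]
  exact h k m

theorem wt_ws_lt {v : Equiv.Perm (Fin n)} (h : v (q1 hp) < v (q0 hp)) : wt (ws hp v) < wt v := by
  have hs := swap_step (show q0 hp < q1 hp by simp [q0, q1]) h
  exact wt_lt_of (step_tabLE hs) (step_strict hs)

theorem ws_tabLE {v : Equiv.Perm (Fin n)} (h : v (q1 hp) < v (q0 hp)) : TabLE (ws hp v) v :=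
  step_tabLE (swap_step (show q0 hp < q1 hp by simp [q0, q1]) h)

end

theorem exists_descent {v : Equiv.Perm (Fin n)} {a b : Fin n} (hab : a < b) (h : v b < v a) :
    ∃ (p : ℕ) (hp : p + 1 < n), v (q1 hp) < v (q0 hp) := by
  by_contra hcon
  push Not at hcon
  have key : ∀ d : ℕ, ∀ hb : (a : ℕ) + d < n, v a ≤ v ⟨(a : ℕ) + d, hb⟩ := by
    intro d
    induction d with
    | zero => intro hb; exact le_rfl
    | succ d ih =>
      intro hb
      exact (ih (by omega)).trans (hcon ((a : ℕ) + d) hb)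
  have h1 := key ((b : ℕ) - a) (by have : (a : ℕ) < b := hab; omega)
  have h2 : (⟨(a : ℕ) + ((b : ℕ) - a), by have : (a : ℕ) < b := hab; omega⟩ : Fin n) = b := by
    apply Fin.ext; have : (a : ℕ) < b := hab; simp; omega
  rw [h2] at h1
  exact absurd h (not_lt.mpr h1)

/-- **Key lemma, upper half** -/
theorem key_up (N : ℕ) : ∀ (G : Fin n → ℕ → ℝ) (v : Equiv.Perm (Fin n)), wt v = N → TNN G →
    Ech G v → ∀ u ∈ Supp G, ∀ z, TabLE u z → TabLE z v → z ∈ Supp G := by
  induction N using Nat.strong_induction_on with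
  | _ N ih =>
    intro G v hN hG hE u hu z
    induction hM : wt z using Nat.strong_induction_on generalizing z with
    | _ M ihz =>
      intro huz hzv
      by_cases hzv' : z = v
      · subst hzv'; exact hE.mem_supp
      obtain ⟨a, b, hab, hvab, -⟩ := exists_step hzv hzv'
      obtain ⟨p, hp, hpv⟩ := exists_descent hab hvab
      have hA : TNN (sw G p) := hG.sw hE hp hpv
      have hEA : Ech (sw G p) (ws hp v) := hE.sw hp
      have hsame : ∀ (w : Equiv.Perm (Fin n)) {k : ℕ}, k ≤ n → k ≠ p + 1 →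
          pl (sw G p) (pre w k) = pl G (pre w k) := by
        intro w k hk hk1
        exact pl_sw G p (by rw [card_pre w hk]; exact hk1)
      have h1 : srt hp u ∈ Supp (sw G p) := by
        intro k hk
        by_cases hk1 : k = p + 1
        · subst hk1
          refine (flag_pos hp hG.1 hA.1 (srt_asc hp u) ?_ ?_).1
          · rw [pre_srt hp u (by omega)]; exact hu p (by omega)
          · rw [pre_srt hp u (by omega)]; exact hu (p + 2) (by omega)
        · rw [hsame _ hk hk1, pre_srt hp u hk1]; exact hu k hk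
      have h2 : srt hp z ∈ Supp (sw G p) := by
        refine ih (wt (ws hp v)) ?_ (sw G p) (ws hp v) rfl hA hEA _ h1 _ (srt_tabLE hp huz) ?_
        · rw [← hN]; exact wt_ws_lt hp hpv
        · rw [← srt_of_desc hp hpv]; exact srt_tabLE hp hzv
      have h3 : ∀ k ≤ n, k ≠ p + 1 → pl G (pre z k) ≠ 0 := by
        intro k hk hk1
        have := h2 k hk
        rwa [hsame _ hk hk1, pre_srt hp z hk1] at this
      suffices h4 : pl G (pre z (p + 1)) ≠ 0 by
        intro k hk
        by_cases hk1 : k = p + 1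
        · subst hk1; exact h4
        · exact h3 k hk hk1
      rcases lt_or_gt' hp z with hz | hz
      · -- ascending
        have hQ : pl (sw G p) (pre z (p + 1)) ≠ 0 := by
          have := h2 (p + 1) (by omega)
          rwa [srt_of_asc hp hz] at this
        by_cases huz' : u = z
        · subst huz'; exact hu (p + 1) (by omega)
        obtain ⟨c, d, hcd, hzcd, huz1⟩ := exists_step huz huz'
        have hst := swap_step hcd hzcd
        have hz1 : z * Equiv.swap c d ∈ Supp G := by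
          refine ihz (wt (z * Equiv.swap c d)) ?_ (z * Equiv.swap c d) rfl huz1
            ((step_tabLE hst).trans hzv)
          rw [← hM]
          exact wt_lt_of (step_tabLE hst) (step_strict hst)
        have h5 := hz1 (p + 1) (by omega)
        have hcd' : (c : ℕ) < d := hcd
        by_cases hin : (c : ℕ) < p + 1 ∧ ¬ (d : ℕ) < p + 1
        · rw [pre_swap_of_in z hin.1 hin.2] at h5
          have hzd : z d ∉ pre z (p + 1) := by rw [apply_mem_pre]; exact hin.2
          have hzc : z c ∈ pre z (p + 1) := by rw [apply_mem_pre]; exact hin.1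
          have hL : (insert (z d) (pre z (p + 1))).card = p + 2 := by
            rw [card_insert_of_notMem hzd, card_pre z (by omega)]
          have key := rel G hL (mem_insert_self _ _) (mem_insert_of_mem hzc) hzcd
          have e1 : (insert (z d) (pre z (p + 1))).erase (z d) = pre z (p + 1) := erase_insert hzd
          have e2 : (insert (z d) (pre z (p + 1))).erase (z c) =
              insert (z d) ((pre z (p + 1)).erase (z c)) := by
            rw [Finset.erase_insert_of_ne hzcd.ne]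
          rw [e1, e2] at key
          intro h6
          rw [h6, mul_zero, zero_sub] at key
          have h7 : 0 < pl G (insert (z d) ((pre z (p + 1)).erase (z c))) *
              pl (sw G p) (pre z (p + 1)) :=
            mul_pos (lt_of_le_of_ne (hG.1 _) h5.symm) (lt_of_le_of_ne (hA.1 _) hQ.symm)
          have h8 : 0 ≤ pl G ((pre z (p + 1)).erase (z c)) *
              pl G (insert (z d) (pre z (p + 1))) := mul_nonneg (hG.1 _) (hG.1 _)
          linarith
        · rwa [pre_swap_of_out z (by omega)] at h5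
      · -- descending
        have h5 := (flag_pos hp hG.1 hA.1 (srt_asc hp z) (by
          rw [pre_srt hp z (by omega)]; exact h3 p (by omega) (by omega)) (by
          rw [pre_srt hp z (by omega)]; exact h3 (p + 2) (by omega) (by omega))).2
        rwa [srt_of_desc hp hz, ws_ws] at h5

theorem TNN.congr {G G' : Fin n → ℕ → ℝ} (h : ∀ J, pl G' J = pl G J) (hG : TNN G) : TNN G' :=
  ⟨fun J => by rw [h]; exact hG.1 J, by rw [h]; exact hG.2⟩

theorem Supp_congr {G G' : Fin n → ℕ → ℝ} (h : ∀ J, pl G' J = pl G J) : Supp G' = Supp G := by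
  ext z; simp only [Supp, Set.mem_setOf_eq, h]

/-- an array with nonnegative flag minors has an echelon form at the maximum of its support -/
theorem exists_ech_max {G : Fin n → ℕ → ℝ} (hG : TNN G) {v : Equiv.Perm (Fin n)} (hv : v ∈ Supp G)
    (hmax : ∀ z ∈ Supp G, TabLE z v) : ∃ G', (∀ J, pl G' J = pl G J) ∧ Ech G' v := by
  obtain ⟨G', v', h1, h2⟩ := exists_ech hG.2
  have h3 : v = v' := by
    apply TabLE.antisymm
    · apply h2.tabLE
      rw [Supp_congr h1]; exact hv
    · apply hmax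
      rw [← Supp_congr h1]; exact h2.mem_supp
  subst h3
  exact ⟨G', h1, h2⟩

theorem supp_eq {G : Fin n → ℕ → ℝ} (hG : TNN G) {u v : Equiv.Perm (Fin n)} (hu : u ∈ Supp G)
    (hv : v ∈ Supp G) (hmin : ∀ z ∈ Supp G, TabLE u z) (hmax : ∀ z ∈ Supp G, TabLE z v)
    (z : Equiv.Perm (Fin n)) : z ∈ Supp G ↔ TabLE u z ∧ TabLE z v := by
  constructor
  · intro h; exact ⟨hmin z h, hmax z h⟩
  · rintro ⟨h1, h2⟩
    obtain ⟨G', h3, h4⟩ := exists_ech_max hG hv hmax
    rw [← Supp_congr h3]
    exact key_up _ G' v rfl (hG.congr h3) h4 u (by rw [Supp_congr h3]; exact hu) z h1 h2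

end Pool.Agent.H55.Cell
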