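import Pool.Agent.H55.Cell.Asym

/-!
# Torus limits
-/

namespace Pool.Agent.H55.Cell

open Finset Filter Topology

variable {n : ℕ}

/-- an `n × n` matrix as an array -/
noncomputable def exA (M : Matrix (Fin n) (Fin n) ℝ) : Fin n → ℕ → ℝ := fun i j =>
  if h : j < n then M i ⟨j, h⟩ else 0

theorem exA_lt (M : Matrix (Fin n) (Fin n) ℝ) (i : Fin n) {j : ℕ} (h : j < n) :
    exA M i j = M i ⟨j, h⟩ := dif_pos h

theorem exA_fin (M : Matrix (Fin n) (Fin n) ℝ) (i j : Fin n) :
    exA M i (j : ℕ) = M i j := dif_pos j.isLt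

theorem pl_exA_univ (M : Matrix (Fin n) (Fin n) ℝ) : pl (exA M) univ = M.det := by
  have h := mt_perm (exA M) (id : Fin n → Fin n) (fun _ _ h => h) (J := univ)
    (fun _ => mem_univ _) (by simp)
  rw [sg_of_strictMono strictMono_id, one_mul] at h
  rw [← h]
  unfold mt
  congr 1
  ext i j
  exact exA_fin M i j

theorem continuous_pl_exA (J : Finset (Fin n)) :
    Continuous fun M : Matrix (Fin n) (Fin n) ℝ => pl (exA M) J := by
  unfold pl mt
  apply Continuous.matrix_det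
  refine continuous_pi fun a => continuous_pi fun b => ?_
  have hb : (b : ℕ) < n := lt_of_lt_of_le b.isLt (by simpa using J.card_le_univ)
  have : (fun M : Matrix (Fin n) (Fin n) ℝ => exA M (J.orderEmbOfFin rfl a) (b : ℕ)) =
      fun M => M (J.orderEmbOfFin rfl a) ⟨b, hb⟩ := by
    funext M; exact exA_lt M _ hb
  show Continuous (fun M : Matrix (Fin n) (Fin n) ℝ => exA M (J.orderEmbOfFin rfl a) (b : ℕ))
  rw [this]
  exact (continuous_apply _).comp (continuous_apply _)

/-- orthonormalisation of the columns -/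
theorem exists_gs {B : Fin n → ℕ → ℝ} (hB : pl B univ ≠ 0) :
    ∃ (M : Matrix (Fin n) (Fin n) ℝ) (r : ℕ → ℝ), (∀ k, 0 < r k) ∧ M.transpose * M = 1 ∧
      ∀ J, pl B J = r J.card * pl (exA M) J := by
  classical
  set f : Fin n → EuclideanSpace ℝ (Fin n) := fun j => WithLp.toLp 2 (fun i => B i (j : ℕ)) with hf
  set g : Fin n → EuclideanSpace ℝ (Fin n) := InnerProductSpace.gramSchmidt ℝ f with hg
  set M : Matrix (Fin n) (Fin n) ℝ := fun i j => ‖g j‖⁻¹ * g j i with hM
  set B' : Fin n → ℕ → ℝ := fun i j => if h : j < n then g ⟨j, h⟩ i else 0 with hB'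
  set d : ℕ → ℝ := fun j => if h : j < n then ‖g ⟨j, h⟩‖ else 1 with hd
  set b : ℕ → ℕ → ℝ := fun l j => if hl : l < n then (if hj : j < n then
    (inner ℝ (g ⟨l, hl⟩) (f ⟨j, hj⟩) / ‖g ⟨l, hl⟩‖ ^ 2) else 0) else 0 with hb
  have h1 : ∀ J, pl B J = pl B' J := by
    refine pl_unip b (fun r j hj => ?_)
    have h2 := InnerProductSpace.gramSchmidt_def'' ℝ f ⟨j, hj⟩
    have h3 : f ⟨j, hj⟩ r = g ⟨j, hj⟩ r + ∑ i ∈ Iio (⟨j, hj⟩ : Fin n),
        (inner ℝ (g i) (f ⟨j, hj⟩) / ‖g i‖ ^ 2) * g i r := by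
      have h4 := congrArg (fun x : EuclideanSpace ℝ (Fin n) => x r) h2
      simpa [hg] using h4
    have h5 : f ⟨j, hj⟩ r = B r j := rfl
    rw [← h5, h3]
    congr 1
    · simp only [hB', dif_pos hj]
    · symm
      have h6 : ∀ l ∈ range j, B' r l * b l j = if h : l < n then
          (inner ℝ (g ⟨l, h⟩) (f ⟨j, hj⟩) / ‖g ⟨l, h⟩‖ ^ 2) * g ⟨l, h⟩ r else 0 := by
        intro l hl
        have hl' : l < n := lt_trans (mem_range.mp hl) hj
        simp only [hB', hb, dif_pos hl', dif_pos hj]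
        ring
      rw [Finset.sum_congr rfl h6]
      symm
      refine Finset.sum_bij (fun (i : Fin n) _ => (i : ℕ)) ?_ ?_ ?_ ?_
      · intro i hi; rw [mem_Iio] at hi; rw [mem_range]; exact hi
      · intro i _ i' _ h; exact Fin.ext h
      · intro l hl
        have hl' := mem_range.mp hl
        exact ⟨⟨l, lt_trans hl' hj⟩, by rw [mem_Iio]; exact hl', rfl⟩
      · intro i _; rw [dif_pos i.isLt]
  have h2 : ∀ J, pl B' J = (∏ j ∈ range J.card, d j) * pl (exA M) J := by
    refine pl_scale d (fun r j hj => ?_)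
    rw [exA_lt M r hj]
    simp only [hB', hd, hM, dif_pos hj]
    by_cases h0 : ‖g ⟨j, hj⟩‖ = 0
    · have : g ⟨j, hj⟩ = 0 := norm_eq_zero.mp h0
      rw [this]; simp
    · field_simp
  have hdne : ∀ j, 0 < d j := by
    intro j
    simp only [hd]
    split_ifs with h
    · have h3 := hB
      rw [h1, h2] at h3
      have h4 := (mul_ne_zero_iff.mp h3).1
      rw [Finset.prod_ne_zero_iff] at h4
      have h5 := h4 j (by simpa using h)
      simp only [hd, dif_pos h] at h5
      exact lt_of_le_of_ne (norm_nonneg _) h5.symm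
    · exact one_pos
  refine ⟨M, fun k => ∏ j ∈ range k, d j, fun k => Finset.prod_pos fun j _ => hdne j, ?_,
    fun J => by rw [h1, h2]⟩
  ext i j
  rw [Matrix.mul_apply]
  have h3 : ∑ l, M.transpose i l * M l j = ‖g i‖⁻¹ * ‖g j‖⁻¹ * inner ℝ (g i) (g j) := by
    rw [PiLp.inner_apply, Finset.mul_sum]
    refine Finset.sum_congr rfl fun l _ => ?_
    simp only [Matrix.transpose_apply, hM]
    have : inner ℝ ((g i).ofLp l) ((g j).ofLp l) = (g j).ofLp l * (g i).ofLp l := rfl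
    rw [this]; ring
  rw [h3]
  by_cases hij : i = j
  · subst hij
    have h4 := hdne i
    simp only [hd, dif_pos i.isLt] at h4
    rw [Matrix.one_apply_eq, real_inner_self_eq_norm_sq]
    have h5 : ‖g i‖ ≠ 0 := h4.ne'
    field_simp
  · rw [Matrix.one_apply_ne hij, hg, InnerProductSpace.gramSchmidt_orthogonal ℝ f hij, mul_zero]

theorem exists_limit {A : ℝ → Fin n → ℕ → ℝ} {w : Finset (Fin n) → ℕ}
    {Q : Finset (Fin n) → Polynomial ℝ}
    (hA : ∀ t J, pl (A t) J = t ^ (w J) * (Q J).eval t) (hQ : ∀ J, 0 < (Q J).eval 0)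
    (y : Fin n → ℝ) :
    ∃ G : Fin n → ℕ → ℝ, TNN G ∧ ∀ J, (pl G J ≠ 0 ↔ ∀ J' : Finset (Fin n), J'.card = J.card →
      (w J : ℝ) - ∑ i ∈ J, y i ≤ (w J' : ℝ) - ∑ i ∈ J', y i) := by
  classical
  set φ : Finset (Fin n) → ℝ := fun J => (w J : ℝ) - ∑ i ∈ J, y i with hφ
  set t : ℕ → ℝ := fun s => Real.exp (-(s : ℝ)) with ht
  set q : Finset (Fin n) → ℕ → ℝ := fun J s => (Q J).eval (t s) with hq
  set B : ℕ → Fin n → ℕ → ℝ := fun s i j => Real.exp ((s : ℝ) * y i) * A (t s) i j with hB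
  have htlim : Tendsto t atTop (𝓝 0) :=
    Real.tendsto_exp_neg_atTop_nhds_zero.comp tendsto_natCast_atTop_atTop
  have hqlim : ∀ J, Tendsto (q J) atTop (𝓝 ((Q J).eval 0)) := by
    intro J
    exact ((Polynomial.continuous (Q J)).tendsto 0).comp htlim
  have hplB : ∀ s J, pl (B s) J = Real.exp (-((s : ℝ) * φ J)) * q J s := by
    intro s J
    rw [hB, pl_row_scale (G := A (t s)) (fun i => Real.exp ((s : ℝ) * y i)) (fun r j => rfl), hA,
      ← Real.exp_sum, ← Finset.mul_sum, ← mul_assoc]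
    congr 1
    rw [ht]
    simp only
    rw [← Real.exp_nat_mul, ← Real.exp_add]
    congr 1
    simp only [hφ]
    ring
  have hev : ∀ᶠ s in atTop, ∀ J, 0 < q J s := by
    rw [eventually_all]
    intro J
    exact (hqlim J).eventually (lt_mem_nhds (hQ J))
  obtain ⟨s0, hs0⟩ := eventually_atTop.mp hev
  have hBne : ∀ s, s0 ≤ s → pl (B s) univ ≠ 0 := by
    intro s hs
    rw [hplB]
    exact (mul_pos (Real.exp_pos _) (hs0 s hs univ)).ne'
  have hgs : ∀ s : ℕ, ∃ (M : Matrix (Fin n) (Fin n) ℝ) (r : ℕ → ℝ), (∀ k, 0 < r k) ∧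
      M.transpose * M = 1 ∧ ∀ J, pl (B (s0 + s)) J = r J.card * pl (exA M) J :=
    fun s => exists_gs (hBne (s0 + s) (by omega))
  choose M r hr hM hMJ using hgs
  -- compactness
  have hbd : ∀ s, (M s : Fin n → Fin n → ℝ) ∈
      Set.pi Set.univ (fun _ : Fin n => Set.pi Set.univ fun _ : Fin n => Set.Icc (-1 : ℝ) 1) := by
    intro s i _ j _
    have h1 := congrFun (congrFun (hM s) j) j
    rw [Matrix.mul_apply, Matrix.one_apply_eq] at h1
    have h2 : (M s i j) ^ 2 ≤ 1 := by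
      rw [← h1]
      have h3 : ∀ l ∈ univ, 0 ≤ (M s).transpose j l * M s l j := by
        intro l _; rw [Matrix.transpose_apply]; exact mul_self_nonneg _
      have h4 := Finset.single_le_sum h3 (mem_univ i)
      rw [Matrix.transpose_apply] at h4
      rw [sq]; exact h4
    exact abs_le.mp ((sq_le_one_iff_abs_le_one _).mp h2)
  obtain ⟨M0', -, ψ, hψ, hlim⟩ := (isCompact_univ_pi fun _ : Fin n => isCompact_univ_pi
    fun _ : Fin n => (isCompact_Icc : IsCompact (Set.Icc (-1 : ℝ) 1))).tendsto_subseq hbd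
  obtain ⟨M0, hM0'⟩ : ∃ M0 : Matrix (Fin n) (Fin n) ℝ, M0 = M0' := ⟨M0', rfl⟩
  have hlim' : Tendsto (fun s => (M (ψ s) : Matrix (Fin n) (Fin n) ℝ)) atTop (𝓝 M0) := by
    rw [hM0']; exact hlim
  have hpl : ∀ J, Tendsto (fun s => pl (exA (M (ψ s))) J) atTop (𝓝 (pl (exA M0) J)) := by
    intro J
    exact ((continuous_pl_exA J).tendsto M0).comp hlim'
  have hM0 : (Matrix.transpose M0) * M0 = (1 : Matrix (Fin n) (Fin n) ℝ) := by
    have hc : Continuous fun M : Matrix (Fin n) (Fin n) ℝ => M.transpose * M :=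
      Continuous.matrix_mul continuous_id.matrix_transpose continuous_id
    have h1 := (hc.tendsto M0).comp hlim'
    have h2 : ((fun M : Matrix (Fin n) (Fin n) ℝ => M.transpose * M) ∘ fun s => M (ψ s)) =
        fun _ => (1 : Matrix (Fin n) (Fin n) ℝ) := by
      funext s; exact hM (ψ s)
    rw [h2] at h1
    exact tendsto_nhds_unique h1 tendsto_const_nhds
  -- positivity along the sequence
  have hσ : ∀ s J, pl (exA (M (ψ s))) J =
      (r (ψ s) J.card)⁻¹ * (Real.exp (-(((s0 + ψ s : ℕ) : ℝ) * φ J)) * q J (s0 + ψ s)) := by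
    intro s J
    rw [← hplB, hMJ (ψ s) J, ← mul_assoc, inv_mul_cancel₀ (hr _ _).ne', one_mul]
  have hpos : ∀ s J, 0 ≤ pl (exA (M (ψ s))) J := by
    intro s J
    rw [hσ]
    exact mul_nonneg (inv_nonneg.mpr (hr _ _).le)
      (mul_nonneg (Real.exp_pos _).le (hs0 _ (by omega) J).le)
  have hT : TNN (exA M0) := by
    refine ⟨fun J => ge_of_tendsto' (hpl J) (fun s => hpos s J), ?_⟩
    rw [pl_exA_univ]
    intro h0
    have h1 := congrArg Matrix.det hM0
    rw [Matrix.det_mul, h0, mul_zero, Matrix.det_one] at h1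
    exact zero_ne_one h1
  -- the cross relation
  have hidx : Tendsto (fun s => s0 + ψ s) atTop atTop :=
    tendsto_atTop_mono (fun s => Nat.le_add_left _ _) hψ.tendsto_atTop
  have hq' : ∀ J, Tendsto (fun s => q J (s0 + ψ s)) atTop (𝓝 ((Q J).eval 0)) := fun J =>
    (hqlim J).comp hidx
  have hcross : ∀ J J' : Finset (Fin n), J'.card = J.card → ∀ s,
      pl (exA (M (ψ s))) J * q J' (s0 + ψ s) = pl (exA (M (ψ s))) J' *
        (Real.exp (-(((s0 + ψ s : ℕ) : ℝ) * (φ J - φ J'))) * q J (s0 + ψ s)) := by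
    intro J J' hc s
    rw [hσ, hσ, hc]
    have h1 : Real.exp (-(((s0 + ψ s : ℕ) : ℝ) * φ J)) = Real.exp (-(((s0 + ψ s : ℕ) : ℝ) * φ J')) *
        Real.exp (-(((s0 + ψ s : ℕ) : ℝ) * (φ J - φ J'))) := by
      rw [← Real.exp_add]; congr 1; ring
    rw [h1]; ring
  have hlt : ∀ J J' : Finset (Fin n), J'.card = J.card → φ J' < φ J → pl (exA M0) J = 0 := by
    intro J J' hc hlt
    have h1 : Tendsto (fun s => pl (exA (M (ψ s))) J * q J' (s0 + ψ s)) atTop
        (𝓝 (pl (exA M0) J * (Q J').eval 0)) := (hpl J).mul (hq' J')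
    have h2 : Tendsto (fun s : ℕ => Real.exp (-(((s0 + ψ s : ℕ) : ℝ) * (φ J - φ J')))) atTop
        (𝓝 0) := by
      refine Real.tendsto_exp_neg_atTop_nhds_zero.comp ?_
      exact (tendsto_natCast_atTop_atTop.comp hidx).atTop_mul_const (sub_pos.mpr hlt)
    have h3 : Tendsto (fun s => pl (exA (M (ψ s))) J' *
        (Real.exp (-(((s0 + ψ s : ℕ) : ℝ) * (φ J - φ J'))) * q J (s0 + ψ s))) atTop
        (𝓝 (pl (exA M0) J' * (0 * (Q J).eval 0))) := (hpl J').mul (h2.mul (hq' J))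
    have h4 : (fun s => pl (exA (M (ψ s))) J * q J' (s0 + ψ s)) = fun s =>
        pl (exA (M (ψ s))) J' *
        (Real.exp (-(((s0 + ψ s : ℕ) : ℝ) * (φ J - φ J'))) * q J (s0 + ψ s)) := by
      funext s; exact hcross J J' hc s
    rw [← h4] at h3
    have h5 := tendsto_nhds_unique h1 h3
    rw [zero_mul, mul_zero] at h5
    exact (mul_eq_zero.mp h5).resolve_right (hQ J').ne'
  refine ⟨exA M0, hT, fun J => ⟨fun hJ J' hc => ?_, fun hmin => ?_⟩⟩
  · by_contra hcon
    push Not at hcon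
    exact hJ (hlt J J' hc hcon)
  · have hJn : J.card ≤ n := by simpa using J.card_le_univ
    obtain ⟨z, hz⟩ := supp_nonempty hT
    set J' := pre z J.card with hJ'
    have hc : J'.card = J.card := card_pre z hJn
    have hne : pl (exA M0) J' ≠ 0 := hz J.card hJn
    have heq : φ J = φ J' := by
      apply le_antisymm (hmin J' hc)
      by_contra hcon
      push Not at hcon
      exact hne (hlt J' J hc.symm hcon)
    have h1 : Tendsto (fun s => pl (exA (M (ψ s))) J * q J' (s0 + ψ s)) atTop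
        (𝓝 (pl (exA M0) J * (Q J').eval 0)) := (hpl J).mul (hq' J')
    have h3 : Tendsto (fun s => pl (exA (M (ψ s))) J' * q J (s0 + ψ s)) atTop
        (𝓝 (pl (exA M0) J' * (Q J).eval 0)) := (hpl J').mul (hq' J)
    have h4 : (fun s => pl (exA (M (ψ s))) J * q J' (s0 + ψ s)) = fun s =>
        pl (exA (M (ψ s))) J' * q J (s0 + ψ s) := by
      funext s
      rw [hcross J J' hc s, heq, sub_self, mul_zero, neg_zero, Real.exp_zero, one_mul]
    rw [← h4] at h3
    have h5 := tendsto_nhds_unique h1 h3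
    intro h0
    rw [h0, zero_mul] at h5
    exact (mul_ne_zero hne (hQ J).ne') h5.symm

end Pool.Agent.H55.Cell
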