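import Pool.Agent.H55.Cell.Defs

/-!
# Tableau criterion and Bruhat order
-/

namespace Pool.Agent.H55.Cell

open Finset

variable {n : ℕ}

theorem hi_pre (z : Equiv.Perm (Fin n)) (k m : ℕ) : hi (pre z k) m = cnt z k m := by
  unfold hi pre cnt
  rw [Finset.filter_filter]
  apply Finset.card_bij' (fun i _ => z.symm i) (fun a _ => z a)
  · intro i hi; simpa using hi
  · intro a ha; simpa using ha
  · intro i _; simp
  · intro a _; simp

theorem card_pre (z : Equiv.Perm (Fin n)) {k : ℕ} (hk : k ≤ n) : (pre z k).card = k := by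
  have h := hi_pre z k 0
  unfold hi cnt at h
  simp only [Nat.zero_le, and_true, Finset.filter_true] at h
  rw [h]
  have : (univ.filter fun a : Fin n => (a : ℕ) < k) = (Finset.univ : Finset (Fin k)).map
      (Fin.castLEEmb hk) := by
    ext a
    simp only [mem_filter, mem_univ, true_and, mem_map]
    constructor
    · intro ha; exact ⟨⟨a, ha⟩, by ext; simp⟩
    · rintro ⟨b, rfl⟩; simp
  rw [this]; simp

theorem mem_pre {z : Equiv.Perm (Fin n)} {k : ℕ} {i : Fin n} : i ∈ pre z k ↔ (z.symm i : ℕ) < k := by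
  simp [pre]

theorem pre_mono (z : Equiv.Perm (Fin n)) {k l : ℕ} (h : k ≤ l) : pre z k ⊆ pre z l := by
  intro i; rw [mem_pre, mem_pre]; omega

theorem apply_mem_pre {z : Equiv.Perm (Fin n)} {k : ℕ} {a : Fin n} :
    z a ∈ pre z k ↔ (a : ℕ) < k := by
  simp [pre]

theorem pre_succ (z : Equiv.Perm (Fin n)) (a : Fin n) :
    pre z ((a : ℕ) + 1) = insert (z a) (pre z a) := by
  ext i
  rw [mem_pre, mem_insert, mem_pre]
  constructor
  · intro h
    rcases Nat.lt_succ_iff_lt_or_eq.mp h with h | h
    · exact Or.inr h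
    · left
      have : z.symm i = a := Fin.ext h
      rw [← this]; simp
  · rintro (rfl | h)
    · simp
    · omega

theorem cnt_eq_sum (z : Equiv.Perm (Fin n)) (k m : ℕ) :
    cnt z k m = ∑ i : Fin n, if (i : ℕ) < k ∧ m ≤ (z i : ℕ) then 1 else 0 := by
  unfold cnt; rw [Finset.card_filter]

theorem cnt_zero (z : Equiv.Perm (Fin n)) (m : ℕ) : cnt z 0 m = 0 := by
  simp [cnt]

theorem cnt_succ (z : Equiv.Perm (Fin n)) (a : Fin n) (m : ℕ) :
    cnt z ((a : ℕ) + 1) m = cnt z a m + if m ≤ (z a : ℕ) then 1 else 0 := by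
  rw [cnt_eq_sum, cnt_eq_sum]
  have h : (if m ≤ (z a : ℕ) then 1 else 0) =
      ∑ i : Fin n, if i = a then (if m ≤ (z i : ℕ) then 1 else 0) else 0 := by
    simp
  rw [h, ← Finset.sum_add_distrib]
  refine Finset.sum_congr rfl fun i _ => ?_
  by_cases hi : i = a
  · subst hi; simp
  · have : (i : ℕ) ≠ a := fun h => hi (Fin.ext h)
    have e : ((i : ℕ) < a + 1) ↔ ((i : ℕ) < a) := by omega
    simp [hi, e]

theorem cnt_ge (z : Equiv.Perm (Fin n)) {k : ℕ} (hk : n ≤ k) (m : ℕ) :
    cnt z k m = (univ.filter fun i : Fin n => m ≤ (i : ℕ)).card := by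
  have h := hi_pre z k m
  rw [← h]
  have : pre z k = univ := by
    ext i; rw [mem_pre]; simp; omega
  rw [this, hi]

theorem TabLE.refl (u : Equiv.Perm (Fin n)) : TabLE u u := fun _ _ => le_rfl

theorem TabLE.trans {u v w : Equiv.Perm (Fin n)} (h1 : TabLE u v) (h2 : TabLE v w) : TabLE u w :=
  fun k m => (h1 k m).trans (h2 k m)

/-- it is enough to test `k ≤ n` -/
theorem tabLE_of {u w : Equiv.Perm (Fin n)} (h : ∀ k < n, ∀ m, cnt u k m ≤ cnt w k m) :
    TabLE u w := by
  intro k m
  rcases lt_or_ge k n with hk | hk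
  · exact h k hk m
  · rw [cnt_ge u hk, cnt_ge w hk]

theorem TabLE.antisymm {u w : Equiv.Perm (Fin n)} (h1 : TabLE u w) (h2 : TabLE w u) : u = w := by
  have h : ∀ k m, cnt u k m = cnt w k m := fun k m => le_antisymm (h1 k m) (h2 k m)
  ext a
  have h3 : ∀ m : ℕ, (m ≤ (u a : ℕ)) ↔ m ≤ (w a : ℕ) := by
    intro m
    have e1 := h ((a : ℕ) + 1) m
    rw [cnt_succ, cnt_succ, h] at e1
    have e2 : (if m ≤ (u a : ℕ) then 1 else 0) = (if m ≤ (w a : ℕ) then 1 else 0) := by omega
    by_cases h4 : m ≤ (u a : ℕ) <;> by_cases h5 : m ≤ (w a : ℕ) <;> simp [h4, h5] at e2 ⊢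
  have h4 := (h3 (u a)).mp le_rfl
  have h5 := (h3 (w a)).mpr le_rfl
  omega

theorem cnt_swap (z : Equiv.Perm (Fin n)) {a b : Fin n} (hab : a ≠ b) (k m : ℕ) :
    cnt (z * Equiv.swap a b) k m +
      ((if (a : ℕ) < k ∧ m ≤ (z a : ℕ) then 1 else 0) +
        (if (b : ℕ) < k ∧ m ≤ (z b : ℕ) then 1 else 0)) =
    cnt z k m +
      ((if (b : ℕ) < k ∧ m ≤ (z a : ℕ) then 1 else 0) +
        (if (a : ℕ) < k ∧ m ≤ (z b : ℕ) then 1 else 0)) := by
  have key : ∀ F : Fin n → ℕ, ∑ i, F i = F a + (F b + ∑ i ∈ (univ.erase a).erase b, F i) := by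
    intro F
    rw [← Finset.add_sum_erase univ F (mem_univ a),
      ← Finset.add_sum_erase (univ.erase a) F (mem_erase.mpr ⟨hab.symm, mem_univ b⟩)]
  rw [cnt_eq_sum, cnt_eq_sum, key, key]
  have h : ∑ i ∈ (univ.erase a).erase b,
      (if (i : ℕ) < k ∧ m ≤ ((z * Equiv.swap a b) i : ℕ) then 1 else 0) =
      ∑ i ∈ (univ.erase a).erase b, (if (i : ℕ) < k ∧ m ≤ (z i : ℕ) then 1 else 0) := by
    refine Finset.sum_congr rfl fun i hi => ?_
    rw [mem_erase, mem_erase] at hi
    rw [Equiv.Perm.mul_apply, Equiv.swap_apply_of_ne_of_ne hi.2.1 hi.1]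
  rw [h]
  simp only [Equiv.Perm.mul_apply, Equiv.swap_apply_left, Equiv.swap_apply_right]
  omega

theorem step_tabLE {u w : Equiv.Perm (Fin n)} (h : BruhatStep u w) : TabLE u w := by
  obtain ⟨a, b, hab, huab, rfl⟩ := h
  intro k m
  have h1 := cnt_swap u hab.ne k m
  have h2 : (a : ℕ) < b := hab
  have h3 : (u a : ℕ) < u b := huab
  by_cases c1 : (a : ℕ) < k <;> by_cases c2 : (b : ℕ) < k <;> by_cases c3 : m ≤ (u a : ℕ) <;>
    by_cases c4 : m ≤ (u b : ℕ) <;> simp only [c1, c2, c3, c4, and_self, if_true, if_false,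
      and_true, and_false] at h1 <;> omega

theorem step_strict {u w : Equiv.Perm (Fin n)} (h : BruhatStep u w) :
    ∃ k ≤ n, ∃ m ≤ n, cnt u k m < cnt w k m := by
  obtain ⟨a, b, hab, huab, rfl⟩ := h
  refine ⟨a + 1, a.isLt, u b, (u b).isLt.le, ?_⟩
  have h1 := cnt_swap u hab.ne ((a : ℕ) + 1) (u b)
  have h2 : (a : ℕ) < b := hab
  have h3 : (u a : ℕ) < u b := huab
  have c1 : (a : ℕ) < a + 1 := by omega
  have c2 : ¬ (b : ℕ) < a + 1 := by omega
  have c3 : ¬ (u b : ℕ) ≤ u a := by omega
  simp only [c1, c2, c3, le_refl, and_self, if_true, if_false, and_true, and_false] at h1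
  omega

/-- a measure for the tableau order -/
def wt (z : Equiv.Perm (Fin n)) : ℕ := ∑ k ∈ range (n + 1), ∑ m ∈ range (n + 1), cnt z k m

theorem wt_lt_of {u w : Equiv.Perm (Fin n)} (h : TabLE u w)
    (hs : ∃ k ≤ n, ∃ m ≤ n, cnt u k m < cnt w k m) : wt u < wt w := by
  obtain ⟨k, hk, m, hm, hlt⟩ := hs
  unfold wt
  apply Finset.sum_lt_sum
  · intro k _; exact Finset.sum_le_sum fun m _ => h k m
  · refine ⟨k, by simp; omega, ?_⟩
    apply Finset.sum_lt_sum
    · intro m _; exact h k m
    · exact ⟨m, by simp; omega, hlt⟩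

theorem cnt_split (w : Equiv.Perm (Fin n)) (a : Fin n) {k : ℕ} (hk : (a : ℕ) < k) (m : ℕ) :
    cnt w k m = (univ.filter fun i : Fin n => i < a ∧ m ≤ (w i : ℕ)).card +
      (if m ≤ (w a : ℕ) then 1 else 0) +
      (univ.filter fun i : Fin n => a < i ∧ (i : ℕ) < k ∧ m ≤ (w i : ℕ)).card := by
  rw [cnt_eq_sum, Finset.card_filter, Finset.card_filter]
  have h : (if m ≤ (w a : ℕ) then 1 else 0) =
      ∑ i : Fin n, if i = a then (if m ≤ (w i : ℕ) then 1 else 0) else 0 := by
    simp
  rw [h, ← Finset.sum_add_distrib, ← Finset.sum_add_distrib]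
  refine Finset.sum_congr rfl fun i _ => ?_
  rcases lt_trichotomy i a with hi | hi | hi
  · have h1 : (i : ℕ) < k := lt_trans (by exact hi) hk
    have h2 : i ≠ a := hi.ne
    have h3 : ¬ a < i := not_lt.mpr hi.le
    simp [hi, h1, h2, h3]
  · subst hi; simp [hk]
  · have h2 : i ≠ a := hi.ne'
    have h3 : ¬ i < a := not_lt.mpr hi.le
    simp [hi, h2, h3]

/-- chain property -/
theorem exists_step {u z : Equiv.Perm (Fin n)} (h : TabLE u z) (hne : u ≠ z) :
    ∃ a b : Fin n, a < b ∧ z b < z a ∧ TabLE u (z * Equiv.swap a b) := by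
  -- first position of difference
  have hex : ∃ a : Fin n, u a ≠ z a := by
    by_contra hcon
    push Not at hcon
    exact hne (Equiv.ext hcon)
  obtain ⟨a, ha, hamin⟩ : ∃ a : Fin n, u a ≠ z a ∧ ∀ i < a, u i = z i := by
    let s := univ.filter fun a : Fin n => u a ≠ z a
    have hs : s.Nonempty := by obtain ⟨a, ha⟩ := hex; exact ⟨a, by simp [s, ha]⟩
    refine ⟨s.min' hs, ?_, ?_⟩
    · have := s.min'_mem hs; simpa [s] using this
    · intro i hi
      by_contra hc
      have : s.min' hs ≤ i := s.min'_le i (by simp [s, hc])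
      exact absurd hi (not_lt.mpr this)
  have hC : ∀ m : ℕ, (univ.filter fun i : Fin n => i < a ∧ m ≤ (u i : ℕ)).card =
      (univ.filter fun i : Fin n => i < a ∧ m ≤ (z i : ℕ)).card := by
    intro m
    congr 1
    ext i
    simp only [mem_filter, mem_univ, true_and]
    constructor
    · rintro ⟨h1, h2⟩; exact ⟨h1, by rw [← hamin i h1]; exact h2⟩
    · rintro ⟨h1, h2⟩; exact ⟨h1, by rw [hamin i h1]; exact h2⟩
  have hua : u a < z a := by
    have h1 := h ((a : ℕ) + 1) (u a)
    rw [cnt_split u a (by omega), cnt_split z a (by omega), hC] at h1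
    have e : ∀ w : Equiv.Perm (Fin n), (univ.filter fun i : Fin n => a < i ∧ (i : ℕ) < (a : ℕ) + 1 ∧
        (u a : ℕ) ≤ (w i : ℕ)) = ∅ := by
      intro w
      ext i
      simp only [mem_filter, mem_univ, true_and, notMem_empty, iff_false]
      rintro ⟨h1, h2, _⟩
      have : (a : ℕ) < i := h1
      omega
    rw [e, e] at h1
    simp only [le_refl, if_true, card_empty, add_zero] at h1
    by_cases h2 : (u a : ℕ) ≤ z a
    · exact lt_of_le_of_ne h2 ha
    · simp [h2] at h1
  -- position of exchange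
  obtain ⟨b, hab, hb1, hb2, hbmin⟩ : ∃ b : Fin n, a < b ∧ u a ≤ z b ∧ z b < z a ∧
      ∀ j, a < j → j < b → ¬ (u a ≤ z j ∧ z j < z a) := by
    let s := univ.filter fun b : Fin n => a < b ∧ u a ≤ z b ∧ z b < z a
    have hs : s.Nonempty := by
      refine ⟨z.symm (u a), ?_⟩
      simp only [s, mem_filter, mem_univ, true_and, Equiv.apply_symm_apply, le_refl, hua, and_true]
      rcases lt_trichotomy a (z.symm (u a)) with h1 | h1 | h1
      · exact h1
      · exfalso
        apply ha
        rw [h1]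
        simp
        rw [← h1]
      · exfalso
        have h2 := hamin _ h1
        simp only [Equiv.apply_symm_apply] at h2
        have h3 := u.injective h2
        rw [h3] at h1
        exact lt_irrefl _ h1
    have hm := s.min'_mem hs
    simp only [s, mem_filter, mem_univ, true_and] at hm
    refine ⟨s.min' hs, hm.1, hm.2.1, hm.2.2, ?_⟩
    intro j hj1 hj2 hj3
    have : s.min' hs ≤ j := s.min'_le j (by simp only [s, mem_filter, mem_univ, true_and]; exact ⟨hj1, hj3⟩)
    exact absurd hj2 (not_lt.mpr this)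
  refine ⟨a, b, hab, hb2, ?_⟩
  intro k m
  have h1 := cnt_swap z hab.ne k m
  have habn : (a : ℕ) < b := hab
  have hb2n : (z b : ℕ) < z a := hb2
  have hb1n : (u a : ℕ) ≤ z b := hb1
  have h0 := h k m
  by_cases c1 : (a : ℕ) < k
  · by_cases c2 : (b : ℕ) < k
    · by_cases c3 : m ≤ (z a : ℕ) <;> by_cases c4 : m ≤ (z b : ℕ) <;>
        simp only [c1, c2, c3, c4, and_self, if_true, if_false, and_true, and_false] at h1 <;> omega
    · by_cases c3 : m ≤ (z a : ℕ)
      · by_cases c4 : m ≤ (z b : ℕ)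
        · simp only [c1, c2, c3, c4, and_self, if_true, if_false, and_true, and_false,
            false_and] at h1
          omega
        · simp only [c1, c2, c3, c4, and_self, if_true, if_false, and_true, and_false,
            false_and] at h1
          -- need cnt u k m + 1 ≤ cnt z k m
          have h2 := h k (u a)
          rw [cnt_split u a c1, cnt_split z a c1, hC] at h2
          have h3 : (u a : ℕ) ≤ z a := hua.le
          simp only [le_refl, if_true, h3] at h2
          have h4 : (univ.filter fun i : Fin n => a < i ∧ (i : ℕ) < k ∧ m ≤ (u i : ℕ)).card ≤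
              (univ.filter fun i : Fin n => a < i ∧ (i : ℕ) < k ∧ (u a : ℕ) ≤ (u i : ℕ)).card := by
            apply Finset.card_le_card
            intro i
            simp only [mem_filter, mem_univ, true_and]
            rintro ⟨h5, h6, h7⟩
            exact ⟨h5, h6, by omega⟩
          have h5 : (univ.filter fun i : Fin n => a < i ∧ (i : ℕ) < k ∧ (u a : ℕ) ≤ (z i : ℕ)).card ≤
              (univ.filter fun i : Fin n => a < i ∧ (i : ℕ) < k ∧ m ≤ (z i : ℕ)).card := by
            apply Finset.card_le_card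
            intro i
            simp only [mem_filter, mem_univ, true_and]
            rintro ⟨h5, h6, h7⟩
            refine ⟨h5, h6, ?_⟩
            have h8 := hbmin i h5 (by
              show (i : ℕ) < b
              omega)
            have h9 : ¬ (z i : ℕ) < z a := fun h10 => h8 ⟨h7, h10⟩
            omega
          have h6 := cnt_split u a c1 m
          have h7 := cnt_split z a c1 m
          rw [hC] at h6
          have c5 : ¬ m ≤ (u a : ℕ) := by omega
          simp only [c3, c5, if_true, if_false] at h6 h7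
          omega
      · have c4 : ¬ m ≤ (z b : ℕ) := by omega
        simp only [c1, c2, c3, c4, and_self, if_true, if_false, and_true, and_false,
          false_and] at h1
        omega
  · have c2 : ¬ (b : ℕ) < k := by omega
    simp only [c1, c2, false_and, if_false] at h1
    omega

theorem swap_step {z : Equiv.Perm (Fin n)} {a b : Fin n} (hab : a < b) (h : z b < z a) :
    BruhatStep (z * Equiv.swap a b) z := by
  refine ⟨a, b, hab, ?_, ?_⟩
  · simpa using h
  · rw [mul_assoc, Equiv.swap_mul_self, mul_one]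

theorem tabLE_iff {u z : Equiv.Perm (Fin n)} : TabLE u z ↔ BruhatLE u z := by
  constructor
  · intro h
    induction hw : wt z using Nat.strong_induction_on generalizing z with
    | _ N ih =>
      by_cases hne : u = z
      · subst hne; exact Relation.ReflTransGen.refl
      · obtain ⟨a, b, hab, hz, h1⟩ := exists_step h hne
        have hs := swap_step hab hz
        have hlt := wt_lt_of (step_tabLE hs) (step_strict hs)
        exact Relation.ReflTransGen.tail (ih _ (by omega) h1 rfl) hs
  · intro h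
    induction h with
    | refl => exact TabLE.refl _
    | tail _ h2 ih => exact ih.trans (step_tabLE h2)

theorem wt_lt {u z : Equiv.Perm (Fin n)} (h : TabLE u z) (hne : u ≠ z) : wt u < wt z := by
  obtain ⟨a, b, hab, hz, h1⟩ := exists_step h hne
  have hs := swap_step hab hz
  have hlt := wt_lt_of (step_tabLE hs) (step_strict hs)
  refine lt_of_le_of_lt ?_ hlt
  unfold wt
  exact Finset.sum_le_sum fun k _ => Finset.sum_le_sum fun m _ => h1 k m

end Pool.Agent.H55.Cell
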