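import Pool.Agent.H55.Cell.Rel
import Pool.Agent.H55.Cell.Tab

/-!
# Linear algebra of flag minors: kernels, exchange, echelon form
-/

namespace Pool.Agent.H55.Cell

open Finset

variable {n : ℕ}

/-- linear combination of the first `k` columns -/
def comb (G : Fin n → ℕ → ℝ) (k : ℕ) (c : ℕ → ℝ) (r : Fin n) : ℝ := ∑ l ∈ range k, c l * G r l

theorem pl_eq_zero_iff (G : Fin n → ℕ → ℝ) {J : Finset (Fin n)} {k : ℕ} (hJ : J.card = k) :
    pl G J = 0 ↔ ∃ c : ℕ → ℝ, (∃ l < k, c l ≠ 0) ∧ ∀ r ∈ J, comb G k c r = 0 := by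
  rw [pl_eq G hJ]
  unfold mt
  rw [← Matrix.exists_mulVec_eq_zero_iff]
  constructor
  · rintro ⟨v, hv0, hv⟩
    refine ⟨fun l => if h : l < k then v ⟨l, h⟩ else 0, ?_, ?_⟩
    · obtain ⟨i, hi⟩ := Function.ne_iff.mp hv0
      exact ⟨i, i.isLt, by simpa using hi⟩
    · intro r hr
      obtain ⟨i, rfl⟩ : ∃ i, J.orderEmbOfFin hJ i = r := by
        have : r ∈ Set.range (J.orderEmbOfFin hJ) := by
          rw [Finset.range_orderEmbOfFin]; exact hr
        exact this
      have h1 := congrFun hv i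
      rw [Matrix.mulVec, dotProduct] at h1
      simp only [Matrix.of_apply, Pi.zero_apply] at h1
      unfold comb
      rw [Finset.sum_range, ← h1]
      refine Finset.sum_congr rfl fun l _ => ?_
      simp [mul_comm]
  · rintro ⟨c, ⟨l, hl, hcl⟩, hc⟩
    refine ⟨fun i => c i, ?_, ?_⟩
    · intro h
      exact hcl (congrFun h ⟨l, hl⟩)
    · ext i
      rw [Matrix.mulVec, dotProduct]
      simp only [Matrix.of_apply, Pi.zero_apply]
      have h1 := hc _ (J.orderEmbOfFin_mem hJ i)
      unfold comb at h1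
      rw [Finset.sum_range] at h1
      rw [← h1]
      refine Finset.sum_congr rfl fun l _ => ?_
      ring

/-- Laplace expansion for sets -/
theorem pl_laplace {L : Finset (Fin n)} {k : ℕ} (hL : L.card = k + 1) :
    ∃ ε : Fin n → ℝ, (∀ w, ε w ≠ 0) ∧ ∀ G : Fin n → ℕ → ℝ,
      pl G L = ∑ w ∈ L, ε w * G w k * pl G (L.erase w) := by
  classical
  let s := L.orderIsoOfFin hL
  refine ⟨fun w => if h : w ∈ L then (-1) ^ (((s.symm ⟨w, h⟩ : Fin (k + 1)) : ℕ) + k) else 1,
    ?_, ?_⟩
  · intro w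
    dsimp only
    split_ifs
    · exact pow_ne_zero _ (by norm_num)
    · exact one_ne_zero
  · intro G
    rw [pl_eq G hL, mt_succ, ← Finset.sum_coe_sort L]
    refine Fintype.sum_equiv s.toEquiv _ _ fun i => ?_
    have hmem : ((s i : L) : Fin n) ∈ L := (s i).2
    have h1 : (L.orderEmbOfFin hL i) = ((s i : L) : Fin n) := by
      rw [Finset.coe_orderIsoOfFin_apply]
    have h2 : s.symm ⟨((s i : L) : Fin n), hmem⟩ = i := by
      simp
    have hcard : (L.erase ((s i : L) : Fin n)).card = k := by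
      rw [card_erase_of_mem hmem, hL]; omega
    have h3 : (⇑(L.orderEmbOfFin hL) ∘ i.succAbove) =
        ⇑((L.erase ((s i : L) : Fin n)).orderEmbOfFin hcard) := by
      apply Finset.orderEmbOfFin_unique hcard
      · intro x
        rw [mem_erase]
        refine ⟨?_, L.orderEmbOfFin_mem hL _⟩
        rw [← h1]
        intro h
        exact Fin.succAbove_ne i x ((L.orderEmbOfFin hL).injective h)
      · exact (L.orderEmbOfFin hL).strictMono.comp (Fin.strictMono_succAbove i)
    simp only [RelIso.coe_fn_toEquiv, hmem, dif_pos]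
    rw [h2, pl_eq G hcard, h3, h1]

/-- dependency between the rows of `L` -/
theorem dependency {L : Finset (Fin n)} {k : ℕ} (hL : L.card = k + 1) :
    ∃ ε : Fin n → ℝ, (∀ w, ε w ≠ 0) ∧ ∀ G : Fin n → ℕ → ℝ, ∀ j < k,
      ∑ w ∈ L, ε w * G w j * pl G (L.erase w) = 0 := by
  obtain ⟨ε, hε, h⟩ := pl_laplace hL
  refine ⟨ε, hε, fun G j hj => ?_⟩
  let G' : Fin n → ℕ → ℝ := fun r l => if l = k then G r j else G r l
  have h1 := h G'
  have h2 : pl G' L = 0 := by
    rw [pl_eq_zero_iff G' hL]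
    refine ⟨fun l => if l = j then 1 else if l = k then -1 else 0, ⟨j, by omega, by simp⟩, ?_⟩
    intro r _
    unfold comb
    have h3 : ∀ l ∈ range (k + 1), (if l = j then (1 : ℝ) else if l = k then -1 else 0) * G' r l =
        (if l = j then G r j else 0) + (if l = k then - G r j else 0) := by
      intro l _
      by_cases h4 : l = j
      · subst h4
        have : l ≠ k := hj.ne
        simp [G', this]
      · by_cases h5 : l = k
        · subst h5; simp [h4, G']
        · simp [h4, h5]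
    rw [Finset.sum_congr rfl h3, Finset.sum_add_distrib, Finset.sum_ite_eq' (range (k + 1)) j,
      Finset.sum_ite_eq' (range (k + 1)) k]
    have h6 : j ∈ range (k + 1) := by simp; omega
    have h7 : k ∈ range (k + 1) := by simp
    simp [h6, h7]
  rw [h2] at h1
  rw [h1]
  refine Finset.sum_congr rfl fun w hw => ?_
  have hcard : (L.erase w).card = k := by rw [card_erase_of_mem hw, hL]; omega
  have h3 : pl G' (L.erase w) = pl G (L.erase w) := by
    rw [pl_eq _ hcard, pl_eq _ hcard]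
    apply mt_congr
    intro r l hl
    simp [G', hl.ne]
  rw [h3]
  simp [G']

/-- exchange property -/
theorem exchange (G : Fin n → ℕ → ℝ) {J V : Finset (Fin n)} (hc : J.card = V.card)
    (hJ : pl G J ≠ 0) (hV : pl G V ≠ 0) {y : Fin n} (hy : y ∈ V) (hyJ : y ∉ J) :
    ∃ x ∈ J, x ∉ V ∧ pl G (insert y (J.erase x)) ≠ 0 := by
  by_contra hcon
  push Not at hcon
  have hL : (insert y J).card = V.card + 1 := by rw [card_insert_of_notMem hyJ, hc]
  obtain ⟨ε, hε, hdep⟩ := dependency hL
  -- row dependency supported in V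
  apply hV
  rw [pl_eq G rfl]
  unfold mt
  rw [← Matrix.exists_vecMul_eq_zero_iff]
  let d : Fin n → ℝ := fun w => if w ∈ insert y J then ε w * pl G ((insert y J).erase w) else 0
  have hdV : ∀ w, w ∉ V → d w = 0 := by
    intro w hw
    simp only [d]
    split_ifs with h
    · rcases mem_insert.mp h with rfl | h
      · exact absurd hy hw
      · have h1 : (insert y J).erase w = insert y (J.erase w) := by
          rw [Finset.erase_insert_of_ne]
          rintro rfl; exact hyJ h
        rw [h1, hcon w h hw, mul_zero]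
    · rfl
  have hdy : d y ≠ 0 := by
    simp only [d, mem_insert_self, if_true, erase_insert hyJ]
    exact mul_ne_zero (hε y) hJ
  have hsum : ∀ j < V.card, ∑ w ∈ V, d w * G w j = 0 := by
    intro j hj
    have h1 := hdep G j hj
    have h2 : ∑ w ∈ insert y J, ε w * G w j * pl G ((insert y J).erase w) =
        ∑ w ∈ insert y J, d w * G w j := by
      refine Finset.sum_congr rfl fun w hw => ?_
      simp only [d, hw, if_true]
      ring
    rw [h2] at h1
    have h3 : ∑ w ∈ insert y J, d w * G w j = ∑ w, d w * G w j := by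
      apply Finset.sum_subset (subset_univ _)
      intro w _ hw
      rw [show d w = 0 from if_neg hw, zero_mul]
    have h4 : ∑ w ∈ V, d w * G w j = ∑ w, d w * G w j := by
      apply Finset.sum_subset (subset_univ _)
      intro w _ hw
      rw [hdV w hw, zero_mul]
    rw [h4, ← h3, h1]
  refine ⟨fun i => d (V.orderEmbOfFin rfl i), ?_, ?_⟩
  · intro h
    obtain ⟨i, hi⟩ : ∃ i, V.orderEmbOfFin rfl i = y := by
      have : y ∈ Set.range (V.orderEmbOfFin rfl) := by
        rw [Finset.range_orderEmbOfFin]; exact hy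
      exact this
    have h1 := congrFun h i
    simp only [hi, Pi.zero_apply] at h1
    exact hdy h1
  · ext j
    rw [Matrix.vecMul, dotProduct]
    simp only [Matrix.of_apply, Pi.zero_apply]
    rw [← hsum j j.isLt, ← Finset.sum_coe_sort V]
    refine Fintype.sum_equiv (V.orderIsoOfFin rfl).toEquiv _ _ fun i => ?_
    simp

/-- echelon form: column `κ` has its last nonzero entry in row `v κ` -/
def Ech (G : Fin n → ℕ → ℝ) (v : Equiv.Perm (Fin n)) : Prop :=
  ∀ κ : Fin n, G (v κ) κ ≠ 0 ∧ ∀ i, v κ < i → G i κ = 0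

theorem Ech.exists_ne {G : Fin n → ℕ → ℝ} {v : Equiv.Perm (Fin n)} (h : Ech G v) {k : ℕ}
    (hk : k ≤ n) {c : ℕ → ℝ} (hc : ∃ l < k, c l ≠ 0) :
    ∃ l : Fin n, (l : ℕ) < k ∧ c l ≠ 0 ∧ comb G k c (v l) ≠ 0 ∧
      ∀ l' : Fin n, (l' : ℕ) < k → c l' ≠ 0 → v l' ≤ v l := by
  classical
  let s := univ.filter fun l : Fin n => (l : ℕ) < k ∧ c l ≠ 0
  have hs : s.Nonempty := by
    obtain ⟨l, hl, hcl⟩ := hc
    exact ⟨⟨l, by omega⟩, by simp only [s, mem_filter, mem_univ, true_and]; exact ⟨hl, hcl⟩⟩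
  obtain ⟨l, hl, hmax⟩ := s.exists_max_image (fun l => v l) hs
  simp only [s, mem_filter, mem_univ, true_and] at hl hmax
  refine ⟨l, hl.1, hl.2, ?_, fun l' h1 h2 => hmax l' ⟨h1, h2⟩⟩
  unfold comb
  rw [Finset.sum_eq_single (l : ℕ)]
  · exact mul_ne_zero hl.2 (h l).1
  · intro j hj hjl
    by_cases hcj : c j = 0
    · rw [hcj, zero_mul]
    · have hjk := Finset.mem_range.mp hj
      let j' : Fin n := ⟨j, by omega⟩
      have h1 : v j' ≤ v l := hmax j' ⟨hjk, hcj⟩
      have h2 : j' ≠ l := fun h => hjl (by rw [← h])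
      have h3 : v j' < v l := lt_of_le_of_ne h1 fun h => h2 (v.injective h)
      have h4 := (h j').2 _ h3
      rw [show G (v l) j = 0 from h4, mul_zero]
  · intro hl'
    exact absurd (Finset.mem_range.mpr hl.1) hl'

theorem Ech.pl_pre {G : Fin n → ℕ → ℝ} {v : Equiv.Perm (Fin n)} (h : Ech G v) {k : ℕ}
    (hk : k ≤ n) : pl G (pre v k) ≠ 0 := by
  intro h0
  rw [pl_eq_zero_iff G (card_pre v hk)] at h0
  obtain ⟨c, hc, hc0⟩ := h0
  obtain ⟨l, hl, _, hne, _⟩ := h.exists_ne hk hc
  exact hne (hc0 _ (apply_mem_pre.mpr hl))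

theorem Ech.hi_le {G : Fin n → ℕ → ℝ} {v : Equiv.Perm (Fin n)} (h : Ech G v)
    {J : Finset (Fin n)} (hJ : pl G J ≠ 0) (m : ℕ) : hi J m ≤ hi (pre v J.card) m := by
  classical
  by_contra hcon
  push Not at hcon
  apply hJ
  have hJn : J.card ≤ n := by simpa using J.card_le_univ
  rw [pl_eq_zero_iff G rfl]
  -- columns with v κ < m, rows of J below m
  let S := univ.filter fun κ : Fin n => (κ : ℕ) < J.card ∧ (v κ : ℕ) < m
  let T := J.filter fun i : Fin n => (i : ℕ) < m
  have hT : T.card + hi J m = J.card := by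
    unfold hi
    rw [← Finset.card_filter_add_card_filter_not (s := J) (fun i : Fin n => (i : ℕ) < m)]
    simp only [not_lt, T]
  have hS : S.card + hi (pre v J.card) m = J.card := by
    rw [hi_pre]
    unfold cnt
    have h1 : (univ.filter fun κ : Fin n => (κ : ℕ) < J.card).card = J.card := by
      have e : (univ.filter fun κ : Fin n => (κ : ℕ) < J.card) =
          pre (Equiv.refl (Fin n)) J.card := by
        ext i; simp [pre]
      rw [e]; exact card_pre _ hJn
    have h2 := Finset.card_filter_add_card_filter_not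
      (s := univ.filter fun κ : Fin n => (κ : ℕ) < J.card) (fun κ : Fin n => (v κ : ℕ) < m)
    rw [Finset.filter_filter, Finset.filter_filter, h1] at h2
    simpa only [not_lt, S] using h2
  have hlt : T.card < S.card := by omega
  let φ : (S → ℝ) →ₗ[ℝ] (T → ℝ) := Matrix.mulVecLin (Matrix.of fun (i : T) (κ : S) => G i (κ : Fin n))
  have hker : LinearMap.ker φ ≠ ⊥ := by
    apply LinearMap.ker_ne_bot_of_finrank_lt
    simpa using hlt
  obtain ⟨w, hw, hw0⟩ := Submodule.exists_mem_ne_zero_of_ne_bot hker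
  obtain ⟨κ0, hκ0⟩ := Function.ne_iff.mp hw0
  let c : ℕ → ℝ := fun l => if h : ∃ κ : S, ((κ : Fin n) : ℕ) = l then w h.choose else 0
  have hcκ : ∀ κ : S, c ((κ : Fin n) : ℕ) = w κ := by
    intro κ
    have hex : ∃ κ' : S, ((κ' : Fin n) : ℕ) = ((κ : Fin n) : ℕ) := ⟨κ, rfl⟩
    simp only [c, dif_pos hex]
    congr 1
    exact Subtype.ext (Fin.ext hex.choose_spec)
  have hc0 : ∀ l, (¬ ∃ κ : S, ((κ : Fin n) : ℕ) = l) → c l = 0 := by
    intro l hl
    simp only [c, dif_neg hl]
  have hmemS : ∀ κ : S, ((κ : Fin n) : ℕ) < J.card ∧ (v (κ : Fin n) : ℕ) < m := by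
    intro κ
    have := κ.2
    simp only [S, mem_filter, mem_univ, true_and] at this
    exact this
  have hcomb : ∀ r : Fin n, comb G J.card c r = ∑ κ : S, w κ * G r (κ : Fin n) := by
    intro r
    unfold comb
    have h1 : ∑ κ : S, w κ * G r (κ : Fin n) =
        ∑ κ ∈ S, c (κ : ℕ) * G r κ := by
      rw [← Finset.sum_coe_sort S (fun κ : Fin n => c (κ : ℕ) * G r κ)]
      refine Finset.sum_congr rfl fun κ _ => ?_
      rw [hcκ]
    rw [h1]
    symm
    have h2 : ∑ κ ∈ S, c (κ : ℕ) * G r κ = ∑ l ∈ S.image (fun κ : Fin n => (κ : ℕ)), c l * G r l := by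
      rw [Finset.sum_image]
      intro a _ b _ hab
      exact Fin.ext hab
    rw [h2]
    apply Finset.sum_subset
    · intro l hl
      obtain ⟨κ, hκ, rfl⟩ := mem_image.mp hl
      simp only [S, mem_filter, mem_univ, true_and] at hκ
      simpa using hκ.1
    · intro l _ hl
      rw [hc0 l, zero_mul]
      rintro ⟨κ, rfl⟩
      exact hl (mem_image.mpr ⟨κ, κ.2, rfl⟩)
  refine ⟨c, ⟨((κ0 : Fin n) : ℕ), (hmemS κ0).1, by rw [hcκ]; exact hκ0⟩, ?_⟩
  intro r hr
  rw [hcomb]
  by_cases hrm : (r : ℕ) < m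
  · have hrT : r ∈ T := by simp only [T, mem_filter]; exact ⟨hr, hrm⟩
    have h1 := congrFun (LinearMap.mem_ker.mp hw) ⟨r, hrT⟩
    simp only [φ, Matrix.mulVecLin_apply, Matrix.mulVec, dotProduct, Matrix.of_apply,
      Pi.zero_apply] at h1
    rw [← h1]
    exact Finset.sum_congr rfl fun κ _ => mul_comm _ _
  · apply Finset.sum_eq_zero
    intro κ _
    have h1 : v (κ : Fin n) < r := by
      show (v (κ : Fin n) : ℕ) < r
      have := (hmemS κ).2
      omega
    rw [(h (κ : Fin n)).2 r h1, mul_zero]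

theorem Ech.tabLE {G : Fin n → ℕ → ℝ} {v : Equiv.Perm (Fin n)} (h : Ech G v)
    {z : Equiv.Perm (Fin n)} (hz : z ∈ Supp G) : TabLE z v := by
  apply tabLE_of
  intro k hk m
  have h1 := h.hi_le (hz k hk.le) m
  rwa [card_pre z hk.le, hi_pre, hi_pre] at h1

theorem Ech.mem_supp {G : Fin n → ℕ → ℝ} {v : Equiv.Perm (Fin n)} (h : Ech G v) :
    v ∈ Supp G := fun _ hk => h.pl_pre hk

/-- existence of an echelon form -/
theorem exists_ech {G : Fin n → ℕ → ℝ} (hG : pl G univ ≠ 0) :
    ∃ (G' : Fin n → ℕ → ℝ) (v : Equiv.Perm (Fin n)), (∀ J, pl G' J = pl G J) ∧ Ech G' v := by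
  classical
  have hnz : ∀ (κ : Fin n) (c : ℕ → ℝ), ¬ ∀ i : Fin n, G i κ + ∑ l ∈ range (κ : ℕ), G i l * c l = 0 := by
    intro κ c hc
    apply hG
    rw [pl_eq_zero_iff G (J := univ) (k := n) (by simp)]
    refine ⟨fun l => if l < κ then c l else if l = κ then 1 else 0, ⟨κ, κ.isLt, by simp⟩, ?_⟩
    intro r _
    unfold comb
    refine Eq.trans ?_ (hc r)
    have h1 : ∀ l ∈ range n, (if l < (κ : ℕ) then c l else if l = κ then 1 else 0) * G r l =
        (if l = (κ : ℕ) then G r κ else 0) + (if l < (κ : ℕ) then G r l * c l else 0) := by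
      intro l _
      by_cases h1 : l < κ
      · simp [h1, h1.ne, mul_comm]
      · by_cases h2 : l = κ
        · subst h2; simp
        · simp [h1, h2]
    rw [Finset.sum_congr rfl h1, Finset.sum_add_distrib, Finset.sum_ite_eq' (range n) (κ : ℕ),
      if_pos (by simp), ← Finset.sum_filter]
    congr 1
    apply Finset.sum_congr _ fun _ _ => rfl
    ext l
    simp only [mem_filter, mem_range]
    have := κ.isLt
    constructor
    · rintro ⟨_, h⟩; exact h
    · intro h; exact ⟨by omega, h⟩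
  have hex : ∀ κ : Fin n, ∃ m : ℕ, ∃ c : ℕ → ℝ, ∀ i : Fin n, m ≤ (i : ℕ) →
      G i κ + ∑ l ∈ range (κ : ℕ), G i l * c l = 0 := by
    intro κ
    exact ⟨n, fun _ => 0, fun i hi => absurd i.isLt (by omega)⟩
  let N : Fin n → ℕ := fun κ => Nat.find (hex κ)
  have hN := fun κ => Nat.find_spec (hex κ)
  choose c hc using hN
  have hNmin : ∀ κ, ∀ m < N κ, ¬ ∃ c : ℕ → ℝ, ∀ i : Fin n, m ≤ (i : ℕ) →
      G i κ + ∑ l ∈ range (κ : ℕ), G i l * c l = 0 := fun κ m hm => Nat.find_min (hex κ) hm
  have hNle : ∀ κ, N κ ≤ n := fun κ => Nat.find_le ⟨fun _ => 0, fun i hi => absurd i.isLt (by omega)⟩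
  have hN0 : ∀ κ, 0 < N κ := by
    intro κ
    by_contra h0
    have h1 : N κ = 0 := by omega
    apply hnz κ (c κ)
    intro i
    apply hc κ i
    have h2 : Nat.find (hex κ) = 0 := h1
    omega
  let G' : Fin n → ℕ → ℝ := fun r j => if h : j < n then
    G r j + ∑ l ∈ range j, G r l * c ⟨j, h⟩ l else G r j
  have hG'κ : ∀ (r κ : Fin n), G' r κ = G r κ + ∑ l ∈ range (κ : ℕ), G r l * c κ l := by
    intro r κ
    simp [G', κ.isLt]
  let vf : Fin n → Fin n := fun κ => ⟨N κ - 1, by have := hN0 κ; have := hNle κ; omega⟩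
  have hz : ∀ κ i : Fin n, N κ ≤ (i : ℕ) → G' i κ = 0 := by
    intro κ i hi
    rw [hG'κ]
    exact hc κ i hi
  have hnev : ∀ κ, G' (vf κ) κ ≠ 0 := by
    intro κ h0
    apply hNmin κ (N κ - 1) (by have := hN0 κ; omega)
    refine ⟨c κ, fun i hi => ?_⟩
    rw [← hG'κ]
    rcases Nat.lt_or_ge (i : ℕ) (N κ) with h1 | h1
    · have h2 : i = vf κ := Fin.ext (by simp only [vf]; omega)
      rw [h2]; exact h0
    · exact hz κ i h1
  have key : ∀ κ κ' : Fin n, κ < κ' → vf κ ≠ vf κ' := by
    intro κ κ' hlt heq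
    have hNN : N κ = N κ' := by
      have := congrArg (fun x : Fin n => (x : ℕ)) heq
      simp only [vf] at this
      have := hN0 κ; have := hN0 κ'; omega
    apply hNmin κ' (N κ' - 1) (by have := hN0 κ'; omega)
    set t : ℝ := G' (vf κ') κ' / G' (vf κ) κ with ht
    have hκκ : (κ : ℕ) < κ' := hlt
    refine ⟨fun l => c κ' l - t * (if l < κ then c κ l else if l = κ then 1 else 0), fun i hi => ?_⟩
    have h1 : G i κ' + ∑ l ∈ range (κ' : ℕ), G i l *
        (c κ' l - t * (if l < κ then c κ l else if l = κ then 1 else 0)) =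
        G' i κ' - t * G' i κ := by
      rw [hG'κ, hG'κ]
      have h2 : ∀ l ∈ range (κ' : ℕ), G i l *
          (c κ' l - t * (if l < (κ : ℕ) then c κ l else if l = κ then 1 else 0)) =
          G i l * c κ' l - t * ((if l = (κ : ℕ) then G i κ else 0) +
            (if l < (κ : ℕ) then G i l * c κ l else 0)) := by
        intro l _
        by_cases h1 : l < κ
        · simp [h1, h1.ne]; ring
        · by_cases h2 : l = κ
          · subst h2; simp; ring
          · simp [h1, h2]
      rw [Finset.sum_congr rfl h2, Finset.sum_sub_distrib, ← Finset.mul_sum,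
        Finset.sum_add_distrib, Finset.sum_ite_eq' (range (κ' : ℕ)) (κ : ℕ),
        if_pos (by simpa using hκκ), ← Finset.sum_filter]
      have h3 : (range (κ' : ℕ)).filter (fun l => l < (κ : ℕ)) = range (κ : ℕ) := by
        ext l; simp only [mem_filter, mem_range]; omega
      rw [h3]
      ring
    rw [h1]
    rcases Nat.lt_or_ge (i : ℕ) (N κ') with h2 | h2
    · have h3 : i = vf κ' := Fin.ext (by simp only [vf]; omega)
      rw [h3, ht, heq]
      rw [← heq]
      have := hnev κ
      field_simp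
      ring
    · rw [hz κ' i h2, hz κ i (by omega)]; ring
  have hinj : Function.Injective vf := by
    intro κ κ' h
    rcases lt_trichotomy κ κ' with h1 | h1 | h1
    · exact absurd h (key κ κ' h1)
    · exact h1
    · exact absurd h.symm (key κ' κ h1)
  refine ⟨G', Equiv.ofBijective vf (Finite.injective_iff_bijective.mp hinj), ?_, ?_⟩
  · apply pl_unip (fun l j => if h : j < n then c ⟨j, h⟩ l else 0)
    intro r j hj
    simp only [G', hj, dif_pos]
  · intro κ
    refine ⟨hnev κ, fun i hi => hz κ i ?_⟩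
    have h1 : ((vf κ : Fin n) : ℕ) < i := hi
    simp only [vf] at h1
    have := hN0 κ
    omega

end Pool.Agent.H55.Cell
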