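import Pool.Agent.H55.Cell.Flag

/-!
# Every full-dimensional Bruhat interval polytope is a cell of a subdivision of the permutahedron
-/

namespace Pool.Agent.H55.Cell

open Finset

variable {n : ℕ}

theorem bip_eq_tab (u v : Equiv.Perm (Fin n)) :
    bip u v = convexHull ℝ (pt '' {w | TabLE u w ∧ TabLE w v}) := by
  unfold bip
  congr 2
  ext w
  show _ ∧ _ ↔ _ ∧ _
  rw [tabLE_iff, tabLE_iff]

theorem sum_pt (w : Equiv.Perm (Fin n)) :
    ∑ i, pt w i = ∑ i : Fin n, (((i : ℕ) : ℝ) + 1) :=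
  Equiv.sum_comp w (fun i : Fin n => ((i : ℕ) : ℝ) + 1)

theorem finrank_perm_le (hn : 0 < n) :
    Module.finrank ℝ (vectorSpan ℝ (permutahedron n)) + 1 ≤ n := by
  set s : Module.Dual ℝ (Fin n → ℝ) := (dl (fun _ => 1) : (Fin n → ℝ) →L[ℝ] ℝ).toLinearMap with hs
  have hs' : ∀ p, s p = ∑ i, p i := by
    intro p
    show dl (fun _ => 1) p = _
    rw [dl_apply]; simp
  have hle : vectorSpan ℝ (permutahedron n) ≤ LinearMap.ker s := by
    unfold permutahedron
    rw [vectorSpan_hull, vectorSpan_def, Submodule.span_le]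
    rintro _ ⟨_, ⟨w, rfl⟩, _, ⟨w', rfl⟩, rfl⟩
    show s (pt w -ᵥ pt w') = 0
    rw [vsub_eq_sub, map_sub, hs', hs', sum_pt, sum_pt, sub_self]
  have hsne : s ≠ 0 := by
    intro h0
    have h3 : (0 : ℝ) = (n : ℝ) := by
      have := hs' (fun _ => 1)
      rw [h0] at this
      simpa using this
    have h4 : 0 = n := by exact_mod_cast h3
    omega
  have h1 := Submodule.finrank_mono hle
  have h2 := Module.Dual.finrank_ker_add_one_of_ne_zero hsne
  rw [Module.finrank_fin_fun] at h2
  omega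

theorem bip_subset (u v : Equiv.Perm (Fin n)) : bip u v ⊆ permutahedron n :=
  convexHull_mono (Set.image_subset_range _ _)

theorem exists_subdivision {u v : Equiv.Perm (Fin n)} (h : BruhatLE u v)
    (hdim : FullDim (bip u v)) :
    ∃ 𝒮 : Set (Set (Fin n → ℝ)), IsBIPSubdivision 𝒮 ∧ bip u v ∈ 𝒮 := by
  obtain ⟨f, hf0, hf1, hf2⟩ := exists_height_pt (tabLE_iff.mpr h)
  have hn : 0 < n := by
    unfold FullDim at hdim; omega
  have hcell : ∀ y, ∃ a b : Equiv.Perm (Fin n), BruhatLE a b ∧ cell f pt y = bip a b := by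
    intro y
    obtain ⟨a, b, hab⟩ := hf2 y
    have hact : act f pt y = {w | TabLE a w ∧ TabLE w b} := by
      ext w
      rw [Set.mem_setOf_eq, ← hab w]
      unfold act
      rw [Set.mem_setOf_eq]
      simp only [dl_apply]
    obtain ⟨z, hz⟩ := exists_mem_act f pt y
    rw [hact] at hz
    refine ⟨a, b, tabLE_iff.mp (hz.1.trans hz.2), ?_⟩
    rw [bip_eq_tab]
    unfold cell
    rw [hact]
  have hcell0 : cell f pt 0 = bip u v := by
    have hact : act f pt 0 = {w | TabLE u w ∧ TabLE w v} := by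
      ext w
      rw [Set.mem_setOf_eq, ← hf1 w]
      unfold act
      rw [Set.mem_setOf_eq]
      simp only [dl_zero, sub_zero]
      constructor
      · intro h1
        have h2 := h1 u
        rw [(hf1 u).mpr ⟨TabLE.refl _, tabLE_iff.mpr h⟩] at h2
        exact le_antisymm h2 (hf0 w)
      · intro h1 z'
        rw [h1]; exact hf0 z'
    rw [bip_eq_tab]
    unfold cell
    rw [hact]
  have hsub : ∀ y, cell f pt y ⊆ permutahedron n := fun y =>
    convexHull_mono (Set.image_subset_range _ _)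
  have hP : Module.finrank ℝ (vectorSpan ℝ (permutahedron n)) + 1 = n := by
    apply le_antisymm (finrank_perm_le hn)
    have h1 := Submodule.finrank_mono (vectorSpan_mono ℝ (bip_subset u v))
    unfold FullDim at hdim
    omega
  refine ⟨{C | FullDim C ∧ ∃ y, C = cell f pt y}, ⟨?_, ?_, ?_, ?_⟩, hdim, 0, hcell0.symm⟩
  · refine Set.Finite.subset (Set.toFinite ((fun S : Set (Equiv.Perm (Fin n)) =>
      convexHull ℝ (pt '' S)) '' Set.univ)) ?_
    rintro _ ⟨-, y, rfl⟩
    exact ⟨act f pt y, trivial, rfl⟩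
  · rintro _ ⟨hC, y, rfl⟩
    obtain ⟨a, b, hab, he⟩ := hcell y
    exact ⟨hC, a, b, hab, he⟩
  · apply Set.Subset.antisymm
    · apply Set.sUnion_subset
      rintro _ ⟨-, y, rfl⟩
      exact hsub y
    · intro p hp
      obtain ⟨y, hfull, hpy⟩ := cover f pt hp
      refine ⟨cell f pt y, ⟨?_, y, rfl⟩, hpy⟩
      unfold FullDim cell
      rw [hfull.vectorSpan_eq]
      exact hP
  · rintro _ ⟨-, y, rfl⟩ _ ⟨-, y', rfl⟩
    refine ⟨cell_inter_exposed f pt y y', ?_⟩
    rw [Set.inter_comm]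
    exact cell_inter_exposed f pt y' y

end Pool.Agent.H55.Cell
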