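import Pool.Agent.H55.Cell.Defs

/-!
# Flag minors: Laplace expansion, column operations, the two-by-two relation
-/

namespace Pool.Agent.H55.Cell

open Finset

variable {n : ℕ}

theorem pl_eq (G : Fin n → ℕ → ℝ) {J : Finset (Fin n)} {k : ℕ} (h : J.card = k) :
    pl G J = mt G (J.orderEmbOfFin h) := by
  subst h; rfl

theorem mt_congr {G G' : Fin n → ℕ → ℝ} {k : ℕ} (τ : Fin k → Fin n)
    (h : ∀ r, ∀ j < k, G r j = G' r j) : mt G τ = mt G' τ := by
  unfold mt
  congr 1
  ext i j
  simp [h _ _ j.isLt]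

/-- Laplace expansion along the last column -/
theorem mt_succ (G : Fin n → ℕ → ℝ) {k : ℕ} (τ : Fin (k + 1) → Fin n) :
    mt G τ = ∑ i : Fin (k + 1), (-1) ^ ((i : ℕ) + k) * G (τ i) k * mt G (τ ∘ i.succAbove) := by
  unfold mt
  rw [Matrix.det_succ_column _ (Fin.last k)]
  refine Finset.sum_congr rfl fun i _ => ?_
  simp only [Fin.val_last, Matrix.of_apply]
  congr 2
  ext a b
  simp [Matrix.submatrix_apply, Fin.succAbove_last]

/-- unipotent column operations do not change the minors -/
theorem mt_unip {G G' : Fin n → ℕ → ℝ} (b : ℕ → ℕ → ℝ) {k : ℕ} (τ : Fin k → Fin n)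
    (h : ∀ r, ∀ j < k, G' r j = G r j + ∑ l ∈ range j, G r l * b l j) : mt G' τ = mt G τ := by
  have hB : (Matrix.of fun i j : Fin k => G' (τ i) (j : ℕ)) =
      (Matrix.of fun i j : Fin k => G (τ i) (j : ℕ)) *
        (Matrix.of fun l j : Fin k => if l < j then b l j else if l = j then (1 : ℝ) else 0) := by
    ext i j
    rw [Matrix.mul_apply]
    simp only [Matrix.of_apply]
    rw [h _ _ j.isLt]
    have h1 : ∀ l : Fin k, G (τ i) (l : ℕ) * (if l < j then b l j else if l = j then (1 : ℝ) else 0) =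
        (if (l : ℕ) < j then G (τ i) l * b l j else 0) + (if l = j then G (τ i) l else 0) := by
      intro l
      by_cases h2 : l < j
      · have h3 : l ≠ j := h2.ne
        have h4 : (l : ℕ) < j := h2
        simp [h2, h3, h4]
      · have h4 : ¬ (l : ℕ) < j := h2
        by_cases h3 : l = j
        · subst h3; simp
        · simp [h2, h3, h4]
    rw [Finset.sum_congr rfl fun l _ => h1 l, Finset.sum_add_distrib, Finset.sum_ite_eq' univ j]
    simp only [mem_univ, if_true]
    rw [add_comm]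
    congr 1
    rw [← Finset.sum_filter]
    symm
    refine Finset.sum_bij' (fun (l : Fin k) _ => (l : ℕ)) (fun l hl => ⟨l, by
      have := Finset.mem_range.mp hl; have := j.isLt; omega⟩) ?_ ?_ ?_ ?_ ?_
    · intro l hl
      have h5 := (Finset.mem_filter.mp hl).2
      exact Finset.mem_range.mpr h5
    · intro l hl
      simp only [mem_filter, mem_univ, true_and]
      exact Finset.mem_range.mp hl
    · intro l _; rfl
    · intro l _; rfl
    · intro l _; rfl
  have hdet : (Matrix.of fun l j : Fin k => if l < j then b l j else if l = j then (1 : ℝ) else 0).det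
      = 1 := by
    rw [Matrix.det_of_isUpperTriangular]
    · simp
    · intro i j hij
      have h1 : ¬ i < j := not_lt.mpr (le_of_lt hij)
      have h2 : i ≠ j := (ne_of_lt hij).symm
      simp [h1, h2]
  unfold mt
  rw [hB, Matrix.det_mul, hdet, mul_one]

theorem pl_unip {G G' : Fin n → ℕ → ℝ} (b : ℕ → ℕ → ℝ)
    (h : ∀ r, ∀ j < n, G' r j = G r j + ∑ l ∈ range j, G r l * b l j) (J : Finset (Fin n)) :
    pl G' J = pl G J :=
  mt_unip b _ fun r j hj => h r j (lt_of_lt_of_le hj (by simpa using J.card_le_univ))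

theorem mt_scale {G G' : Fin n → ℕ → ℝ} (d : ℕ → ℝ) {k : ℕ} (τ : Fin k → Fin n)
    (h : ∀ r, ∀ j < k, G' r j = d j * G r j) : mt G' τ = (∏ j ∈ range k, d j) * mt G τ := by
  unfold mt
  have : (Matrix.of fun i j : Fin k => G' (τ i) (j : ℕ)) =
      Matrix.of fun i j : Fin k => d j * (Matrix.of fun i j : Fin k => G (τ i) (j : ℕ)) i j := by
    ext i j; simp [h _ _ j.isLt]
  rw [this, Finset.prod_range]
  exact Matrix.det_mul_row (fun j : Fin k => d j) _

theorem pl_scale {G G' : Fin n → ℕ → ℝ} (d : ℕ → ℝ)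
    (h : ∀ r, ∀ j < n, G' r j = d j * G r j) (J : Finset (Fin n)) :
    pl G' J = (∏ j ∈ range J.card, d j) * pl G J :=
  mt_scale d _ fun r j hj => h r j (lt_of_lt_of_le hj (by simpa using J.card_le_univ))

/-- row scaling -/
theorem mt_row_scale {G G' : Fin n → ℕ → ℝ} (c : Fin n → ℝ) {k : ℕ} (τ : Fin k → Fin n)
    (h : ∀ r j, G' r j = c r * G r j) : mt G' τ = (∏ i : Fin k, c (τ i)) * mt G τ := by
  unfold mt
  have : (Matrix.of fun i j : Fin k => G' (τ i) (j : ℕ)) =
      Matrix.of fun i j : Fin k => c (τ i) * (Matrix.of fun i j : Fin k => G (τ i) (j : ℕ)) i j := by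
    ext i j; simp [h]
  rw [this]
  exact Matrix.det_mul_column (fun i : Fin k => c (τ i)) _

theorem pl_row_scale {G G' : Fin n → ℕ → ℝ} (c : Fin n → ℝ)
    (h : ∀ r j, G' r j = c r * G r j) (J : Finset (Fin n)) :
    pl G' J = (∏ i ∈ J, c i) * pl G J := by
  unfold pl
  rw [mt_row_scale c _ h]
  congr 1
  rw [← Finset.prod_coe_sort J]
  exact Fintype.prod_equiv (J.orderIsoOfFin rfl).toEquiv _ _ (fun i => by simp)

/-- the array with columns `p`, `p+1` replaced by `-G_{p+1}`, `G_p` -/
def sw (G : Fin n → ℕ → ℝ) (p : ℕ) : Fin n → ℕ → ℝ := fun r j =>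
  if j = p then -G r (p + 1) else if j = p + 1 then G r p else G r j

theorem mt_sw (G : Fin n → ℕ → ℝ) (p : ℕ) {k : ℕ} (τ : Fin k → Fin n) (hk : k ≠ p + 1) :
    mt (sw G p) τ = mt G τ := by
  rcases lt_or_gt_of_ne hk with h | h
  · apply mt_congr
    intro r j hj
    unfold sw
    rw [if_neg (by omega), if_neg (by omega)]
  · unfold mt
    set A : Matrix (Fin k) (Fin k) ℝ := Matrix.of fun i j : Fin k => G (τ i) (j : ℕ) with hA
    let p0 : Fin k := ⟨p, by omega⟩
    let p1 : Fin k := ⟨p + 1, h⟩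
    have hne : p0 ≠ p1 := by intro h; simp [p0, p1] at h
    have h1 : (Matrix.of fun i j : Fin k => sw G p (τ i) (j : ℕ)) =
        Matrix.of fun i j : Fin k => (if j = p0 then (-1 : ℝ) else 1) *
          (A.submatrix id (Equiv.swap p0 p1)) i j := by
      ext i j
      simp only [Matrix.of_apply, Matrix.submatrix_apply, id, hA, sw]
      by_cases hj0 : j = p0
      · subst hj0
        simp [p0, p1]
      · by_cases hj1 : j = p1
        · subst hj1
          have : (p1 : ℕ) ≠ p := by simp [p1]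
          simp [hne.symm, this]
          simp [p0, p1]
        · have e0 : (j : ℕ) ≠ p := fun h => hj0 (Fin.ext h)
          have e1 : (j : ℕ) ≠ p + 1 := fun h => hj1 (Fin.ext h)
          rw [Equiv.swap_apply_of_ne_of_ne hj0 hj1]
          simp [hj0, e0, e1]
    rw [h1]
    refine (Matrix.det_mul_row (fun j : Fin k => if j = p0 then (-1 : ℝ) else 1)
      (A.submatrix id (Equiv.swap p0 p1))).trans ?_
    rw [Matrix.det_permute', Equiv.Perm.sign_swap hne, Finset.prod_ite_eq' univ p0]
    simp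

theorem pl_sw (G : Fin n → ℕ → ℝ) (p : ℕ) {J : Finset (Fin n)} (hk : J.card ≠ p + 1) :
    pl (sw G p) J = pl G J := mt_sw G p _ hk

/-- sign of a tuple -/
noncomputable def sg {k : ℕ} (τ : Fin k → Fin n) : ℝ :=
  ∏ j : Fin k, ∏ i : Fin k, if i < j then (if τ i < τ j then 1 else -1) else 1

theorem sg_sq {k : ℕ} (τ : Fin k → Fin n) : sg τ * sg τ = 1 := by
  unfold sg
  rw [← Finset.prod_mul_distrib]
  refine Finset.prod_eq_one fun j _ => ?_
  rw [← Finset.prod_mul_distrib]
  refine Finset.prod_eq_one fun i _ => ?_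
  split_ifs <;> norm_num

theorem sg_of_strictMono {k : ℕ} {τ : Fin k → Fin n} (h : StrictMono τ) : sg τ = 1 := by
  unfold sg
  refine Finset.prod_eq_one fun j _ => Finset.prod_eq_one fun i _ => ?_
  by_cases hij : i < j
  · simp [hij, h hij]
  · simp [hij]

theorem sg_snoc {k : ℕ} (τ : Fin k → Fin n) (x : Fin n) :
    sg (Fin.snoc (α := fun _ => Fin n) τ x) = sg τ * ∏ i : Fin k, if τ i < x then 1 else -1 := by
  unfold sg
  rw [Fin.prod_univ_castSucc]
  congr 1
  · refine Finset.prod_congr rfl fun j _ => ?_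
    rw [Fin.prod_univ_castSucc]
    simp only [Fin.snoc_castSucc, Fin.castSucc_lt_castSucc_iff, Fin.snoc_last]
    rw [if_neg (by exact not_lt.mpr (Fin.le_last _)), mul_one]
  · rw [Fin.prod_univ_castSucc]
    simp [Fin.castSucc_lt_last]

theorem mt_perm (G : Fin n → ℕ → ℝ) {k : ℕ} (τ : Fin k → Fin n) (hτ : Function.Injective τ)
    {J : Finset (Fin n)} (hJ : ∀ i, τ i ∈ J) (hk : J.card = k) : mt G τ = sg τ * pl G J := by
  rw [pl_eq G hk]
  let e := J.orderIsoOfFin hk
  let σf : Fin k → Fin k := fun i => e.symm ⟨τ i, hJ i⟩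
  have hσ : Function.Injective σf := by
    intro a b hab
    have := e.symm.injective hab
    exact hτ (by simpa using this)
  let σ : Equiv.Perm (Fin k) := Equiv.ofBijective σf (Finite.injective_iff_bijective.mp hσ)
  have h1 : ∀ i, J.orderEmbOfFin hk (σ i) = τ i := by
    intro i
    have h2 : (e (e.symm ⟨τ i, hJ i⟩) : Fin n) = τ i := by rw [e.apply_symm_apply]
    rw [← Finset.coe_orderIsoOfFin_apply]
    exact h2
  have h2 : (Matrix.of fun i j : Fin k => G (τ i) (j : ℕ)) =
      (Matrix.of fun i j : Fin k => G (J.orderEmbOfFin hk i) (j : ℕ)).submatrix σ id := by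
    ext i j
    simp [h1]
  unfold mt
  rw [h2, Matrix.det_permute]
  congr 1
  rw [Equiv.Perm.sign_eq_prod_prod_Iio]
  unfold sg
  push_cast
  refine Finset.prod_congr rfl fun j _ => ?_
  have h3 : ∀ i : Fin k, (τ i < τ j) ↔ (σ i < σ j) := by
    intro i; rw [← h1 i, ← h1 j]; simp
  have h4 : (Finset.Iio j : Finset (Fin k)) = univ.filter fun i => i < j := by ext; simp
  rw [h4, Finset.prod_filter]
  refine Finset.prod_congr rfl fun i _ => ?_
  by_cases hij : i < j
  · simp only [hij, if_true, h3]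
    split_ifs <;> simp
  · simp [hij]

end Pool.Agent.H55.Cell
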