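import Pool.Agent.H55.Cell.Key

/-!
# Reversing the rows
-/

namespace Pool.Agent.H55.Cell

open Finset

variable {n : ℕ}

theorem sg_of_strictAnti : ∀ {k : ℕ} {τ : Fin k → Fin n}, StrictAnti τ →
    sg τ = ∏ j ∈ range k, (-1 : ℝ) ^ j := by
  intro k
  induction k with
  | zero =>
    intro τ _
    rw [sg_of_strictMono (fun a => a.elim0)]; simp
  | succ k ih =>
    intro τ hτ
    have h1 : τ = Fin.snoc (α := fun _ => Fin n) (Fin.init τ) (τ (Fin.last k)) :=
      (Fin.snoc_init_self τ).symm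
    have h2 : StrictAnti (Fin.init τ : Fin k → Fin n) := by
      intro a b hab
      exact hτ (by simpa using hab)
    rw [h1, sg_snoc, ih h2, Finset.prod_range_succ]
    congr 1
    rw [show ((-1 : ℝ) ^ k) = ∏ _i : Fin k, (-1 : ℝ) by simp]
    refine Finset.prod_congr rfl fun i _ => ?_
    rw [if_neg]
    exact not_lt.mpr (hτ (Fin.castSucc_lt_last i)).le

/-- reversed rows, with signs -/
noncomputable def mir (G : Fin n → ℕ → ℝ) : Fin n → ℕ → ℝ := fun i j => (-1) ^ j * G (Fin.rev i) j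

theorem mir_mir (G : Fin n → ℕ → ℝ) : mir (mir G) = G := by
  funext i j
  simp only [mir, Fin.rev_rev, ← mul_assoc]
  rw [← pow_add, Even.neg_one_pow ⟨j, rfl⟩, one_mul]

theorem pl_mir (G : Fin n → ℕ → ℝ) (J : Finset (Fin n)) :
    pl (mir G) J = pl G (J.map Fin.revPerm.toEmbedding) := by
  have h1 : pl (mir G) J = (∏ j ∈ range J.card, (-1 : ℝ) ^ j) *
      mt (fun i j => G (Fin.rev i) j) (J.orderEmbOfFin rfl) :=
    mt_scale (fun j => (-1 : ℝ) ^ j) _ (fun r j _ => rfl)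
  have h2 : mt (fun i j => G (Fin.rev i) j) (J.orderEmbOfFin rfl) =
      mt G (fun i => Fin.rev (J.orderEmbOfFin rfl i)) := rfl
  have h3 := mt_perm G (fun i => Fin.rev (J.orderEmbOfFin rfl i))
    (fun a b hab => (J.orderEmbOfFin rfl).injective (Fin.rev_injective hab))
    (J := J.map Fin.revPerm.toEmbedding)
    (fun i => by
      rw [Finset.mem_map]
      exact ⟨_, J.orderEmbOfFin_mem rfl i, rfl⟩) (by simp)
  have h4 := sg_of_strictAnti (τ := fun i => Fin.rev (J.orderEmbOfFin rfl i))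
    (fun a b hab => Fin.rev_lt_rev.mpr ((J.orderEmbOfFin rfl).strictMono hab))
  rw [h1, h2, h3, h4, ← mul_assoc, ← Finset.prod_mul_distrib]
  have h5 : ∀ j ∈ range J.card, (-1 : ℝ) ^ j * (-1) ^ j = 1 := by
    intro j _; rw [← pow_add, Even.neg_one_pow ⟨j, rfl⟩]
  rw [Finset.prod_congr rfl h5]
  simp

/-- left multiplication by the reversal -/
abbrev rw0 (z : Equiv.Perm (Fin n)) : Equiv.Perm (Fin n) := Fin.revPerm * z

theorem rw0_apply (z : Equiv.Perm (Fin n)) (a : Fin n) : rw0 z a = Fin.rev (z a) := rfl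

theorem rw0_rw0 (z : Equiv.Perm (Fin n)) : rw0 (rw0 z) = z := by
  ext a; simp [rw0]

theorem pre_rw0 (z : Equiv.Perm (Fin n)) (k : ℕ) :
    pre (rw0 z) k = (pre z k).map Fin.revPerm.toEmbedding := by
  ext i
  rw [Finset.mem_map]
  constructor
  · intro h
    refine ⟨Fin.rev i, ?_, by simp⟩
    rw [mem_pre] at h ⊢
    have : (rw0 z).symm i = z.symm (Fin.rev i) := by
      rw [Equiv.symm_apply_eq, rw0_apply]; simp
    rwa [this] at h
  · rintro ⟨j, hj, rfl⟩
    rw [mem_pre] at hj ⊢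
    have : (rw0 z).symm (Fin.revPerm.toEmbedding j) = z.symm j := by
      rw [Equiv.symm_apply_eq, rw0_apply]; simp
    rwa [this]

theorem mem_supp_mir {G : Fin n → ℕ → ℝ} {z : Equiv.Perm (Fin n)} :
    z ∈ Supp (mir G) ↔ rw0 z ∈ Supp G := by
  simp only [Supp, Set.mem_setOf_eq, pl_mir, pre_rw0]

theorem TNN.mir {G : Fin n → ℕ → ℝ} (hG : TNN G) : TNN (mir G) := by
  refine ⟨fun J => ?_, ?_⟩
  · rw [pl_mir]; exact hG.1 _
  · rw [pl_mir, Finset.map_univ_equiv]; exact hG.2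

theorem rev_step {u w : Equiv.Perm (Fin n)} (h : BruhatStep u w) : BruhatStep (rw0 w) (rw0 u) := by
  obtain ⟨a, b, hab, hu, rfl⟩ := h
  refine ⟨a, b, hab, ?_, ?_⟩
  · rw [rw0_apply, rw0_apply]
    simpa using hu
  · simp only [rw0]
    rw [mul_assoc, mul_assoc, Equiv.swap_mul_self, mul_one]

theorem rev_tabLE {u w : Equiv.Perm (Fin n)} (h : TabLE u w) : TabLE (rw0 w) (rw0 u) := by
  rw [tabLE_iff] at h
  induction h with
  | refl => exact TabLE.refl _
  | tail _ h2 ih => exact (step_tabLE (rev_step h2)).trans ih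

theorem exists_min {G : Fin n → ℕ → ℝ} (hG : TNN G) : ∃ u ∈ Supp G, ∀ z ∈ Supp G, TabLE u z := by
  obtain ⟨G', v', h1, h2⟩ := exists_ech hG.mir.2
  refine ⟨rw0 v', ?_, fun z hz => ?_⟩
  · rw [← mem_supp_mir, ← Supp_congr h1]; exact h2.mem_supp
  · have h3 : rw0 z ∈ Supp G' := by
      rw [Supp_congr h1, mem_supp_mir, rw0_rw0]; exact hz
    have h4 := rev_tabLE (h2.tabLE h3)
    rwa [rw0_rw0] at h4

theorem exists_max {G : Fin n → ℕ → ℝ} (hG : TNN G) : ∃ v ∈ Supp G, ∀ z ∈ Supp G, TabLE z v := by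
  obtain ⟨G', v', h1, h2⟩ := exists_ech hG.2
  refine ⟨v', ?_, fun z hz => ?_⟩
  · rw [← Supp_congr h1]; exact h2.mem_supp
  · apply h2.tabLE; rw [Supp_congr h1]; exact hz

/-- **Key lemma** -/
theorem supp_interval {G : Fin n → ℕ → ℝ} (hG : TNN G) :
    ∃ u v, ∀ z, z ∈ Supp G ↔ TabLE u z ∧ TabLE z v := by
  obtain ⟨u, hu, hmin⟩ := exists_min hG
  obtain ⟨v, hv, hmax⟩ := exists_max hG
  exact ⟨u, v, supp_eq hG hu hv hmin hmax⟩

theorem supp_nonempty {G : Fin n → ℕ → ℝ} (hG : TNN G) : (Supp G).Nonempty := by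
  obtain ⟨u, hu, -⟩ := exists_min hG
  exact ⟨u, hu⟩

end Pool.Agent.H55.Cell
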