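import Pool.Agent.H55.Cell.Lin

/-!
# The elementary move: swapping two adjacent echelon columns at a descent
-/

namespace Pool.Agent.H55.Cell

open Finset

variable {n : ℕ}

theorem pl_insert_ne {G : Fin n → ℕ → ℝ} {p : ℕ} {K : Finset (Fin n)} (hK : K.card = p)
    (hKne : pl G K ≠ 0) {c : ℕ → ℝ} (hcp : c p ≠ 0) (hc : ∀ r ∈ K, comb G (p + 1) c r = 0)
    {i : Fin n} (hi : comb G (p + 1) c i ≠ 0) : pl G (insert i K) ≠ 0 := by
  have hiK : i ∉ K := fun h => hi (hc i h)
  intro h0
  rw [pl_eq_zero_iff G (show (insert i K).card = p + 1 by rw [card_insert_of_notMem hiK, hK])] at h0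
  obtain ⟨c', ⟨l0, hl0, hcl0⟩, hc'⟩ := h0
  -- the combination with vanishing coefficient at `p`
  have hd : ∀ r, comb G p (fun l => c p * c' l - c' p * c l) r =
      c p * comb G (p + 1) c' r - c' p * comb G (p + 1) c r := by
    intro r
    unfold comb
    rw [Finset.sum_range_succ, Finset.sum_range_succ, mul_add, mul_add, Finset.mul_sum,
      Finset.mul_sum, add_sub_add_comm, ← Finset.sum_sub_distrib]
    have : c p * (c' p * G r p) - c' p * (c p * G r p) = 0 := by ring
    rw [this, add_zero]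
    exact Finset.sum_congr rfl fun l _ => by ring
  have hall : ∀ l < p, c p * c' l - c' p * c l = 0 := by
    by_contra hcon
    push Not at hcon
    apply hKne
    rw [pl_eq_zero_iff G hK]
    refine ⟨_, hcon, fun r hr => ?_⟩
    rw [hd, hc' r (mem_insert_of_mem hr), hc r hr]
    ring
  have h1 : comb G p (fun l => c p * c' l - c' p * c l) i = 0 := by
    unfold comb
    refine Finset.sum_eq_zero fun l hl => ?_
    show (c p * c' l - c' p * c l) * G i l = 0
    rw [hall l (Finset.mem_range.mp hl), zero_mul]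
  rw [hd, hc' i (mem_insert_self i K), mul_zero, zero_sub, neg_eq_zero] at h1
  have h2 : c' p = 0 := (mul_eq_zero.mp h1).resolve_right hi
  rcases Nat.lt_succ_iff_lt_or_eq.mp hl0 with h3 | h3
  · have h4 := hall l0 h3
    rw [h2, zero_mul, sub_zero] at h4
    exact hcl0 ((mul_eq_zero.mp h4).resolve_left hcp)
  · rw [h3] at hcl0; exact hcl0 h2

/-- the echelon form of the swapped array -/
theorem Ech.sw {G : Fin n → ℕ → ℝ} {v : Equiv.Perm (Fin n)} (h : Ech G v) {p : ℕ}
    (hp : p + 1 < n) :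
    Ech (sw G p) (v * Equiv.swap (⟨p, by omega⟩ : Fin n) ⟨p + 1, hp⟩) := by
  intro κ
  set p0 : Fin n := ⟨p, by omega⟩ with hp0
  set p1 : Fin n := ⟨p + 1, hp⟩ with hp1
  by_cases h0 : κ = p0
  · subst h0
    rw [Equiv.Perm.mul_apply, Equiv.swap_apply_left]
    have e : ∀ r, Pool.Agent.H55.Cell.sw G p r (p0 : Fin n) = - G r (p1 : Fin n) := by
      intro r; simp [Pool.Agent.H55.Cell.sw, p0, p1]
    refine ⟨?_, fun i hi => ?_⟩
    · rw [e]; exact neg_ne_zero.mpr (h p1).1
    · rw [e, (h p1).2 i hi, neg_zero]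
  · by_cases h1 : κ = p1
    · subst h1
      rw [Equiv.Perm.mul_apply, Equiv.swap_apply_right]
      have e : ∀ r, Pool.Agent.H55.Cell.sw G p r (p1 : Fin n) = G r (p0 : Fin n) := by
        intro r; simp [Pool.Agent.H55.Cell.sw, p0, p1]
      refine ⟨?_, fun i hi => ?_⟩
      · rw [e]; exact (h p0).1
      · rw [e, (h p0).2 i hi]
    · rw [Equiv.Perm.mul_apply, Equiv.swap_apply_of_ne_of_ne h0 h1]
      have c0 : (κ : ℕ) ≠ p := fun hc => h0 (Fin.ext hc)
      have c1 : (κ : ℕ) ≠ p + 1 := fun hc => h1 (Fin.ext hc)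
      have e : ∀ r, Pool.Agent.H55.Cell.sw G p r (κ : Fin n) = G r (κ : Fin n) := by
        intro r; simp [Pool.Agent.H55.Cell.sw, c0, c1]
      refine ⟨?_, fun i hi => ?_⟩
      · rw [e]; exact (h κ).1
      · rw [e, (h κ).2 i hi]

theorem sw_nonneg_of_zero {G : Fin n → ℕ → ℝ} (hG : ∀ J, 0 ≤ pl G J) {v : Equiv.Perm (Fin n)}
    (h : Ech G v) {p : ℕ} (hp : p + 1 < n)
    (hv : v ⟨p + 1, hp⟩ < v ⟨p, by omega⟩) {J : Finset (Fin n)} (hJ : J.card = p + 1)
    (h0 : pl G J = 0) : 0 ≤ pl (sw G p) J := by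
  by_cases hQ : pl (sw G p) J = 0
  · rw [hQ]
  obtain ⟨c, hcne, hc⟩ := (pl_eq_zero_iff G hJ).mp h0
  have hcp : c p ≠ 0 := by
    intro hcp
    apply hQ
    rw [pl_eq_zero_iff _ hJ]
    refine ⟨c, hcne, fun r hr => ?_⟩
    rw [← hc r hr]
    unfold comb
    refine Finset.sum_congr rfl fun l hl => ?_
    by_cases hlp : l = p
    · rw [hlp, hcp, zero_mul, zero_mul]
    · have := Finset.mem_range.mp hl
      have e : sw G p r l = G r l := by
        unfold sw; rw [if_neg hlp, if_neg (by omega)]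
      rw [e]
  obtain ⟨l, hl, hcl, hne, hmax⟩ := h.exists_ne (by omega : p + 1 ≤ n) hcne
  set i := v l with hi
  have hvi : v ⟨p, by omega⟩ ≤ i := hmax ⟨p, by omega⟩ (by simp) hcp
  have hiJ : i ∉ J := fun hh => hne (hc i hh)
  -- an element of J with small index
  obtain ⟨ε, hε, hlap⟩ := pl_laplace hJ
  obtain ⟨x, hxJ, hx⟩ : ∃ x ∈ J, ε x * sw G p x p * pl (sw G p) (J.erase x) ≠ 0 := by
    by_contra hcon
    push Not at hcon
    apply hQ
    rw [hlap]
    exact Finset.sum_eq_zero hcon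
  have hx1 : sw G p x p ≠ 0 := fun hh => hx (by rw [hh]; ring)
  have hx2 : pl (sw G p) (J.erase x) ≠ 0 := fun hh => hx (by rw [hh]; ring)
  have hcJx : (J.erase x).card = p := by rw [card_erase_of_mem hxJ, hJ]; omega
  rw [pl_sw G p (by rw [hcJx]; omega)] at hx2
  have hxv : x ≤ v ⟨p + 1, hp⟩ := by
    by_contra hcon
    push Not at hcon
    apply hx1
    have h3 := (h ⟨p + 1, hp⟩).2 x hcon
    have e : sw G p x p = - G x (p + 1) := by simp [sw]
    rw [e, show G x (p + 1) = 0 from h3, neg_zero]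
  have hxi : x < i := lt_of_le_of_lt hxv (lt_of_lt_of_le hv hvi)
  have hL : (insert i J).card = p + 2 := by rw [card_insert_of_notMem hiJ, hJ]
  have key := rel G hL (mem_insert_of_mem hxJ) (mem_insert_self i J) hxi
  have e1 : (insert i J).erase i = J := erase_insert hiJ
  have e2 : (insert i J).erase x = insert i (J.erase x) := by
    rw [Finset.erase_insert_of_ne hxi.ne']
  rw [e1, h0, zero_mul, sub_zero] at key
  have hpos : 0 < pl G ((insert i J).erase x) := by
    refine lt_of_le_of_ne (hG _) (Ne.symm ?_)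
    rw [e2]
    exact pl_insert_ne hcJx hx2 hcp (fun r hr => hc r (mem_of_mem_erase hr)) hne
  have hnn : 0 ≤ pl (sw G p) J * pl G ((insert i J).erase x) := by
    rw [key]; exact mul_nonneg (hG _) (hG _)
  exact nonneg_of_mul_nonneg_left hnn hpos

theorem exists_exchange_up {J V : Finset (Fin n)} (hc : J.card = V.card) (hne : J ≠ V)
    (hhi : ∀ m, hi J m ≤ hi V m) : ∃ y ∈ V, y ∉ J ∧ ∀ x ∈ J, x ∉ V → x < y := by
  have hs : (V \ J).Nonempty := by
    rw [Finset.sdiff_nonempty]
    intro hsub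
    exact hne (Finset.eq_of_subset_of_card_le hsub hc.le).symm
  refine ⟨(V \ J).max' hs, ?_, ?_, ?_⟩
  · exact (mem_sdiff.mp ((V \ J).max'_mem hs)).1
  · exact (mem_sdiff.mp ((V \ J).max'_mem hs)).2
  · intro x hxJ hxV
    by_contra hcon
    push Not at hcon
    have hlt : (V \ J).max' hs < x := by
      refine lt_of_le_of_ne hcon ?_
      intro heq
      have := ((mem_sdiff.mp ((V \ J).max'_mem hs)).2)
      rw [heq] at this
      exact this hxJ
    have h1 := hhi x
    unfold hi at h1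
    have h2 : (V.filter fun i : Fin n => (x : ℕ) ≤ (i : ℕ)) ⊂ J.filter fun i : Fin n => (x : ℕ) ≤ (i : ℕ) := by
      rw [Finset.ssubset_iff_of_subset]
      · refine ⟨x, by simp [hxJ], by simp [hxV]⟩
      · intro i hi
        rw [mem_filter] at hi ⊢
        refine ⟨?_, hi.2⟩
        by_contra hiJ
        have h3 : i ≤ (V \ J).max' hs := (V \ J).le_max' i (mem_sdiff.mpr ⟨hi.1, hiJ⟩)
        have h4 : x ≤ i := hi.2
        exact absurd (lt_of_lt_of_le hlt h4) (not_lt.mpr h3)
    exact absurd h1 (not_le.mpr (Finset.card_lt_card h2))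

/-- swapping keeps all flag minors nonnegative -/
theorem sw_nonneg {G : Fin n → ℕ → ℝ} (hG : ∀ J, 0 ≤ pl G J) {v : Equiv.Perm (Fin n)}
    (h : Ech G v) {p : ℕ} (hp : p + 1 < n)
    (hv : v ⟨p + 1, hp⟩ < v ⟨p, by omega⟩) (J : Finset (Fin n)) : 0 ≤ pl (sw G p) J := by
  by_cases hJ : J.card = p + 1
  swap
  · rw [pl_sw G p hJ]; exact hG J
  induction hN : (∑ i : Fin n, (i : ℕ)) - ∑ i ∈ J, (i : ℕ) using Nat.strong_induction_on
    generalizing J with
  | _ N ih =>
    by_cases h0 : pl G J = 0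
    · exact sw_nonneg_of_zero hG h hp hv hJ h0
    set V := pre v (p + 1) with hV
    have hVc : V.card = p + 1 := card_pre v (by omega)
    by_cases hJV : J = V
    · -- the minor vanishes
      have hE := h.sw hp
      by_contra hcon
      have hne : pl (sw G p) J ≠ 0 := fun hh => hcon (by rw [hh])
      set p0 : Fin n := ⟨p, by omega⟩ with hp0
      set p1 : Fin n := ⟨p + 1, hp⟩ with hp1
      have h1 : cnt v (p + 1) (v p0 : Fin n) ≤
          cnt (v * Equiv.swap p0 p1) (p + 1) (v p0 : Fin n) := by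
        have h2 := hE.hi_le hne (v p0 : Fin n)
        rw [hJ, hi_pre] at h2
        rw [← hi_pre, ← hV, ← hJV]
        exact h2
      have e1 := cnt_succ v p0 (v p0 : Fin n)
      have e2 := cnt_succ (v * Equiv.swap p0 p1) p0 (v p0 : Fin n)
      have e3 : cnt (v * Equiv.swap p0 p1) p0 (v p0 : Fin n) = cnt v p0 (v p0 : Fin n) := by
        have hne01 : p0 ≠ p1 := by intro hh; simp [p0, p1] at hh
        have h2 := cnt_swap v hne01 (p0 : ℕ) (v p0 : Fin n)
        have h3 : ¬ (p0 : ℕ) < p0 := lt_irrefl _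
        have h4 : ¬ (p1 : ℕ) < p0 := by simp [p0, p1]
        simp only [h3, h4, false_and, if_false] at h2
        omega
      have h5 : ((v * Equiv.swap p0 p1) p0 : Fin n) = v p1 := by simp
      have h6 : ¬ (v p0 : ℕ) ≤ v p1 := not_le.mpr hv
      have h7 : ((p0 : Fin n) : ℕ) + 1 = p + 1 := rfl
      rw [h5, if_neg h6, h7] at e2
      rw [if_pos le_rfl, h7] at e1
      omega
    · have hhi : ∀ m, hi J m ≤ hi V m := by
        intro m
        have := h.hi_le h0 m
        rwa [hJ] at this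
      obtain ⟨y, hyV, hyJ, hlt⟩ := exists_exchange_up (by rw [hJ, hVc]) hJV hhi
      obtain ⟨x, hxJ, hxV, hx⟩ := exchange G (by rw [hJ, hVc]) h0 (h.pl_pre (by omega)) hyV hyJ
      have hxy := hlt x hxJ hxV
      have hyJx : y ∉ J.erase x := fun hh => hyJ (mem_of_mem_erase hh)
      have hJ' : (insert y (J.erase x)).card = p + 1 := by
        rw [card_insert_of_notMem hyJx, card_erase_of_mem hxJ, hJ]; omega
      have hsum : ∑ i ∈ J, (i : ℕ) < ∑ i ∈ insert y (J.erase x), (i : ℕ) := by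
        rw [Finset.sum_insert hyJx, ← Finset.add_sum_erase J _ hxJ]
        have : (x : ℕ) < y := hxy
        omega
      have hle : ∑ i ∈ insert y (J.erase x), (i : ℕ) ≤ ∑ i : Fin n, (i : ℕ) :=
        Finset.sum_le_sum_of_subset (subset_univ _)
      have hQ' := ih _ (by omega) (insert y (J.erase x)) hJ' rfl
      have hL : (insert y J).card = p + 2 := by rw [card_insert_of_notMem hyJ, hJ]
      have key := rel G hL (mem_insert_of_mem hxJ) (mem_insert_self y J) hxy
      have e1 : (insert y J).erase y = J := erase_insert hyJ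
      have e2 : (insert y J).erase x = insert y (J.erase x) := by
        rw [Finset.erase_insert_of_ne hxy.ne']
      rw [e1, e2] at key
      have hP' : 0 < pl G (insert y (J.erase x)) := lt_of_le_of_ne (hG _) (Ne.symm hx)
      have hr : 0 ≤ pl G ((insert y (J.erase x)).erase y) * pl G (insert y J) :=
        mul_nonneg (hG _) (hG _)
      have h8 : 0 ≤ pl G J * pl (sw G p) (insert y (J.erase x)) := mul_nonneg (hG _) hQ'
      have h9 : 0 ≤ pl (sw G p) J * pl G (insert y (J.erase x)) := by linarith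
      exact nonneg_of_mul_nonneg_left h9 hP'

theorem TNN.sw {G : Fin n → ℕ → ℝ} (hG : TNN G) {v : Equiv.Perm (Fin n)}
    (h : Ech G v) {p : ℕ} (hp : p + 1 < n) (hv : v ⟨p + 1, hp⟩ < v ⟨p, by omega⟩) :
    TNN (sw G p) := by
  refine ⟨sw_nonneg hG.1 h hp hv, ?_⟩
  rw [pl_sw G p (by simp; omega)]
  exact hG.2

end Pool.Agent.H55.Cell
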