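import Pool.Agent.H55.Cell.Minor

/-!
# The two-by-two relation between flag minors
-/

namespace Pool.Agent.H55.Cell

open Finset

variable {n : ℕ}

/-- replace column `m` by column `m+1` -/
def rc (G : Fin n → ℕ → ℝ) (m : ℕ) : Fin n → ℕ → ℝ := fun r j =>
  if j = m then G r (m + 1) else G r j

theorem sn_comp_castSucc {m : ℕ} (τ : Fin m → Fin n) (x : Fin n) :
    (Fin.snoc (α := fun _ => Fin n) τ x) ∘ (Fin.last m).succAbove = τ := by
  ext i; simp [Fin.succAbove_last]

/-- expansion when the last column vanishes on `τ` -/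
theorem mt_snoc_of_zero {G : Fin n → ℕ → ℝ} {m : ℕ} {τ : Fin m → Fin n} (x : Fin n)
    (h : ∀ i, G (τ i) m = 0) :
    mt G (Fin.snoc (α := fun _ => Fin n) τ x) = G x m * mt G τ := by
  rw [mt_succ, Fin.sum_univ_castSucc]
  have h0 : ∀ i : Fin m, (-1 : ℝ) ^ (((Fin.castSucc i : Fin (m + 1)) : ℕ) + m) *
      G (Fin.snoc (α := fun _ => Fin n) τ x (Fin.castSucc i)) m *
      mt G (Fin.snoc (α := fun _ => Fin n) τ x ∘ (Fin.castSucc i).succAbove) = 0 := by
    intro i; simp [h]
  rw [Finset.sum_eq_zero fun i _ => h0 i, zero_add, sn_comp_castSucc]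
  simp only [Fin.val_last, Fin.snoc_last]
  rw [← two_mul, pow_mul]
  simp

theorem sn_sn_comp {m : ℕ} (τ : Fin m → Fin n) (x y : Fin n) :
    (Fin.snoc (α := fun _ => Fin n) (Fin.snoc (α := fun _ => Fin n) τ x) y) ∘
      (Fin.castSucc (Fin.last m)).succAbove = Fin.snoc (α := fun _ => Fin n) τ y := by
  funext i
  refine Fin.lastCases ?_ (fun j => ?_) i
  · simp only [Function.comp_apply]
    rw [Fin.succAbove_castSucc_self]
    simp
  · simp only [Function.comp_apply]
    rw [Fin.succAbove_of_castSucc_lt]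
    · simp
    · rw [Fin.castSucc_lt_castSucc_iff]
      exact Fin.castSucc_lt_last j

theorem mt_snoc2_of_zero {G : Fin n → ℕ → ℝ} {m : ℕ} {τ : Fin m → Fin n} (x y : Fin n)
    (h : ∀ i, G (τ i) (m + 1) = 0) :
    mt G (Fin.snoc (α := fun _ => Fin n) (Fin.snoc (α := fun _ => Fin n) τ x) y) =
      G y (m + 1) * mt G (Fin.snoc (α := fun _ => Fin n) τ x) -
      G x (m + 1) * mt G (Fin.snoc (α := fun _ => Fin n) τ y) := by
  rw [mt_succ, Fin.sum_univ_castSucc, Fin.sum_univ_castSucc]
  have h0 : ∀ i : Fin m, (-1 : ℝ) ^ (((Fin.castSucc (Fin.castSucc i) : Fin (m + 2)) : ℕ) + (m + 1)) *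
      G (Fin.snoc (α := fun _ => Fin n) (Fin.snoc (α := fun _ => Fin n) τ x) y
        (Fin.castSucc (Fin.castSucc i))) (m + 1) *
      mt G (Fin.snoc (α := fun _ => Fin n) (Fin.snoc (α := fun _ => Fin n) τ x) y ∘
        (Fin.castSucc (Fin.castSucc i)).succAbove) = 0 := by
    intro i; simp [h]
  rw [Finset.sum_eq_zero fun i _ => h0 i, zero_add, sn_comp_castSucc, sn_sn_comp]
  simp only [Fin.val_last, Fin.snoc_last, Fin.snoc_castSucc, Fin.val_castSucc]
  have e1 : (-1 : ℝ) ^ (m + 1 + (m + 1)) = 1 := by rw [← two_mul, pow_mul]; simp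
  have e2 : (-1 : ℝ) ^ (m + (m + 1)) = -1 := by
    rw [← add_assoc, pow_succ, ← two_mul, pow_mul]; simp
  rw [e1, e2]
  ring

theorem rel_of_ne {G : Fin n → ℕ → ℝ} {m : ℕ} (τ : Fin m → Fin n) (x y : Fin n)
    (hκ : mt G τ ≠ 0) :
    mt G (Fin.snoc (α := fun _ => Fin n) τ x) * mt (rc G m) (Fin.snoc (α := fun _ => Fin n) τ y) -
      mt (rc G m) (Fin.snoc (α := fun _ => Fin n) τ x) * mt G (Fin.snoc (α := fun _ => Fin n) τ y) =
    mt G τ * mt G (Fin.snoc (α := fun _ => Fin n) (Fin.snoc (α := fun _ => Fin n) τ x) y) := by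
  -- kill the columns on `τ`
  have hsolve : ∀ f : Fin n → ℝ, ∃ c : ℕ → ℝ, ∀ i : Fin m,
      f (τ i) + ∑ l ∈ range m, G (τ i) l * c l = 0 := by
    intro f
    set C : Matrix (Fin m) (Fin m) ℝ := Matrix.of fun i j : Fin m => G (τ i) (j : ℕ) with hC
    have hu : IsUnit C.det := isUnit_iff_ne_zero.mpr hκ
    let v : Fin m → ℝ := C⁻¹.mulVec (fun i => - f (τ i))
    have hv : C.mulVec v = fun i => - f (τ i) := by
      rw [Matrix.mulVec_mulVec, Matrix.mul_nonsing_inv _ hu, Matrix.one_mulVec]
    refine ⟨fun l => if h : l < m then v ⟨l, h⟩ else 0, fun i => ?_⟩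
    have h1 := congrFun hv i
    rw [Matrix.mulVec, dotProduct] at h1
    rw [Finset.sum_range]
    have h2 : ∀ l : Fin m, G (τ i) (l : ℕ) * (if h : (l : ℕ) < m then v ⟨l, h⟩ else 0) =
        C i l * v l := by
      intro l; simp [hC]
    rw [Finset.sum_congr rfl fun l _ => h2 l, h1]
    ring
  obtain ⟨β, hβ⟩ := hsolve (fun r => G r m)
  obtain ⟨α, hα⟩ := hsolve (fun r => G r (m + 1))
  let bb : ℕ → ℕ → ℝ := fun l j => if j = m then β l else if j = m + 1 then
    (if l < m then α l else 0) else 0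
  let G' : Fin n → ℕ → ℝ := fun r j => G r j + ∑ l ∈ range j, G r l * bb l j
  have hG'1 : ∀ {k : ℕ} (σ : Fin k → Fin n), mt G' σ = mt G σ := fun σ =>
    mt_unip bb σ fun r j _ => rfl
  have hcolm : ∀ r, G' r m = G r m + ∑ l ∈ range m, G r l * β l := by
    intro r
    simp only [G', bb, if_true]
  have hcolm1 : ∀ r, G' r (m + 1) = G r (m + 1) + ∑ l ∈ range m, G r l * α l := by
    intro r
    simp only [G']
    rw [Finset.sum_range_succ]
    have : bb m (m + 1) = 0 := by simp [bb]
    rw [this, mul_zero, add_zero]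
    congr 1
    refine Finset.sum_congr rfl fun l hl => ?_
    have hl' := Finset.mem_range.mp hl
    simp [bb, hl']
  have hcoll : ∀ r, ∀ j < m, G' r j = G r j := by
    intro r j hj
    have h1 : ∀ l ∈ range j, G r l * bb l j = 0 := by
      intro l _
      have : bb l j = 0 := by
        simp only [bb]
        rw [if_neg (by omega), if_neg (by omega)]
      rw [this, mul_zero]
    simp only [G']
    rw [Finset.sum_eq_zero h1, add_zero]
  have hrc : ∀ (σ : Fin (m + 1) → Fin n), mt (rc G' m) σ = mt (rc G m) σ := by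
    intro σ
    apply mt_unip (fun l j => if j = m then α l else 0)
    intro r j hj
    unfold rc
    by_cases hjm : j = m
    · subst hjm
      simp only [if_true]
      rw [hcolm1]
      congr 1
      refine Finset.sum_congr rfl fun l hl => ?_
      have hl' := Finset.mem_range.mp hl
      rw [if_neg (by omega)]
    · simp only [hjm, if_false, mul_zero, Finset.sum_const_zero, add_zero]
      exact hcoll r j (by omega)
  have z1 : ∀ i, G' (τ i) m = 0 := fun i => by rw [hcolm]; exact hβ i
  have z2 : ∀ i, G' (τ i) (m + 1) = 0 := fun i => by rw [hcolm1]; exact hα i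
  have z3 : ∀ i, rc G' m (τ i) m = 0 := fun i => by simp [rc, z2]
  have k1 : mt (rc G' m) τ = mt G τ := by
    rw [← hG'1 τ]
    apply mt_congr
    intro r j hj
    simp [rc, hj.ne]
  have e1 : ∀ w, mt G (Fin.snoc (α := fun _ => Fin n) τ w) = G' w m * mt G τ := by
    intro w
    rw [← hG'1, mt_snoc_of_zero w z1, hG'1]
  have e2 : ∀ w, mt (rc G m) (Fin.snoc (α := fun _ => Fin n) τ w) = G' w (m + 1) * mt G τ := by
    intro w
    rw [← hrc, mt_snoc_of_zero w z3, k1]
    simp [rc]
  have e3 : mt G (Fin.snoc (α := fun _ => Fin n) (Fin.snoc (α := fun _ => Fin n) τ x) y) =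
      G' y (m + 1) * mt G (Fin.snoc (α := fun _ => Fin n) τ x) -
      G' x (m + 1) * mt G (Fin.snoc (α := fun _ => Fin n) τ y) := by
    rw [← hG'1 (Fin.snoc (α := fun _ => Fin n) (Fin.snoc (α := fun _ => Fin n) τ x) y),
      mt_snoc2_of_zero x y z2, hG'1, hG'1]
  rw [e3, e1, e1, e2, e2]
  ring

theorem rel_unsorted {G : Fin n → ℕ → ℝ} {m : ℕ} (τ : Fin m → Fin n) (hτ : Function.Injective τ)
    {x y : Fin n} :
    mt G (Fin.snoc (α := fun _ => Fin n) τ x) * mt (rc G m) (Fin.snoc (α := fun _ => Fin n) τ y) -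
      mt (rc G m) (Fin.snoc (α := fun _ => Fin n) τ x) * mt G (Fin.snoc (α := fun _ => Fin n) τ y) =
    mt G τ * mt G (Fin.snoc (α := fun _ => Fin n) (Fin.snoc (α := fun _ => Fin n) τ x) y) := by
  classical
  let Gt : ℝ → Fin n → ℕ → ℝ := fun t r j => G r j + if ∃ i : Fin m, τ i = r ∧ (i : ℕ) = j then t else 0
  have hcont : ∀ {k : ℕ} (σ : Fin k → Fin n), Continuous fun t => mt (Gt t) σ := by
    intro k σ
    unfold mt
    apply Continuous.matrix_det
    refine continuous_matrix fun i j => ?_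
    simp only [Matrix.of_apply, Gt]
    split_ifs
    · exact continuous_const.add continuous_id
    · exact continuous_const.add continuous_const
  have hcont2 : ∀ {k : ℕ} (σ : Fin k → Fin n), Continuous fun t => mt (rc (Gt t) m) σ := by
    intro k σ
    unfold mt
    apply Continuous.matrix_det
    refine continuous_matrix fun i j => ?_
    simp only [Matrix.of_apply, Gt, rc]
    split_ifs
    · exact continuous_const.add continuous_id
    · exact continuous_const.add continuous_const
    · exact continuous_const.add continuous_id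
    · exact continuous_const.add continuous_const
  have hdet : ∀ t, mt (Gt t) τ = ((-(Matrix.of fun i j : Fin m => G (τ i) (j : ℕ))).charpoly).eval t := by
    intro t
    rw [Matrix.eval_charpoly]
    unfold mt
    congr 1
    ext i j
    simp only [Matrix.of_apply, Matrix.sub_apply, Matrix.neg_apply, sub_neg_eq_add, Gt,
      Matrix.scalar_apply]
    rw [add_comm]
    congr 1
    by_cases hij : i = j
    · subst hij
      rw [if_pos ⟨i, rfl, rfl⟩]; simp
    · rw [if_neg, Matrix.diagonal_apply_ne _ hij]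
      rintro ⟨i', h1, h2⟩
      apply hij
      rw [← hτ h1]
      exact Fin.ext h2
  have hfin : {t : ℝ | mt (Gt t) τ = 0}.Finite := by
    have hne : (-(Matrix.of fun i j : Fin m => G (τ i) (j : ℕ))).charpoly ≠ 0 :=
      (Matrix.charpoly_monic _).ne_zero
    apply (Polynomial.finite_setOfPred_isRoot hne).subset
    intro t ht
    simp only [Set.mem_ofPred_eq] at ht ⊢
    rw [hdet] at ht
    exact ht
  have hdense : Dense ({t : ℝ | mt (Gt t) τ = 0}ᶜ) := hfin.countable.dense_compl ℝ
  have heq := Continuous.ext_on hdense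
    (((hcont (Fin.snoc (α := fun _ => Fin n) τ x)).mul
      (hcont2 (Fin.snoc (α := fun _ => Fin n) τ y))).sub
      ((hcont2 (Fin.snoc (α := fun _ => Fin n) τ x)).mul
      (hcont (Fin.snoc (α := fun _ => Fin n) τ y))))
    ((hcont τ).mul (hcont (Fin.snoc (α := fun _ => Fin n) (Fin.snoc (α := fun _ => Fin n) τ x) y)))
    (fun t ht => rel_of_ne τ x y ht)
  have h0 := congrFun heq 0
  have hG0 : Gt 0 = G := by
    funext r j
    simp [Gt]
  simp only [Pi.mul_apply, Pi.sub_apply, hG0] at h0
  exact h0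

/-- the two-by-two relation for sorted flag minors -/
theorem rel (G : Fin n → ℕ → ℝ) {p : ℕ} {L : Finset (Fin n)} (hL : L.card = p + 2) {x y : Fin n}
    (hx : x ∈ L) (hy : y ∈ L) (hxy : x < y) :
    pl (sw G p) (L.erase y) * pl G (L.erase x) - pl G (L.erase y) * pl (sw G p) (L.erase x) =
      pl G ((L.erase x).erase y) * pl G L := by
  set K := (L.erase x).erase y with hK
  have hKc : K.card = p := by
    rw [hK, card_erase_of_mem (mem_erase.mpr ⟨hxy.ne', hy⟩), card_erase_of_mem hx, hL]
    omega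
  set τ : Fin p → Fin n := ⇑(K.orderEmbOfFin hKc) with hτ
  have hτmem : ∀ i, τ i ∈ K := fun i => K.orderEmbOfFin_mem hKc i
  have hτinj : Function.Injective τ := (K.orderEmbOfFin hKc).injective
  have hτx : ∀ i, τ i ≠ x := by
    intro i h
    have := hτmem i
    rw [h, hK] at this
    simp at this
  have hτy : ∀ i, τ i ≠ y := by
    intro i h
    have := hτmem i
    rw [h, hK] at this
    simp at this
  have key := rel_unsorted (G := G) (x := x) (y := y) τ hτinj
  have hsnocinj : ∀ w, (∀ i, τ i ≠ w) → Function.Injective (Fin.snoc (α := fun _ => Fin n) τ w) := by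
    intro w hw
    rw [Fin.snoc_injective_iff]
    exact ⟨hτinj, by rintro ⟨i, hi⟩; exact hw i hi⟩
  have hKx : ∀ i, Fin.snoc (α := fun _ => Fin n) τ x i ∈ L.erase y := by
    intro i
    refine Fin.lastCases ?_ (fun j => ?_) i
    · simp [hx, hxy.ne]
    · simp only [Fin.snoc_castSucc]
      have := hτmem j
      rw [hK] at this
      simp only [mem_erase] at this ⊢
      exact ⟨this.1, this.2.2⟩
  have hKy : ∀ i, Fin.snoc (α := fun _ => Fin n) τ y i ∈ L.erase x := by
    intro i
    refine Fin.lastCases ?_ (fun j => ?_) i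
    · simp [hy, hxy.ne']
    · simp only [Fin.snoc_castSucc]
      have := hτmem j
      rw [hK] at this
      simp only [mem_erase] at this ⊢
      exact ⟨this.2.1, this.2.2⟩
  have hKxy : ∀ i, Fin.snoc (α := fun _ => Fin n) (Fin.snoc (α := fun _ => Fin n) τ x) y i ∈ L := by
    intro i
    refine Fin.lastCases ?_ (fun j => ?_) i
    · simp [hy]
    · simp only [Fin.snoc_castSucc]
      exact Finset.mem_of_mem_erase (hKx j)
  have hinj2 : Function.Injective
      (Fin.snoc (α := fun _ => Fin n) (Fin.snoc (α := fun _ => Fin n) τ x) y) := by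
    rw [Fin.snoc_injective_iff]
    refine ⟨hsnocinj x hτx, ?_⟩
    rintro ⟨i, hi⟩
    have := hKx i
    rw [hi] at this
    simp at this
  have c1 : (L.erase y).card = p + 1 := by rw [card_erase_of_mem hy, hL]; omega
  have c2 : (L.erase x).card = p + 1 := by rw [card_erase_of_mem hx, hL]; omega
  rw [mt_perm G _ (hsnocinj x hτx) hKx c1, mt_perm G _ (hsnocinj y hτy) hKy c2,
    mt_perm (rc G p) _ (hsnocinj x hτx) hKx c1, mt_perm (rc G p) _ (hsnocinj y hτy) hKy c2,
    mt_perm G _ hinj2 hKxy hL, ← pl_eq G hKc] at key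
  have s0 : sg τ = 1 := sg_of_strictMono (K.orderEmbOfFin hKc).strictMono
  set X : ℝ := ∏ i : Fin p, if τ i < x then 1 else -1 with hX
  set Y : ℝ := ∏ i : Fin p, if τ i < y then 1 else -1 with hY
  have s1 : sg (Fin.snoc (α := fun _ => Fin n) τ x) = X := by rw [sg_snoc, s0, one_mul]
  have s2 : sg (Fin.snoc (α := fun _ => Fin n) τ y) = Y := by rw [sg_snoc, s0, one_mul]
  have s3 : sg (Fin.snoc (α := fun _ => Fin n) (Fin.snoc (α := fun _ => Fin n) τ x) y) = X * Y := by
    rw [sg_snoc, s1, Fin.prod_univ_castSucc]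
    simp [hxy, hY]
  have hX2 : X * X = 1 := by rw [← s1]; exact sg_sq _
  have hY2 : Y * Y = 1 := by rw [← s2]; exact sg_sq _
  rw [s1, s2, s3] at key
  -- `sw` versus `rc`
  have hsw : ∀ J : Finset (Fin n), J.card = p + 1 → pl (sw G p) J = - pl (rc G p) J := by
    intro J hJ
    rw [pl_eq _ hJ, pl_eq _ hJ]
    rw [mt_scale (G := rc G p) (fun j => if j = p then -1 else 1)]
    · rw [Finset.prod_ite_eq' (range (p + 1)) p]
      simp
    · intro r j hj
      unfold sw rc
      by_cases h1 : j = p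
      · simp [h1]
      · rw [if_neg h1, if_neg (by omega), if_neg h1, if_neg h1, one_mul]
  rw [hsw _ c1, hsw _ c2]
  have hXY : (X * Y) * (X * Y) = 1 := by
    calc (X * Y) * (X * Y) = (X * X) * (Y * Y) := by ring
      _ = 1 := by rw [hX2, hY2, one_mul]
  have h3 : (X * Y) * (pl G (L.erase y) * pl (rc G p) (L.erase x) -
      pl (rc G p) (L.erase y) * pl G (L.erase x)) = (X * Y) * (pl G K * pl G L) := by
    linear_combination key
  have h4 := congrArg (fun t => (X * Y) * t) h3
  simp only [← mul_assoc, hXY] at h4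
  linarith [h4]

end Pool.Agent.H55.Cell
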