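import Mathlib

/-!
# Definitions used in the statement: Bruhat interval polytopes, lattice path flag matroids,
subdivisions of the permutahedron

A permutation of `{1, ..., n}` is an element of `Equiv.Perm (Fin n)` (everything is shifted by one).
-/

namespace Pool.Agent.H55.Cell

variable {n : ℕ}

/-- one step upwards in the strong Bruhat order: `w = u (a b)` with `a < b`, `u a < u b` -/
def BruhatStep (u w : Equiv.Perm (Fin n)) : Prop :=
  ∃ a b : Fin n, a < b ∧ u a < u b ∧ w = u * Equiv.swap a b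

/-- the strong Bruhat order -/
def BruhatLE (u w : Equiv.Perm (Fin n)) : Prop := Relation.ReflTransGen BruhatStep u w

/-- the point `(w₁, ..., wₙ)` of `ℝⁿ` -/
noncomputable def pt (w : Equiv.Perm (Fin n)) : Fin n → ℝ := fun i => ((w i : ℕ) : ℝ) + 1

/-- the permutahedron -/
def permutahedron (n : ℕ) : Set (Fin n → ℝ) := convexHull ℝ (Set.range (pt (n := n)))

/-- the convex hull of the permutations `w` with `u ≤ w ≤ v` in Bruhat order -/
def bip (u v : Equiv.Perm (Fin n)) : Set (Fin n → ℝ) :=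
  convexHull ℝ (pt '' {w | BruhatLE u w ∧ BruhatLE w v})

/-- dimension `n - 1` (in `ℝⁿ`) -/
def FullDim (C : Set (Fin n → ℝ)) : Prop := Module.finrank ℝ (vectorSpan ℝ C) + 1 = n

/-- `𝒮` is (the set of maximal cells of) a subdivision of the permutahedron into Bruhat interval
polytopes: finitely many `(n - 1)`-dimensional Bruhat interval polytopes which cover the
permutahedron and any two of which meet in a common (possibly empty) face -/
def IsBIPSubdivision (𝒮 : Set (Set (Fin n → ℝ))) : Prop :=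
  𝒮.Finite ∧ (∀ C ∈ 𝒮, FullDim C ∧ ∃ u v : Equiv.Perm (Fin n), BruhatLE u v ∧ C = bip u v) ∧
    ⋃₀ 𝒮 = permutahedron n ∧
    ∀ C ∈ 𝒮, ∀ C' ∈ 𝒮, IsExposed ℝ C (C ∩ C') ∧ IsExposed ℝ C' (C ∩ C')

/-- the height after `j` steps of the lattice path whose north steps are the steps in `P`
(step number `i + 1` is a north step iff `i ∈ P`) -/
def pathHeight (P : Finset (Fin n)) (j : ℕ) : ℕ := (P.filter fun i : Fin n => (i : ℕ) < j).card

/-- `M` is a lattice path matroid `M[U, L]` of rank `k` on the ground set `{1, ..., n}` -/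
def IsLPM (M : Matroid (Fin n)) (k : ℕ) : Prop :=
  ∃ U L : Finset (Fin n), U.card = k ∧ L.card = k ∧
    (∀ j, pathHeight L j ≤ pathHeight U j) ∧ M.E = Set.univ ∧
    ∀ B : Finset (Fin n), M.IsBase (B : Set (Fin n)) ↔
      B.card = k ∧ ∀ j, pathHeight L j ≤ pathHeight B j ∧ pathHeight B j ≤ pathHeight U j

/-- `M` is a quotient of `N`: every circuit of `N` is a union of circuits of `M` -/
def IsQuotient (M N : Matroid (Fin n)) : Prop :=
  ∀ C, N.IsCircuit C → ∃ 𝒟 : Set (Set (Fin n)), (∀ D ∈ 𝒟, M.IsCircuit D) ∧ C = ⋃₀ 𝒟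

/-- `M 0, M 1, ..., M (n - 1)` is a lattice path flag matroid: `M i` is a lattice path matroid of
rank `i + 1`, and each one is a quotient of the next one -/
def IsLPFM (M : Fin n → Matroid (Fin n)) : Prop :=
  (∀ i : Fin n, IsLPM (M i) ((i : ℕ) + 1)) ∧
    ∀ i j : Fin n, (j : ℕ) = (i : ℕ) + 1 → IsQuotient (M i) (M j)

/-- the base polytope of a matroid -/
def basePolytope (M : Matroid (Fin n)) : Set (Fin n → ℝ) :=
  convexHull ℝ {p | ∃ B : Finset (Fin n), M.IsBase (B : Set (Fin n)) ∧
    p = fun i => if i ∈ B then (1 : ℝ) else 0}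

/-- the flag matroid polytope: Minkowski sum of the base polytopes -/
def flagPolytope (M : Fin n → Matroid (Fin n)) : Set (Fin n → ℝ) :=
  {p | ∃ q : Fin n → Fin n → ℝ, (∀ i, q i ∈ basePolytope (M i)) ∧ p = ∑ i, q i}

end Pool.Agent.H55.Cell
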